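import Pool.Agent.HB.B.BB

/-!
# HB-B-B5 (I5): valuations of the functions `x - x'`, `y`, `y - e x³` on `B : y² = x⁶ + 1`

Plan.  `p = aff x y`, `q = aff x' y'`; `iInf p = max 0 (-v x)`.
`v_x_sub`: * both `x, x'` integral: `iInf = 0`.  Put `a = x - x'`, `b = y + y'`, `c = y - y'`,
  `b c = a d`, `d = (x⁶ - x'⁶)/(x - x')`.  `iB p q = dmin a c`, `iB p q.iot = dmin a b`.
  If `v a = 0` both are `0`.  If `v a > 0`: if one of `b, c` is a unit the other one is in `(a)`, so
  the sum is `v a`.  If none is a unit, `2 y = b + c` is not a unit, so `v x = 0` (`y² = x⁶ + 1`),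
  `v d = v (6 x⁵ + a (...)) = 0`, `v b + v c = v a` and `dmin a c + dmin a b = v c + v b`.
* both not integral: `x - x' = (xh' - xh)/(xh xh')`, `xh = 1/x`; `v (x - x') = v (xh - xh')
  - iInf p - iInf q`.  `iB p q + iB p q.iot = v (xh - xh')`: `yh ≡ ±1` (`BPt.yh_near`); if
  `yh, yh'` have the same sign then `yh + yh'` is a unit, `iB p q.iot = 0` and
  `(yh - yh')(yh + yh') = xh⁶ - xh'⁶` gives `D.ge (v (xh - xh')) (yh - yh')`, so
  `iB p q = v (xh - xh')`; same with the other sign.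
* mixed: `iB = 0` twice, `v (x - x') = min (v x) (v x')`.
`v_y`: `v y = iB p p.iot - 3 iInf p` (`y ≠ 0`): `iB p p.iot = dmin 0 (2y)` resp. `dmin 0 (2 yh)`,
`yh = y/x³`.
`v_y_sub`: `(y - e x³)(y + e x³) = 1`, `e² = 1`; `x` integral: both integral, so `v = 0`, and
`iB p (inf e) = 0`.  `v x < 0`: `y - e x³ = x³ (yh - e)`, `(yh - e)(yh + e) = xh⁶`, one of the two
factors is a unit; `iB p (inf e) = dmin xh (yh - e)`: if `yh + e` is a unit then
`v (yh - e) = 6 v xh`, `iB p (inf e) = v xh`, `iB p (inf (-e)) = 0`, `v (y - e x³) = -3 v xh + 6 v xh`.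
`iInf_eq`: `iInf p = iB p (inf e) + iB p (inf (-e))`.
-/

set_option autoImplicit false

namespace HB

variable {k F : Type} [Field k] [Field F] [Algebra k F] [CharZero k] (D : DV k F)

theorem DV.ge_or_unit {z : F} (h : D.ge 0 z) : (z ≠ 0 ∧ D.v z = 0) ∨ D.ge 1 z := by
  by_cases hz : z = 0
  · right; left; exact hz
  · have h1 := D.le_of_ge hz h
    rcases Int.lt_or_le 0 (D.v z) with h2 | h2
    · right; right; omega
    · left; exact ⟨hz, by omega⟩

theorem DV.not_ge_one {z : F} (h : D.v z = 0) (hz : z ≠ 0) : ¬ D.ge 1 z := by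
  intro h1
  have := D.le_of_ge hz h1
  omega

theorem DV.v_two_mul [CharZero F] {z : F} (hz : z ≠ 0) : D.v (2 * z) = D.v z := by
  rw [D.mul two_ne_zero hz, D.ofNat, zero_add]

theorem DV.b5_key {a b c d : F} (ha : a ≠ 0) (hbc : b * c = a * d) (hga : D.ge 0 a)
    (hb : D.ge 0 b) (hc : D.ge 0 c) (hd : D.ge 0 d)
    (h3 : D.ge 1 a → D.ge 1 b → D.ge 1 c → d ≠ 0 ∧ D.v d = 0) :
    D.dmin a c + D.dmin a b = D.v a := by
  have hva := D.le_of_ge ha hga
  have hmin : ∀ z : F, z ≠ 0 → D.dmin a z = min (D.v a) (D.v z) := by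
    intro z hz
    unfold dmin
    rw [if_neg ha, if_neg hz]
  have aux : ∀ b c : F, b * c = a * d → D.ge 0 b → D.ge 0 c → b ≠ 0 → D.v b = 0 →
      D.dmin a c = D.v a ∧ D.dmin a b = 0 := by
    intro b c hbc hb hc hb0 hvb
    constructor
    · by_cases hc0 : c = 0
      · subst hc0; rw [dmin_zero_right]
      · rw [hmin c hc0]
        apply min_eq_left
        have hd0 : d ≠ 0 := by
          intro hd0
          rw [hd0, mul_zero] at hbc
          rcases mul_eq_zero.mp hbc with h | h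
          · exact hb0 h
          · exact hc0 h
        have h1 := D.mul hb0 hc0
        rw [hbc, D.mul ha hd0] at h1
        have h2 := D.le_of_ge hd0 hd
        omega
    · rw [hmin b hb0, hvb]
      exact min_eq_right hva
  rcases D.ge_or_unit hb with hub | hgb
  · obtain ⟨h1, h2⟩ := aux b c hbc hb hc hub.1 hub.2
    rw [h1, h2, add_zero]
  rcases D.ge_or_unit hc with huc | hgc
  · obtain ⟨h1, h2⟩ := aux c b (by rw [mul_comm]; exact hbc) hc hb huc.1 huc.2
    rw [h1, h2, zero_add]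
  rcases D.ge_or_unit hga with hua | hga1
  · have h0 : ∀ z : F, D.ge 1 z → D.dmin a z = 0 := by
      intro z hz
      by_cases hz0 : z = 0
      · subst hz0; rw [dmin_zero_right, hua.2]
      · rw [hmin z hz0, hua.2]
        have := D.le_of_ge hz0 hz
        omega
    rw [h0 b hgb, h0 c hgc, hua.2, add_zero]
  · obtain ⟨hd0, hvd⟩ := h3 hga1 hgb hgc
    have hne : b * c ≠ 0 := by rw [hbc]; exact mul_ne_zero ha hd0
    have hb0 : b ≠ 0 := left_ne_zero_of_mul hne
    have hc0 : c ≠ 0 := right_ne_zero_of_mul hne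
    have h1 := D.mul hb0 hc0
    rw [hbc, D.mul ha hd0, hvd] at h1
    have h2 := D.le_of_ge hb0 hb
    have h4 := D.le_of_ge hc0 hc
    rw [hmin b hb0, hmin c hc0, min_eq_right (by omega), min_eq_right (by omega)]
    omega

theorem DV.iB_aff_fin {x y x' y' : F} (h : y ^ 2 = x ^ 6 + 1) (h' : y' ^ 2 = x' ^ 6 + 1)
    (hx : D.ge 0 x) (hx' : D.ge 0 x') :
    D.iB (.aff x y h) (.aff x' y' h') = D.dmin (x - x') (y - y') := by
  unfold iB
  rw [if_pos ⟨hx, hx'⟩]
  rfl

theorem DV.iB_aff_inf {x y x' y' : F} (h : y ^ 2 = x ^ 6 + 1) (h' : y' ^ 2 = x' ^ 6 + 1)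
    (hx : ¬ D.ge 0 x) (hx' : ¬ D.ge 0 x') :
    D.iB (.aff x y h) (.aff x' y' h') = D.dmin (x⁻¹ - x'⁻¹) (y / x ^ 3 - y' / x' ^ 3) := by
  unfold iB
  rw [if_neg (fun hh => hx hh.1), if_pos ⟨hx, hx'⟩]
  rfl

theorem DV.iB_mixed {p q : BPt F} (hp : p.IsFin D) (hq : ¬ q.IsFin D) : D.iB p q = 0 := by
  unfold iB
  rw [if_neg (fun hh => hq hh.2), if_neg (fun hh => hh.1 hp)]

theorem DV.iB_mixed' {p q : BPt F} (hp : ¬ p.IsFin D) (hq : q.IsFin D) : D.iB p q = 0 := by
  unfold iB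
  rw [if_neg (fun hh => hp hh.1), if_neg (fun hh => hh.2 hq)]

theorem DV.iB_aff_inf_point {x y : F} (h : y ^ 2 = x ^ 6 + 1) (e : F) (he : e ^ 2 = 1)
    (hx : ¬ D.ge 0 x) : D.iB (.aff x y h) (.inf e he) = D.dmin x⁻¹ (y / x ^ 3 - e) := by
  unfold iB
  rw [if_neg (fun hh => hx hh.1), if_pos ⟨hx, fun hh => hh⟩]
  change D.dmin (x⁻¹ - 0) (y / x ^ 3 - e) = _
  rw [sub_zero]

theorem DV.iInf_fin {x y : F} (h : y ^ 2 = x ^ 6 + 1) (hx : D.ge 0 x) :
    D.iInf (.aff x y h) = 0 := by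
  change max 0 (-(D.v x)) = 0
  rcases hx with h0 | h0
  · rw [h0, D.zero]; rfl
  · exact max_eq_left (by omega)

theorem DV.iInf_not_fin {x y : F} (h : y ^ 2 = x ^ 6 + 1) (hx : ¬ D.ge 0 x) :
    x ≠ 0 ∧ D.v x < 0 ∧ D.iInf (.aff x y h) = -(D.v x) := by
  have hx0 : x ≠ 0 := fun h0 => hx (Or.inl h0)
  have hv : D.v x < 0 := by
    by_contra hc
    exact hx (Or.inr (not_lt.mp hc))
  refine ⟨hx0, hv, ?_⟩
  change max 0 (-(D.v x)) = _
  exact max_eq_right (by omega)

theorem DV.ge_y_aff {x y : F} (h : y ^ 2 = x ^ 6 + 1) (hx : D.ge 0 x) : D.ge 0 y := by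
  refine D.ge_of_pow (n := 2) (by norm_num) ?_
  rw [h]
  exact D.ge_add (D.ge_pow hx 6) D.ge_one

theorem DV.ge_two : D.ge 0 (2 : F) := by
  right; rw [D.ofNat]

theorem DV.v_x_sub {x y x' y' : F} (h : y ^ 2 = x ^ 6 + 1) (h' : y' ^ 2 = x' ^ 6 + 1)
    (hx : x ≠ x') :
    D.v (x - x') = D.iB (.aff x y h) (.aff x' y' h') + D.iB (.aff x y h) (BPt.iot (.aff x' y' h'))
      - D.iInf (.aff x y h) - D.iInf (.aff x' y' h') := by
  have hF : CharZero F := charZero_of_injective_algebraMap (algebraMap k F).injective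
  have hh' : (-y') ^ 2 = x' ^ 6 + 1 := by rw [neg_sq, h']
  have hiot : BPt.iot (.aff x' y' h') = .aff x' (-y') hh' := rfl
  rw [hiot]
  by_cases hg : D.ge 0 x
  · by_cases hg' : D.ge 0 x'
    · rw [D.iInf_fin h hg, D.iInf_fin h' hg', D.iB_aff_fin h h' hg hg',
        D.iB_aff_fin h hh' hg hg', sub_zero, sub_zero]
      have hy := D.ge_y_aff h hg
      have hy' := D.ge_y_aff h' hg'
      symm
      have hd : D.ge 0 (x ^ 5 + x ^ 4 * x' + x ^ 3 * x' ^ 2 + x ^ 2 * x' ^ 3 + x * x' ^ 4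
          + x' ^ 5) := by
        have hm : ∀ i j : ℕ, D.ge 0 (x ^ i * x' ^ j) := by
          intro i j
          have := D.ge_mul (D.ge_pow hg i) (D.ge_pow hg' j)
          simpa using this
        have h1 := hm 4 1
        have h4 := hm 1 4
        rw [pow_one] at h1 h4
        exact D.ge_add (D.ge_add (D.ge_add (D.ge_add (D.ge_add (D.ge_pow hg 5) h1)
          (hm 3 2)) (hm 2 3)) h4) (D.ge_pow hg' 5)
      refine D.b5_key (sub_ne_zero.mpr hx) ?_ (D.ge_sub hg hg') (D.ge_sub hy (D.ge_neg hy'))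
        (D.ge_sub hy hy') hd ?_
      · linear_combination h - h'
      · intro h1 h2 h3
        -- `2 y` has positive valuation
        have h4 : D.ge 1 (2 * y) := by
          have := D.ge_add h2 h3
          have he : y - -y' + (y - y') = 2 * y := by ring
          rwa [he] at this
        have h5 : D.ge 1 y := by
          by_cases hy0 : y = 0
          · exact Or.inl hy0
          · right
            rw [← D.v_two_mul hy0]
            exact D.le_of_ge (mul_ne_zero two_ne_zero hy0) h4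
        have hxu : x ≠ 0 ∧ D.v x = 0 := by
          rcases D.ge_or_unit hg with h6 | h6
          · exact h6
          · exfalso
            refine D.not_ge_one D.one one_ne_zero ?_
            have h7 : D.ge (1 + 0) (y * y) := D.ge_mul h5 hy
            have h8 : D.ge (1 + 0) (x * x ^ 5) := D.ge_mul h6 (D.ge_pow hg 5)
            have h9 := D.ge_sub h7 h8
            have he : y * y - x * x ^ 5 = 1 := by linear_combination h
            rw [he] at h9
            simpa using h9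
        have h10 : x ^ 5 + x ^ 4 * x' + x ^ 3 * x' ^ 2 + x ^ 2 * x' ^ 3 + x * x' ^ 4 + x' ^ 5 =
            6 * x ^ 5 + (x - x') * (-(5 * x ^ 4) - 4 * x ^ 3 * x' - 3 * x ^ 2 * x' ^ 2
              - 2 * x * x' ^ 3 - x' ^ 4) := by ring
        have hnum : ∀ n : ℕ, D.ge 0 (n : F) := by
          intro n; right; rw [D.natCast]
        have hm : ∀ n i j : ℕ, D.ge 0 ((n : F) * x ^ i * x' ^ j) := by
          intro n i j
          have := D.ge_mul (D.ge_mul (hnum n) (D.ge_pow hg i)) (D.ge_pow hg' j)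
          simpa using this
        have h11 : D.ge 0 (-(5 * x ^ 4) - 4 * x ^ 3 * x' - 3 * x ^ 2 * x' ^ 2
              - 2 * x * x' ^ 3 - x' ^ 4) := by
          have e1 := hm 5 4 0
          have e2 := hm 4 3 1
          have e3 := hm 3 2 2
          have e4 := hm 2 1 3
          have e5 := hm 1 0 4
          have := D.ge_neg (D.ge_add (D.ge_add (D.ge_add (D.ge_add e1 e2) e3) e4) e5)
          have he : -(((5 : ℕ) : F) * x ^ 4 * x' ^ 0 + ((4 : ℕ) : F) * x ^ 3 * x' ^ 1
              + ((3 : ℕ) : F) * x ^ 2 * x' ^ 2 + ((2 : ℕ) : F) * x ^ 1 * x' ^ 3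
              + ((1 : ℕ) : F) * x ^ 0 * x' ^ 4) = -(5 * x ^ 4) - 4 * x ^ 3 * x'
              - 3 * x ^ 2 * x' ^ 2 - 2 * x * x' ^ 3 - x' ^ 4 := by
            push_cast; ring
          rwa [he] at this
        have h6x : (6 : F) * x ^ 5 ≠ 0 := mul_ne_zero (by norm_num) (pow_ne_zero _ hxu.1)
        have hv6 : D.v ((6 : F) * x ^ 5) = 0 := by
          rw [D.mul (by norm_num) (pow_ne_zero _ hxu.1), D.pow hxu.1, hxu.2, D.ofNat]
          norm_num
        have h12 := D.add_eq_left h6x (y := (x - x') * (-(5 * x ^ 4) - 4 * x ^ 3 * x'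
          - 3 * x ^ 2 * x' ^ 2 - 2 * x * x' ^ 3 - x' ^ 4)) (by
            rw [hv6]
            have := D.ge_mul h1 h11
            simpa using this)
        rw [h10, ← hv6]
        exact h12
    · obtain ⟨hx0', hv', hi'⟩ := D.iInf_not_fin h' hg'
      rw [D.iInf_fin h hg, hi', D.iB_mixed (p := .aff x y h) (q := .aff x' y' h') hg hg',
        D.iB_mixed (p := .aff x y h) (q := .aff x' (-y') hh') hg hg']
      have h1 := D.add_eq_left (x := -x') (y := x) (neg_ne_zero.mpr hx0') (by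
        rw [D.neg]
        exact D.ge_mono (by omega) hg)
      rw [D.neg, neg_add_eq_sub] at h1
      rw [h1.2]; ring
  · obtain ⟨hx0, hv, hi⟩ := D.iInf_not_fin h hg
    by_cases hg' : D.ge 0 x'
    · rw [D.iInf_fin h' hg', hi, D.iB_mixed' (p := .aff x y h) (q := .aff x' y' h') hg hg',
        D.iB_mixed' (p := .aff x y h) (q := .aff x' (-y') hh') hg hg']
      have h1 := D.add_eq_left (x := x) (y := -x') hx0 (D.ge_neg (D.ge_mono (by omega) hg'))
      rw [← sub_eq_add_neg] at h1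
      rw [h1.2]; ring
    · obtain ⟨hx0', hv', hi'⟩ := D.iInf_not_fin h' hg'
      rw [hi, hi', D.iB_aff_inf h h' hg hg', D.iB_aff_inf h hh' hg hg']
      have hxi : D.ge 1 x⁻¹ := by
        right; rw [D.inv hx0]; omega
      have hxi' : D.ge 1 x'⁻¹ := by
        right; rw [D.inv hx0']; omega
      have hxi0 := D.ge_mono (by norm_num : (0 : ℤ) ≤ 1) hxi
      have hxi0' := D.ge_mono (by norm_num : (0 : ℤ) ≤ 1) hxi'
      have hY : (y / x ^ 3) ^ 2 = x⁻¹ ^ 6 + 1 := by
        field_simp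
        linear_combination h
      have hY' : (y' / x' ^ 3) ^ 2 = x'⁻¹ ^ 6 + 1 := by
        field_simp
        linear_combination h'
      have hy := D.ge_y_aff hY hxi0
      have hy' := D.ge_y_aff hY' hxi0'
      have hyu := BPt.yh_of_not_fin D (.aff x y h) hg
      have hyu0 : y / x ^ 3 ≠ 0 := hyu.1
      have hyuv : D.v (y / x ^ 3) = 0 := hyu.2
      have ha : x⁻¹ - x'⁻¹ ≠ 0 := by
        rw [sub_ne_zero]
        exact fun he => hx (inv_injective he)
      have hm : ∀ i j : ℕ, D.ge 0 (x⁻¹ ^ i * x'⁻¹ ^ j) := by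
        intro i j
        have := D.ge_mul (D.ge_pow hxi0 i) (D.ge_pow hxi0' j)
        simpa only [add_zero] using this
      have hd : D.ge 0 (x⁻¹ ^ 5 + x⁻¹ ^ 4 * x'⁻¹ ^ 1 + x⁻¹ ^ 3 * x'⁻¹ ^ 2 + x⁻¹ ^ 2 * x'⁻¹ ^ 3
          + x⁻¹ ^ 1 * x'⁻¹ ^ 4 + x'⁻¹ ^ 5) := by
        exact D.ge_add (D.ge_add (D.ge_add (D.ge_add (D.ge_add (D.ge_pow hxi0 5) (hm 4 1))
          (hm 3 2)) (hm 2 3)) (hm 1 4)) (D.ge_pow hxi0' 5)
      have hkey := D.b5_key (a := x⁻¹ - x'⁻¹) (b := y / x ^ 3 - (-y') / x' ^ 3)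
        (c := y / x ^ 3 - y' / x' ^ 3) ha
        (by
          have e1 : -y' / x' ^ 3 = -(y' / x' ^ 3) := by ring
          rw [e1]
          linear_combination hY - hY') (D.ge_sub hxi0 hxi0')
        (by
          have e1 : -y' / x' ^ 3 = -(y' / x' ^ 3) := by ring
          rw [e1]
          exact D.ge_sub hy (D.ge_neg hy')) (D.ge_sub hy hy') hd (by
          intro h1 h2 h3
          exfalso
          have h4 := D.ge_add h2 h3
          have he : y / x ^ 3 - -y' / x' ^ 3 + (y / x ^ 3 - y' / x' ^ 3) = 2 * (y / x ^ 3) := by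
            ring
          rw [he] at h4
          exact D.not_ge_one (by rw [D.v_two_mul hyu0, hyuv]) (mul_ne_zero two_ne_zero hyu0) h4)
      rw [hkey]
      have e2 : x⁻¹ - x'⁻¹ = -((x - x') / (x * x')) := by
        field_simp; ring
      rw [e2, D.neg, D.div (sub_ne_zero.mpr hx) (mul_ne_zero hx0 hx0'), D.mul hx0 hx0']
      ring

theorem DV.v_y {x y : F} (h : y ^ 2 = x ^ 6 + 1) (hy : y ≠ 0) :
    D.v y = D.iB (.aff x y h) (BPt.iot (.aff x y h)) - 3 * D.iInf (.aff x y h) := by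
  have hF : CharZero F := charZero_of_injective_algebraMap (algebraMap k F).injective
  have hh : (-y) ^ 2 = x ^ 6 + 1 := by rw [neg_sq, h]
  have hiot : BPt.iot (.aff x y h) = .aff x (-y) hh := rfl
  rw [hiot]
  by_cases hg : D.ge 0 x
  · rw [D.iInf_fin h hg, D.iB_aff_fin h hh hg hg, sub_self, D.dmin_zero_left]
    have e : y - -y = 2 * y := by ring
    rw [e, D.v_two_mul hy]; ring
  · obtain ⟨hx0, hv, hi⟩ := D.iInf_not_fin h hg
    rw [hi, D.iB_aff_inf h hh hg hg, sub_self, D.dmin_zero_left]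
    have e : y / x ^ 3 - -y / x ^ 3 = 2 * (y / x ^ 3) := by ring
    rw [e, D.v_two_mul (div_ne_zero hy (pow_ne_zero _ hx0)), D.div hy (pow_ne_zero _ hx0),
      D.pow hx0]
    push_cast; ring

/-- The key facts near infinity. -/
theorem DV.b5_near {x y : F} (h : y ^ 2 = x ^ 6 + 1) (e : F) (he : e ^ 2 = 1)
    (hg : ¬ D.ge 0 x) :
    D.ge 0 x⁻¹ ∧ x⁻¹ ≠ 0 ∧ D.v x⁻¹ = -(D.v x) ∧
      (y / x ^ 3 - -e) * (y / x ^ 3 - e) = x⁻¹ * x⁻¹ ^ 5 ∧
      D.ge 0 (y / x ^ 3 - -e) ∧ D.ge 0 (y / x ^ 3 - e) ∧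
      (D.ge 1 (y / x ^ 3 - -e) → D.ge 1 (y / x ^ 3 - e) → False) := by
  have hF : CharZero F := charZero_of_injective_algebraMap (algebraMap k F).injective
  obtain ⟨hx0, hv, hi⟩ := D.iInf_not_fin h hg
  have hxi : D.ge 0 x⁻¹ := by
    right; rw [D.inv hx0]; omega
  have hY : (y / x ^ 3) ^ 2 = x⁻¹ ^ 6 + 1 := by
    field_simp
    linear_combination h
  have hy := D.ge_y_aff hY hxi
  have hyu := BPt.yh_of_not_fin D (.aff x y h) hg
  have hyu0 : y / x ^ 3 ≠ 0 := hyu.1
  have hyuv : D.v (y / x ^ 3) = 0 := hyu.2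
  have hge : D.ge 0 e := by
    refine D.ge_of_pow (n := 2) (by norm_num) ?_
    rw [he]; exact D.ge_one
  refine ⟨hxi, inv_ne_zero hx0, D.inv hx0, by linear_combination hY - he,
    D.ge_sub hy (D.ge_neg hge), D.ge_sub hy hge, ?_⟩
  intro h2 h3
  have h4 := D.ge_add h2 h3
  have hee : y / x ^ 3 - -e + (y / x ^ 3 - e) = 2 * (y / x ^ 3) := by ring
  rw [hee] at h4
  exact D.not_ge_one (by rw [D.v_two_mul hyu0, hyuv]) (mul_ne_zero two_ne_zero hyu0) h4

theorem DV.iInf_eq {x y : F} (h : y ^ 2 = x ^ 6 + 1) (e : F) (he : e ^ 2 = 1) :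
    D.iInf (.aff x y h) = D.iB (.aff x y h) (.inf e he) +
      D.iB (.aff x y h) (.inf (-e) (by rw [neg_sq, he])) := by
  by_cases hg : D.ge 0 x
  · rw [D.iInf_fin h hg, D.iB_mixed (p := .aff x y h) (q := .inf e he) hg (fun hh => hh),
      D.iB_mixed (p := .aff x y h) (q := .inf (-e) (by rw [neg_sq, he])) hg (fun hh => hh),
      add_zero]
  · obtain ⟨hx0, hv, hi⟩ := D.iInf_not_fin h hg
    obtain ⟨h1, h2, h3, h4, h5, h6, h7⟩ := D.b5_near h e he hg
    rw [hi, D.iB_aff_inf_point h e he hg, D.iB_aff_inf_point h (-e) (by rw [neg_sq, he]) hg, ← h3]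
    symm
    exact D.b5_key h2 h4 h1 h5 h6 (D.ge_pow h1 5) (fun _ h8 h9 => (h7 h8 h9).elim)

theorem DV.v_y_sub {x y : F} (h : y ^ 2 = x ^ 6 + 1) (e : F) (he : e ^ 2 = 1) :
    D.v (y - e * x ^ 3) = 3 * D.iB (.aff x y h) (.inf e he) -
      3 * D.iB (.aff x y h) (.inf (-e) (by rw [neg_sq, he])) := by
  have hF : CharZero F := charZero_of_injective_algebraMap (algebraMap k F).injective
  by_cases hg : D.ge 0 x
  · rw [D.iB_mixed (p := .aff x y h) (q := .inf e he) hg (fun hh => hh),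
      D.iB_mixed (p := .aff x y h) (q := .inf (-e) (by rw [neg_sq, he])) hg (fun hh => hh)]
    have hge : D.ge 0 e := by
      refine D.ge_of_pow (n := 2) (by norm_num) ?_
      rw [he]; exact D.ge_one
    have hy := D.ge_y_aff h hg
    have hex : D.ge 0 (e * x ^ 3) := by
      have := D.ge_mul hge (D.ge_pow hg 3)
      simpa using this
    have hp : (y - e * x ^ 3) * (y + e * x ^ 3) = 1 := by
      linear_combination h - x ^ 6 * he
    have h1 : y - e * x ^ 3 ≠ 0 := left_ne_zero_of_mul_eq_one hp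
    have h2 : y + e * x ^ 3 ≠ 0 := right_ne_zero_of_mul_eq_one hp
    have h3 := D.mul h1 h2
    rw [hp, D.one] at h3
    have h4 := D.le_of_ge h1 (D.ge_sub hy hex)
    have h5 := D.le_of_ge h2 (D.ge_add hy hex)
    omega
  · obtain ⟨hx0, hv, hi⟩ := D.iInf_not_fin h hg
    obtain ⟨h1, h2, h3, h4, h5, h6, h7⟩ := D.b5_near h e he hg
    rw [D.iB_aff_inf_point h e he hg, D.iB_aff_inf_point h (-e) (by rw [neg_sq, he]) hg]
    have hne : (y / x ^ 3 - -e) * (y / x ^ 3 - e) ≠ 0 := by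
      rw [h4]; exact mul_ne_zero h2 (pow_ne_zero _ h2)
    have hn1 := left_ne_zero_of_mul hne
    have hn2 := right_ne_zero_of_mul hne
    have hmul := D.mul hn1 hn2
    rw [h4, D.mul h2 (pow_ne_zero _ h2), D.pow h2, h3] at hmul
    have hmin : ∀ z : F, z ≠ 0 → D.dmin x⁻¹ z = min (-(D.v x)) (D.v z) := by
      intro z hz
      unfold dmin
      rw [if_neg h2, if_neg hz, h3]
    have hfac : y - e * x ^ 3 = x ^ 3 * (y / x ^ 3 - e) := by
      field_simp
    rw [hfac, D.mul (pow_ne_zero _ hx0) hn2, D.pow hx0, hmin _ hn1, hmin _ hn2]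
    have h8 := D.le_of_ge hn1 h5
    have h9 := D.le_of_ge hn2 h6
    have h10 : D.v (y / x ^ 3 - -e) = 0 ∨ D.v (y / x ^ 3 - e) = 0 := by
      by_contra hc
      rw [not_or] at hc
      exact h7 (Or.inr (by omega)) (Or.inr (by omega))
    have e3 : ((3 : ℕ) : ℤ) = 3 := rfl
    have e5 : ((5 : ℕ) : ℤ) = 5 := rfl
    rw [e5] at hmul
    rw [e3]
    rcases h10 with h10 | h10
    · rw [h10] at hmul ⊢
      rw [min_eq_left (by omega), min_eq_right (by omega)]
      omega
    · rw [h10] at hmul ⊢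
      rw [min_eq_right (by omega), min_eq_left (by omega)]
      omega

/-- `i(p, {x = 0})` is the sum of the multiplicities with `(0,1)` and `(0,-1)`. -/
theorem DV.iZero_eq {x y : F} (h : y ^ 2 = x ^ 6 + 1) (hx : x ≠ 0) (e : F) (he : e ^ 2 = 1) :
    D.iZero (.aff x y h) = D.iB (.aff x y h) (.aff 0 e (by rw [he]; ring)) +
      D.iB (.aff x y h) (.aff 0 (-e) (by rw [neg_sq, he]; ring)) := by
  have hF : CharZero F := charZero_of_injective_algebraMap (algebraMap k F).injective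
  have h01 : e ^ 2 = 0 ^ 6 + 1 := by rw [he]; ring
  have h02 : (-e) ^ 2 = 0 ^ 6 + 1 := by rw [neg_sq, he]; ring
  change max 0 (D.v x) = D.iB (.aff x y h) (.aff 0 e h01) + D.iB (.aff x y h) (.aff 0 (-e) h02)
  by_cases hg : D.ge 0 x
  · have hv := D.le_of_ge hx hg
    rw [D.iB_aff_fin h h01 hg (Or.inl rfl), D.iB_aff_fin h h02 hg (Or.inl rfl), sub_zero,
      max_eq_right hv]
    symm
    have hge : D.ge 0 e := by
      refine D.ge_of_pow (n := 2) (by norm_num) ?_
      rw [he]; exact D.ge_one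
    have hy := D.ge_y_aff h hg
    have he0 : e ≠ 0 := by
      intro h0; rw [h0] at he; norm_num at he
    have hve : D.v e = 0 := by
      have h1 := D.pow he0 2
      rw [he, D.one] at h1
      push_cast at h1
      omega
    refine D.b5_key hx (d := x ^ 5) ?_ hg (D.ge_sub hy (D.ge_neg hge)) (D.ge_sub hy hge)
      (D.ge_pow hg 5) ?_
    · linear_combination h - he
    · intro _ h2 h3
      exfalso
      have h4 := D.ge_sub h2 h3
      have hee : y - -e - (y - e) = 2 * e := by ring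
      rw [hee] at h4
      exact D.not_ge_one (by rw [D.v_two_mul he0, hve]) (mul_ne_zero two_ne_zero he0) h4
  · obtain ⟨hx0, hv, hi⟩ := D.iInf_not_fin h hg
    rw [D.iB_mixed' (p := .aff x y h) (q := .aff 0 e h01) hg (Or.inl rfl),
      D.iB_mixed' (p := .aff x y h) (q := .aff 0 (-e) h02) hg (Or.inl rfl), add_zero]
    exact max_eq_left (by omega)

end HB
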