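import Pool.Agent.HB.B.Basic

/-!
# HB-B-BB: first facts on intersection multiplicities `D.iB` on `B : y² = x⁶ + 1`

`D.iB p q = dmin (x - x') (y - y')` if both points are in the chart `x ≠ ∞` (`IsFin D`),
`dmin (xh - xh') (yh - yh')` if none of them is, `0` otherwise.  In the second case `xh, xh'` have
positive valuation (or are `0`) and `yh² = xh⁶ + 1` (`yh_sq`), so `v yh = 0`.

Plans.
* `yh_sq`: `aff`: `field_simp`; `inf`: `e² = 1`.  `y_sq`, `ge_y` clear.
* `xh_of_not_fin`: `¬ IsFin`: `aff`: `x ≠ 0`, `v x < 0` so `v x⁻¹ ≥ 1`; `inf`: `xh = 0`.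
* `coord_ne`: if `p ≠ q` and both are affine, then `x - x' ≠ 0 ∨ y - y' ≠ 0`; if both are not
  `IsFin`, then `xh - xh' ≠ 0 ∨ yh - yh' ≠ 0` (`aff`/`aff`: `x = 1/xh`, `y = yh x³`; `aff`/`inf`:
  `xh ≠ 0`; `inf`/`inf`: `e ≠ e'`).
* `iB_comm`, `iB_nonneg` (coordinates are integral; `le_dmin`), `iB_ultra` (both or none of the
  three points is `IsFin`, otherwise one of the two multiplicities is `0`; `le_dmin`, `ge_add`).
* `iB_iot`, `iB_sig`, `iB_alp`: the coordinates are multiplied by constants of valuation `0`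
  (`dmin_neg_left`, ..., `v z = 0` because `z³ = 1`).
* `iB_swap`: `IsFin` of `swap p`: `p = aff x y`, `x = 0`: `swap = inf y` (not fin);
  `x ≠ 0`: `swap = aff x⁻¹ (y/x³)`, fin iff `v x ≤ 0`.  If `v x > 0` (or `x = 0`) for both `p` and
  `q`, then `xh (swap p) = x`, `yh (swap p) = y` (`1/(1/x) = x`, `(y/x³)/(1/x)³ = y`): equality.
  Same if both are not fin.  If `v x = 0` for both: `min (v (1/x - 1/x')) (v (y/x³ - y'/x'³))
  = min (v (x - x')) (v (y - y'))`: prove `≤` both ways with `le_dmin` (write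
  `1/x - 1/x' = (x' - x)/(x x')`, `y/x³ - y'/x'³ = ((y - y') x'³ + y' (x'³ - x³))/(x x')³`, and
  conversely by applying this to `1/x`, `1/x'`).  In the remaining cases both sides are `0`:
  e.g. `v x = 0`, `v x' ≠ 0`: `x - x'` is a unit in the chart where both are integral.
* `iB_const`: for `p ≠ q : BPt k`, `D.iB (p.map F) (q.map F) = 0` (differences are nonzero constants).
-/

set_option autoImplicit false
set_option linter.unusedSectionVars false

namespace HB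

variable {k F : Type} [Field k] [Field F] [Algebra k F] [CharZero k] (D : DV k F)

namespace DV

omit [CharZero k] in
theorem ge_of_unit_mul {n : ℤ} {c x : F} (hc : c ≠ 0) (hv : D.v c = 0) (h : D.ge n (c * x)) :
    D.ge n x := by
  by_cases hx : x = 0
  · exact Or.inl hx
  · right
    have h1 := D.le_of_ge (mul_ne_zero hc hx) h
    rw [D.mul hc hx, hv, zero_add] at h1
    exact h1

omit [CharZero k] in
theorem v_eq_zero_of_pow {x : F} {n : ℕ} (hn : n ≠ 0) (hx : x ≠ 0) (h : D.v (x ^ n) = 0) :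
    D.v x = 0 := by
  rw [D.pow hx] at h
  rcases mul_eq_zero.mp h with h1 | h1
  · exact absurd (by exact_mod_cast h1) hn
  · exact h1

omit [CharZero k] in
theorem unit_of_ge {x : F} (h0 : D.ge 0 x) (h1 : ¬ D.ge 1 x) : x ≠ 0 ∧ D.v x = 0 := by
  have hx : x ≠ 0 := fun h => h1 (Or.inl h)
  refine ⟨hx, ?_⟩
  have h2 := D.le_of_ge hx h0
  have h3 : ¬ 1 ≤ D.v x := fun h => h1 (Or.inr h)
  omega

omit [CharZero k] in
theorem dmin_mul_left {c : F} (hc : c ≠ 0) (hv : D.v c = 0) (a b : F) :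
    D.dmin (c * a) b = D.dmin a b := by
  unfold dmin
  by_cases ha : a = 0
  · simp [ha]
  · by_cases hb : b = 0
    · simp [ha, hb, hc, D.mul hc ha, hv]
    · simp [ha, hb, hc, D.mul hc ha, hv]

omit [CharZero k] in
theorem dmin_congr {a b a' b' : F} (h : a ≠ 0 ∨ b ≠ 0) (h' : a' ≠ 0 ∨ b' ≠ 0)
    (h1 : ∀ n : ℤ, D.ge n a ∧ D.ge n b → D.ge n a' ∧ D.ge n b')
    (h2 : ∀ n : ℤ, D.ge n a' ∧ D.ge n b' → D.ge n a ∧ D.ge n b) :
    D.dmin a b = D.dmin a' b' := by
  refine le_antisymm ?_ ?_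
  · exact (D.le_dmin h' _).mpr (h1 _ ((D.le_dmin h _).mp le_rfl))
  · exact (D.le_dmin h _).mpr (h2 _ ((D.le_dmin h' _).mp le_rfl))

omit [CharZero k] in
theorem dmin_algebraMap (a b : k) : D.dmin (algebraMap k F a) (algebraMap k F b) = 0 := by
  unfold dmin
  by_cases ha : algebraMap k F a = 0
  · simp [ha, D.const]
  · by_cases hb : algebraMap k F b = 0
    · simp [ha, hb, D.const]
    · simp [ha, hb, D.const]

omit [CharZero k] in
theorem dmin_eq_zero {a b : F} (ha : a ≠ 0) (hv : D.v a = 0) (hb : D.ge 0 b) :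
    D.dmin a b = 0 := by
  refine le_antisymm ?_ ((D.le_dmin (Or.inl ha) 0).mpr ⟨Or.inr hv.ge, hb⟩)
  have h := ((D.le_dmin (Or.inl ha) (D.dmin a b)).mp le_rfl).1
  have h1 := D.le_of_ge ha h
  omega

end DV

namespace BPt

theorem aff_ne_zero_of_not_fin {x y : F} {hh : y ^ 2 = x ^ 6 + 1} (h : ¬ (aff x y hh).IsFin D) :
    x ≠ 0 ∧ D.v x < 0 := by
  have hx : x ≠ 0 := fun h0 => h (Or.inl h0)
  refine ⟨hx, ?_⟩
  by_contra hc
  exact h (Or.inr (not_lt.mp hc))

theorem yh_sq (p : BPt F) (h : ¬ p.IsFin D) : p.yh ^ 2 = p.xh ^ 6 + 1 := by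
  match p, h with
  | aff x y hh, h =>
    obtain ⟨hx, -⟩ := aff_ne_zero_of_not_fin D h
    simp only [xh, yh]
    field_simp
    rw [hh]
    ring
  | inf e hh, _ =>
    simp only [xh, yh]
    rw [hh]
    ring

theorem y_sq (p : BPt F) (h : p.IsFin D) : p.y ^ 2 = p.x ^ 6 + 1 := by
  match p, h with
  | aff x y hh, _ => exact hh
  | inf e hh, h => exact absurd h id

theorem ge_x (p : BPt F) (h : p.IsFin D) : D.ge 0 p.x := by
  match p, h with
  | aff x y hh, h => exact h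
  | inf e hh, h => exact absurd h id

theorem ge_y (p : BPt F) (h : p.IsFin D) : D.ge 0 p.y := by
  refine D.ge_of_pow (n := 2) (by norm_num) ?_
  rw [p.y_sq D h]
  exact D.ge_add (D.ge_pow (p.ge_x D h) 6) D.ge_one

theorem xh_of_not_fin (p : BPt F) (h : ¬ p.IsFin D) : D.ge 1 p.xh := by
  match p, h with
  | aff x y hh, h =>
    obtain ⟨hx, hv⟩ := aff_ne_zero_of_not_fin D h
    right
    simp only [xh]
    rw [D.inv hx]
    omega
  | inf e hh, _ => exact Or.inl rfl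

theorem ge_xh6 (p : BPt F) (h : ¬ p.IsFin D) : D.ge 6 (p.xh ^ 6) := by
  rcases p.xh_of_not_fin D h with h0 | h0
  · left; rw [h0]; ring
  · by_cases hx : p.xh = 0
    · left; rw [hx]; ring
    · right
      rw [D.pow hx]
      push_cast
      omega

theorem yh_of_not_fin (p : BPt F) (h : ¬ p.IsFin D) : p.yh ≠ 0 ∧ D.v p.yh = 0 := by
  have hs := p.yh_sq D h
  have h6 := p.ge_xh6 D h
  have h1 := D.add_eq_left (x := (1 : F)) (y := p.xh ^ 6) one_ne_zero
    (by rw [D.one]; exact D.ge_mono (by norm_num) h6)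
  rw [add_comm (1 : F), ← hs, D.one] at h1
  have hy : p.yh ≠ 0 := by
    intro h0
    rw [h0] at h1
    exact h1.1 (by ring)
  exact ⟨hy, D.v_eq_zero_of_pow (n := 2) (by norm_num) hy h1.2⟩

/-- Near infinity the `y`-coordinate of the second chart is close to `1` or to `-1`. -/
theorem yh_near (p : BPt F) (h : ¬ p.IsFin D) :
    (D.ge 6 (p.yh - 1) ∧ p.yh + 1 ≠ 0 ∧ D.v (p.yh + 1) = 0) ∨
      (D.ge 6 (p.yh + 1) ∧ p.yh - 1 ≠ 0 ∧ D.v (p.yh - 1) = 0) := by
  have : CharZero F := charZero_of_injective_algebraMap (algebraMap k F).injective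
  have hs := p.yh_sq D h
  have h6 := p.ge_xh6 D h
  obtain ⟨-, hv⟩ := p.yh_of_not_fin D h
  have hge : D.ge 0 (p.yh - 1) := D.ge_sub (Or.inr hv.ge) D.ge_one
  by_cases h1 : D.ge 1 (p.yh - 1)
  · left
    have h2 := D.add_eq_left (x := (2 : F)) (y := p.yh - 1) two_ne_zero
      (by rw [D.ofNat]; exact h1)
    have e : (2 : F) + (p.yh - 1) = p.yh + 1 := by ring
    rw [e, D.ofNat] at h2
    refine ⟨?_, h2.1, h2.2⟩
    refine D.ge_of_unit_mul h2.1 h2.2 ?_
    have e2 : (p.yh + 1) * (p.yh - 1) = p.xh ^ 6 := by linear_combination hs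
    rw [e2]
    exact h6
  · right
    obtain ⟨h2, h3⟩ := D.unit_of_ge hge h1
    refine ⟨?_, h2, h3⟩
    refine D.ge_of_unit_mul h2 h3 ?_
    have e2 : (p.yh - 1) * (p.yh + 1) = p.xh ^ 6 := by linear_combination hs
    rw [e2]
    exact h6

theorem coord_ne_fin {p q : BPt F} (hpq : p ≠ q) (hp : p.IsFin D) (hq : q.IsFin D) :
    p.x - q.x ≠ 0 ∨ p.y - q.y ≠ 0 := by
  match p, q, hpq, hp, hq with
  | aff x y hh, aff x' y' hh', hpq, _, _ =>
    by_contra hc
    rw [not_or, not_not, not_not, sub_eq_zero, sub_eq_zero] at hc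
    simp only [BPt.x, BPt.y] at hc
    obtain ⟨rfl, rfl⟩ := hc
    exact hpq rfl
  | inf e hh, _, _, hp, _ => exact absurd hp id
  | aff _ _ _, inf e hh, _, _, hq => exact absurd hq id

theorem coord_ne_inf {p q : BPt F} (hpq : p ≠ q) (hp : ¬ p.IsFin D) (hq : ¬ q.IsFin D) :
    p.xh - q.xh ≠ 0 ∨ p.yh - q.yh ≠ 0 := by
  by_contra hc
  rw [not_or, not_not, not_not, sub_eq_zero, sub_eq_zero] at hc
  match p, q, hpq, hp, hq, hc with
  | aff x y hh, aff x' y' hh', hpq, hp, hq, hc =>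
    obtain ⟨hx, -⟩ := aff_ne_zero_of_not_fin D hp
    obtain ⟨hx', -⟩ := aff_ne_zero_of_not_fin D hq
    simp only [xh, yh] at hc
    obtain ⟨h1, h2⟩ := hc
    have e1 : x = x' := inv_injective h1
    subst e1
    have e2 : y = y' := by
      have h3 : y / x ^ 3 * x ^ 3 = y' / x ^ 3 * x ^ 3 := by rw [h2]
      rw [div_mul_cancel₀ _ (pow_ne_zero 3 hx), div_mul_cancel₀ _ (pow_ne_zero 3 hx)] at h3
      exact h3
    subst e2
    exact hpq rfl
  | aff x y hh, inf e' hh', hpq, hp, _, hc =>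
    obtain ⟨hx, -⟩ := aff_ne_zero_of_not_fin D hp
    simp only [xh, yh] at hc
    exact inv_ne_zero hx hc.1
  | inf e hh, aff x' y' hh', _, _, hq, hc =>
    obtain ⟨hx', -⟩ := aff_ne_zero_of_not_fin D hq
    simp only [xh, yh] at hc
    exact inv_ne_zero hx' hc.1.symm
  | inf e hh, inf e' hh', hpq, _, _, hc =>
    simp only [xh, yh] at hc
    obtain ⟨-, rfl⟩ := hc
    exact hpq rfl

theorem isFin_iot (p : BPt F) : p.iot.IsFin D ↔ p.IsFin D := by
  match p with
  | aff x y hh => exact Iff.rfl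
  | inf e hh => exact Iff.rfl

theorem isFin_sig (p : BPt F) : p.sig.IsFin D ↔ p.IsFin D := by
  match p with
  | aff x y hh =>
    simp only [sig, IsFin]
    exact ⟨fun h => by simpa using D.ge_neg h, fun h => D.ge_neg h⟩
  | inf e hh => exact Iff.rfl

theorem iot_coord (p : BPt F) :
    p.iot.x = p.x ∧ p.iot.y = -p.y ∧ p.iot.xh = p.xh ∧ p.iot.yh = -p.yh := by
  match p with
  | aff x y hh =>
    simp only [iot, BPt.x, BPt.y, xh, yh]
    exact ⟨trivial, trivial, trivial, by ring⟩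
  | inf e hh =>
    simp only [iot, BPt.x, BPt.y, xh, yh]
    exact ⟨trivial, by ring, trivial, trivial⟩

theorem sig_coord (p : BPt F) :
    p.sig.x = -p.x ∧ p.sig.y = p.y ∧ p.sig.xh = -p.xh ∧ p.sig.yh = -p.yh := by
  match p with
  | aff x y hh =>
    simp only [sig, BPt.x, BPt.y, xh, yh]
    refine ⟨trivial, trivial, by rw [inv_neg], ?_⟩
    have e : (-x) ^ 3 = -(x ^ 3) := by ring
    rw [e, div_neg]
  | inf e hh =>
    simp only [sig, BPt.x, BPt.y, xh, yh]
    exact ⟨by ring, trivial, by ring, trivial⟩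

theorem zeta_unit {z : F} (hz : z ^ 2 + z + 1 = 0) : z ≠ 0 ∧ D.v z = 0 ∧ z ^ 3 = 1 := by
  have h3 : z ^ 3 = 1 := by linear_combination (z - 1) * hz
  have h0 : z ≠ 0 := by
    rintro rfl
    norm_num at h3
  exact ⟨h0, D.v_eq_zero_of_pow (n := 3) (by norm_num) h0 (by rw [h3, D.one]), h3⟩

theorem isFin_alp (p : BPt F) (z : F) (hz : z ^ 2 + z + 1 = 0) :
    (p.alp z hz).IsFin D ↔ p.IsFin D := by
  obtain ⟨h0, hv, -⟩ := zeta_unit D hz
  match p with
  | aff x y hh =>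
    simp only [alp, IsFin]
    exact ⟨fun h => D.ge_of_unit_mul h0 hv h, fun h => by
      simpa using D.ge_mul (m := 0) (n := 0) (Or.inr hv.ge) h⟩
  | inf e hh => exact Iff.rfl

theorem alp_coord (p : BPt F) (z : F) (hz : z ^ 2 + z + 1 = 0) :
    (p.alp z hz).x = z * p.x ∧ (p.alp z hz).y = -p.y ∧ (p.alp z hz).xh = z⁻¹ * p.xh ∧
      (p.alp z hz).yh = -p.yh := by
  have h3 : z ^ 3 = 1 := by linear_combination (z - 1) * hz
  match p with
  | aff x y hh =>
    simp only [alp, BPt.x, BPt.y, xh, yh]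
    refine ⟨trivial, trivial, by rw [mul_inv], ?_⟩
    rw [mul_pow, h3, one_mul, neg_div]
  | inf e hh =>
    simp only [alp, BPt.x, BPt.y, xh, yh]
    exact ⟨by ring, by ring, by ring, trivial⟩

theorem swap_aff_zero {x y : F} (h : y ^ 2 = x ^ 6 + 1) (hx : x = 0) :
    (aff x y h).swap = inf y (by rw [h, hx]; ring) := by
  simp only [swap, dif_pos hx]

theorem swap_aff_ne {x y : F} (h : y ^ 2 = x ^ 6 + 1) (hx : x ≠ 0) :
    (aff x y h).swap = aff x⁻¹ (y / x ^ 3) (by field_simp; rw [h]; ring) := by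
  simp only [swap, dif_neg hx]

theorem swap_swap' (p : BPt F) : p.swap.swap = p := by
  match p with
  | aff x y h =>
    by_cases hx : x = 0
    · subst hx
      rw [swap_aff_zero h rfl]
      rfl
    · rw [swap_aff_ne h hx, swap_aff_ne _ (inv_ne_zero hx)]
      have e1 : (x⁻¹)⁻¹ = x := inv_inv x
      have e2 : y / x ^ 3 / (x⁻¹) ^ 3 = y := by field_simp
      simp only [e1, e2]
  | inf e h =>
    change (aff 0 e _).swap = _
    rw [swap_aff_zero _ rfl]

theorem swap_inj {p q : BPt F} (h : p ≠ q) : p.swap ≠ q.swap := by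
  intro hc
  apply h
  rw [← p.swap_swap', ← q.swap_swap', hc]

theorem swap_isFin (p : BPt F) : p.swap.IsFin D ↔ ¬ (p.IsFin D ∧ D.ge 1 p.x) := by
  match p with
  | aff x y h =>
    by_cases hx : x = 0
    · rw [swap_aff_zero h hx]
      refine ⟨fun hc => absurd hc id, fun hc => absurd ⟨Or.inl hx, Or.inl hx⟩ hc⟩
    · rw [swap_aff_ne h hx]
      constructor
      · intro hc hd
        have h1 : 0 ≤ D.v x⁻¹ := D.le_of_ge (inv_ne_zero hx) hc
        have h2 : 1 ≤ D.v x := D.le_of_ge hx hd.2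
        rw [D.inv hx] at h1
        omega
      · intro hc
        refine Or.inr ?_
        rw [D.inv hx]
        by_contra hd
        exact hc ⟨Or.inr (by omega), Or.inr (by simp only [BPt.x]; omega)⟩
  | inf e h =>
    exact ⟨fun _ hd => absurd hd.1 id, fun _ => Or.inl rfl⟩

theorem swap_coord_of_not_fin (p : BPt F) (h : ¬ p.IsFin D) :
    p.swap.x = p.xh ∧ p.swap.y = p.yh := by
  match p, h with
  | aff x y hh, h =>
    obtain ⟨hx, -⟩ := aff_ne_zero_of_not_fin D h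
    rw [swap_aff_ne hh hx]
    exact ⟨rfl, rfl⟩
  | inf e hh, _ => exact ⟨rfl, rfl⟩

theorem swap_fin_of_not_fin (p : BPt F) (h : ¬ p.IsFin D) : p.swap.IsFin D :=
  (p.swap_isFin D).mpr (fun hc => h hc.1)

/-- If `p` and `swap p` are both in the finite chart, `x` is a unit. -/
theorem unit_of_swap_fin (p : BPt F) (h : p.IsFin D) (h' : p.swap.IsFin D) :
    p.x ≠ 0 ∧ D.v p.x = 0 := by
  rw [p.swap_isFin D] at h'
  exact D.unit_of_ge (p.ge_x D h) (fun hc => h' ⟨h, hc⟩)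

theorem swap_coord_of_ne (p : BPt F) (h : p.IsFin D) (hx : p.x ≠ 0) :
    p.swap.x = p.x⁻¹ ∧ p.swap.y = p.y / p.x ^ 3 := by
  match p, h, hx with
  | aff x y hh, h, hx =>
    rw [swap_aff_ne hh hx]
    exact ⟨rfl, rfl⟩
  | inf e hh, h, _ => exact absurd h id

end BPt

theorem DV.iB_fin {p q : BPt F} (hp : p.IsFin D) (hq : q.IsFin D) :
    D.iB p q = D.dmin (p.x - q.x) (p.y - q.y) := by
  unfold DV.iB
  rw [if_pos ⟨hp, hq⟩]

theorem DV.iB_inf {p q : BPt F} (hp : ¬ p.IsFin D) (hq : ¬ q.IsFin D) :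
    D.iB p q = D.dmin (p.xh - q.xh) (p.yh - q.yh) := by
  unfold DV.iB
  rw [if_neg (fun hc => hp hc.1), if_pos ⟨hp, hq⟩]

theorem DV.iB_mix1 {p q : BPt F} (hp : p.IsFin D) (hq : ¬ q.IsFin D) : D.iB p q = 0 := by
  unfold DV.iB
  rw [if_neg (fun hc => hq hc.2), if_neg (fun hc => hc.1 hp)]

theorem DV.iB_mix2 {p q : BPt F} (hp : ¬ p.IsFin D) (hq : q.IsFin D) : D.iB p q = 0 := by
  unfold DV.iB
  rw [if_neg (fun hc => hp hc.1), if_neg (fun hc => hc.2 hq)]

theorem DV.iB_comm (p q : BPt F) : D.iB p q = D.iB q p := by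
  by_cases hp : p.IsFin D
  · by_cases hq : q.IsFin D
    · rw [D.iB_fin hp hq, D.iB_fin hq hp, ← neg_sub q.x, ← neg_sub q.y, D.dmin_neg_left,
        D.dmin_neg_right]
    · rw [D.iB_mix1 hp hq, D.iB_mix2 hq hp]
  · by_cases hq : q.IsFin D
    · rw [D.iB_mix2 hp hq, D.iB_mix1 hq hp]
    · rw [D.iB_inf hp hq, D.iB_inf hq hp, ← neg_sub q.xh, ← neg_sub q.yh, D.dmin_neg_left,
        D.dmin_neg_right]

theorem DV.iB_nonneg {p q : BPt F} (h : p ≠ q) : 0 ≤ D.iB p q := by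
  by_cases hp : p.IsFin D
  · by_cases hq : q.IsFin D
    · rw [D.iB_fin hp hq, D.le_dmin (BPt.coord_ne_fin D h hp hq)]
      exact ⟨D.ge_sub (p.ge_x D hp) (q.ge_x D hq), D.ge_sub (p.ge_y D hp) (q.ge_y D hq)⟩
    · rw [D.iB_mix1 hp hq]
  · by_cases hq : q.IsFin D
    · rw [D.iB_mix2 hp hq]
    · rw [D.iB_inf hp hq, D.le_dmin (BPt.coord_ne_inf D h hp hq)]
      exact ⟨D.ge_sub (D.ge_mono (by norm_num) (p.xh_of_not_fin D hp))
        (D.ge_mono (by norm_num) (q.xh_of_not_fin D hq)),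
        D.ge_sub (Or.inr (p.yh_of_not_fin D hp).2.ge) (Or.inr (q.yh_of_not_fin D hq).2.ge)⟩

theorem DV.iB_ultra {p q r : BPt F} (h1 : p ≠ q) (h2 : q ≠ r) (h3 : p ≠ r) :
    min (D.iB p q) (D.iB q r) ≤ D.iB p r := by
  by_cases hp : p.IsFin D
  · by_cases hr : r.IsFin D
    · by_cases hq : q.IsFin D
      · rw [D.iB_fin hp hr, D.le_dmin (BPt.coord_ne_fin D h3 hp hr)]
        have a1 : min (D.iB p q) (D.iB q r) ≤ D.iB p q := min_le_left _ _
        have a2 : min (D.iB p q) (D.iB q r) ≤ D.iB q r := min_le_right _ _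
        generalize min (D.iB p q) (D.iB q r) = m at a1 a2 ⊢
        rw [D.iB_fin hp hq, D.le_dmin (BPt.coord_ne_fin D h1 hp hq)] at a1
        rw [D.iB_fin hq hr, D.le_dmin (BPt.coord_ne_fin D h2 hq hr)] at a2
        constructor
        · have := D.ge_add a1.1 a2.1
          rwa [sub_add_sub_cancel] at this
        · have := D.ge_add a1.2 a2.2
          rwa [sub_add_sub_cancel] at this
      · rw [D.iB_mix1 hp hq, D.iB_mix2 hq hr]
        simpa using D.iB_nonneg h3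
    · rw [D.iB_mix1 hp hr]
      by_cases hq : q.IsFin D
      · rw [D.iB_mix1 hq hr]
        exact min_le_right _ _
      · rw [D.iB_mix1 hp hq]
        exact min_le_left _ _
  · by_cases hr : r.IsFin D
    · rw [D.iB_mix2 hp hr]
      by_cases hq : q.IsFin D
      · rw [D.iB_mix2 hp hq]
        exact min_le_left _ _
      · rw [D.iB_mix2 hq hr]
        exact min_le_right _ _
    · by_cases hq : q.IsFin D
      · rw [D.iB_mix2 hp hq, D.iB_mix1 hq hr]
        simpa using D.iB_nonneg h3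
      · rw [D.iB_inf hp hr, D.le_dmin (BPt.coord_ne_inf D h3 hp hr)]
        have a1 : min (D.iB p q) (D.iB q r) ≤ D.iB p q := min_le_left _ _
        have a2 : min (D.iB p q) (D.iB q r) ≤ D.iB q r := min_le_right _ _
        generalize min (D.iB p q) (D.iB q r) = m at a1 a2 ⊢
        rw [D.iB_inf hp hq, D.le_dmin (BPt.coord_ne_inf D h1 hp hq)] at a1
        rw [D.iB_inf hq hr, D.le_dmin (BPt.coord_ne_inf D h2 hq hr)] at a2
        constructor
        · have := D.ge_add a1.1 a2.1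
          rwa [sub_add_sub_cancel] at this
        · have := D.ge_add a1.2 a2.2
          rwa [sub_add_sub_cancel] at this

theorem DV.iB_iot {p q : BPt F} : D.iB p.iot q.iot = D.iB p q := by
  obtain ⟨a1, a2, a3, a4⟩ := p.iot_coord
  obtain ⟨b1, b2, b3, b4⟩ := q.iot_coord
  unfold DV.iB
  rw [BPt.isFin_iot, BPt.isFin_iot, a1, a2, a3, a4, b1, b2, b3, b4]
  have e1 : -p.y - -q.y = -(p.y - q.y) := by ring
  have e2 : -p.yh - -q.yh = -(p.yh - q.yh) := by ring
  rw [e1, e2, D.dmin_neg_right, D.dmin_neg_right]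

theorem DV.iB_sig {p q : BPt F} : D.iB p.sig q.sig = D.iB p q := by
  obtain ⟨a1, a2, a3, a4⟩ := p.sig_coord
  obtain ⟨b1, b2, b3, b4⟩ := q.sig_coord
  unfold DV.iB
  rw [BPt.isFin_sig, BPt.isFin_sig, a1, a2, a3, a4, b1, b2, b3, b4]
  have e0 : -p.x - -q.x = -(p.x - q.x) := by ring
  have e1 : -p.xh - -q.xh = -(p.xh - q.xh) := by ring
  have e2 : -p.yh - -q.yh = -(p.yh - q.yh) := by ring
  rw [e0, e1, e2, D.dmin_neg_right, D.dmin_neg_left, D.dmin_neg_left]

theorem DV.iB_alp {p q : BPt F} (z : F) (hz : z ^ 2 + z + 1 = 0) :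
    D.iB (p.alp z hz) (q.alp z hz) = D.iB p q := by
  obtain ⟨hz0, hzv, -⟩ := BPt.zeta_unit D hz
  obtain ⟨a1, a2, a3, a4⟩ := p.alp_coord z hz
  obtain ⟨b1, b2, b3, b4⟩ := q.alp_coord z hz
  unfold DV.iB
  rw [BPt.isFin_alp, BPt.isFin_alp, a1, a2, a3, a4, b1, b2, b3, b4]
  have e0 : z * p.x - z * q.x = z * (p.x - q.x) := by ring
  have e1 : z⁻¹ * p.xh - z⁻¹ * q.xh = z⁻¹ * (p.xh - q.xh) := by ring
  have e2 : -p.yh - -q.yh = -(p.yh - q.yh) := by ring
  have e3 : -p.y - -q.y = -(p.y - q.y) := by ring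
  rw [e0, e1, e2, e3, D.dmin_neg_right, D.dmin_neg_right, D.dmin_mul_left hz0 hzv,
    D.dmin_mul_left (inv_ne_zero hz0) (by rw [D.inv hz0, hzv, neg_zero])]

/-- The multiplicity is `0` if `x` is a unit at `p` and vanishes at `q`. -/
theorem DV.iB_unit {p q : BPt F} (hp : p.IsFin D) (hq : q.IsFin D) (hx : p.x ≠ 0)
    (hv : D.v p.x = 0) (h1 : D.ge 1 q.x) : D.iB p q = 0 := by
  have h2 := D.add_eq_left (x := p.x) (y := -q.x) hx
    (by rw [hv, zero_add]; exact D.ge_neg h1)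
  rw [← sub_eq_add_neg, hv] at h2
  rw [D.iB_fin hp hq]
  exact D.dmin_eq_zero h2.1 h2.2 (D.ge_sub (p.ge_y D hp) (q.ge_y D hq))

theorem DV.swap_ge {p q : BPt F} (hp : p.IsFin D) (hq : q.IsFin D) (hp' : p.swap.IsFin D)
    (hq' : q.swap.IsFin D) (n : ℤ) (h : D.ge n (p.x - q.x) ∧ D.ge n (p.y - q.y)) :
    D.ge n (p.swap.x - q.swap.x) ∧ D.ge n (p.swap.y - q.swap.y) := by
  obtain ⟨hx, hv⟩ := p.unit_of_swap_fin D hp hp'
  obtain ⟨hx', hv'⟩ := q.unit_of_swap_fin D hq hq'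
  obtain ⟨a1, a2⟩ := p.swap_coord_of_ne D hp hx
  obtain ⟨b1, b2⟩ := q.swap_coord_of_ne D hq hx'
  have g1 : D.ge 0 p.x⁻¹ := Or.inr (by rw [D.inv hx, hv, neg_zero])
  have g2 : D.ge 0 q.x⁻¹ := Or.inr (by rw [D.inv hx', hv', neg_zero])
  have h1 : D.ge n (p.swap.x - q.swap.x) := by
    rw [a1, b1]
    have e : p.x⁻¹ - q.x⁻¹ = (p.x - q.x) * (-(p.x⁻¹ * q.x⁻¹)) := by
      field_simp
      ring
    rw [e]
    have g3 : D.ge 0 (-(p.x⁻¹ * q.x⁻¹)) := D.ge_neg (by simpa using D.ge_mul g1 g2)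
    simpa using D.ge_mul h.1 g3
  refine ⟨h1, ?_⟩
  rw [a2, b2]
  have e : p.y / p.x ^ 3 - q.y / q.x ^ 3 = (p.y - q.y) * (p.x⁻¹) ^ 3 +
      (p.swap.x - q.swap.x) * (q.y * ((p.x⁻¹) ^ 2 + p.x⁻¹ * q.x⁻¹ + (q.x⁻¹) ^ 2)) := by
    rw [a1, b1]
    field_simp
    ring
  rw [e]
  have g4 : D.ge n ((p.y - q.y) * (p.x⁻¹) ^ 3) := by
    simpa using D.ge_mul h.2 (D.ge_pow g1 3)
  have g5 : D.ge 0 (q.y * ((p.x⁻¹) ^ 2 + p.x⁻¹ * q.x⁻¹ + (q.x⁻¹) ^ 2)) := by
    have g6 : D.ge 0 ((p.x⁻¹) ^ 2 + p.x⁻¹ * q.x⁻¹ + (q.x⁻¹) ^ 2) :=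
      D.ge_add (D.ge_add (D.ge_pow g1 2) (by simpa using D.ge_mul g1 g2)) (D.ge_pow g2 2)
    simpa using D.ge_mul (q.ge_y D hq) g6
  exact D.ge_add g4 (by simpa using D.ge_mul h1 g5)

theorem DV.iB_swap_inf {p q : BPt F} (hp : ¬ p.IsFin D) (hq : ¬ q.IsFin D) :
    D.iB p.swap q.swap = D.iB p q := by
  obtain ⟨a1, a2⟩ := p.swap_coord_of_not_fin D hp
  obtain ⟨b1, b2⟩ := q.swap_coord_of_not_fin D hq
  rw [D.iB_inf hp hq, D.iB_fin (p.swap_fin_of_not_fin D hp) (q.swap_fin_of_not_fin D hq),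
    a1, a2, b1, b2]

theorem DV.iB_swap_mix {p q : BPt F} (hp : p.IsFin D) (hq : ¬ q.IsFin D) :
    D.iB p.swap q.swap = D.iB p q := by
  rw [D.iB_mix1 hp hq]
  have hq' := q.swap_fin_of_not_fin D hq
  by_cases hp' : p.swap.IsFin D
  · have hs : p.swap.swap.IsFin D := by rw [p.swap_swap']; exact hp
    obtain ⟨hx, hv⟩ := p.swap.unit_of_swap_fin D hp' hs
    refine D.iB_unit hp' hq' hx hv ?_
    rw [(q.swap_coord_of_not_fin D hq).1]
    exact q.xh_of_not_fin D hq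
  · exact D.iB_mix2 hp' hq'

theorem DV.iB_swap {p q : BPt F} (h : p ≠ q) : D.iB p.swap q.swap = D.iB p q := by
  by_cases hp : p.IsFin D
  · by_cases hq : q.IsFin D
    · by_cases hp' : p.swap.IsFin D
      · by_cases hq' : q.swap.IsFin D
        · have h' := BPt.swap_inj h
          rw [D.iB_fin hp hq, D.iB_fin hp' hq']
          refine D.dmin_congr (BPt.coord_ne_fin D h' hp' hq') (BPt.coord_ne_fin D h hp hq)
            (fun n hn => ?_) (fun n hn => D.swap_ge hp hq hp' hq' n hn)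
          have := D.swap_ge hp' hq' (by rw [p.swap_swap']; exact hp)
            (by rw [q.swap_swap']; exact hq) n hn
          rwa [p.swap_swap', q.swap_swap'] at this
        · have := D.iB_swap_mix hp' hq'
          rw [p.swap_swap', q.swap_swap'] at this
          exact this.symm
      · by_cases hq' : q.swap.IsFin D
        · have := D.iB_swap_mix hq' hp'
          rw [p.swap_swap', q.swap_swap'] at this
          rw [D.iB_comm p.swap, D.iB_comm p]
          exact this.symm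
        · have := D.iB_swap_inf hp' hq'
          rw [p.swap_swap', q.swap_swap'] at this
          exact this.symm
    · exact D.iB_swap_mix hp hq
  · by_cases hq : q.IsFin D
    · rw [D.iB_comm p.swap, D.iB_comm p]
      exact D.iB_swap_mix hq hp
    · exact D.iB_swap_inf hp hq

theorem DV.iB_const {p q : BPt k} (h : p ≠ q) : D.iB (p.map F) (q.map F) = 0 := by
  match p, q, h with
  | .aff x y hh, .aff x' y' hh', _ =>
    rw [D.iB_fin (p := (BPt.aff x y hh).map F) (q := (BPt.aff x' y' hh').map F)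
      (D.ge_const x) (D.ge_const x')]
    simp only [BPt.map, BPt.x, BPt.y]
    rw [← map_sub, ← map_sub, D.dmin_algebraMap]
  | .aff x y hh, .inf e' hh', _ => exact D.iB_mix1 (D.ge_const x) id
  | .inf e hh, .aff x' y' hh', _ => exact D.iB_mix2 id (D.ge_const x')
  | .inf e hh, .inf e' hh', _ =>
    rw [D.iB_inf (p := (BPt.inf e hh).map F) (q := (BPt.inf e' hh').map F) id id]
    simp only [BPt.map, BPt.xh, BPt.yh]
    have e0 : (0 : F) - 0 = algebraMap k F 0 := by rw [map_zero, sub_zero]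
    rw [← map_sub, e0, D.dmin_algebraMap]

end HB
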