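import Pool.Agent.HB.Curve

/-!
# HB-B-Basic: first facts on valuations of points of `E` (complete)
-/

set_option autoImplicit false

namespace HB

variable {k F : Type} [Field k] [Field F] [Algebra k F] (D : DV k F)

namespace DV



/-- `v (x ^ 2)` etc. for arbitrary elements: `2 v = 3 w` if `y ^ 2 = x ^ 3 + 1` and `v x < 0`. -/
theorem v_pole {P : EPt F} (hP : P ≠ 0) (h : D.v (eX P) < 0) :
    eX P ≠ 0 ∧ eY P ≠ 0 ∧ 0 < D.iE P ∧ D.v (eX P) = -2 * D.iE P ∧ D.v (eY P) = -3 * D.iE P := by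
  have hX : eX P ≠ 0 := by
    intro h0; rw [h0, D.zero] at h; exact lt_irrefl _ h
  have hsq := eY_sq hP
  have h3 : D.v (eX P ^ 3) = 3 * D.v (eX P) := by rw [D.pow hX]; norm_num
  have h1 : eX P ^ 3 + 1 ≠ 0 ∧ D.v (eX P ^ 3 + 1) = D.v (eX P ^ 3) := by
    refine D.add_eq_left (pow_ne_zero _ hX) (Or.inr ?_)
    rw [D.one, h3]; omega
  rw [← hsq] at h1
  have hY : eY P ≠ 0 := by
    intro h0; rw [h0] at h1; exact h1.1 (by ring)
  have h2 : D.v (eY P ^ 2) = 2 * D.v (eY P) := by rw [D.pow hY]; norm_num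
  rw [h2, h3] at h1
  have h4 := h1.2
  unfold iE
  refine ⟨hX, hY, ?_, ?_, ?_⟩
  · rw [max_eq_right (by omega)]; omega
  · rw [max_eq_right (by omega)]; omega
  · rw [max_eq_right (by omega)]; omega

theorem iE_nonneg (P : EPt F) : 0 ≤ D.iE P := by
  unfold iE; omega

theorem iE_of_ge {P : EPt F} (h : D.ge 0 (eX P)) : D.iE P = 0 := by
  unfold iE
  rcases h with h | h
  · rw [h, D.zero]; rfl
  · rw [max_eq_left (by omega)]; rfl

theorem iE_pos_iff {P : EPt F} (hP : P ≠ 0) : 0 < D.iE P ↔ D.v (eX P) < 0 := by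
  constructor
  · intro h
    by_contra hc
    rw [not_lt] at hc
    rw [D.iE_of_ge (Or.inr hc)] at h
    exact lt_irrefl _ h
  · intro h; exact (D.v_pole hP h).2.2.1

theorem ge_or_pole {P : EPt F} : D.ge 0 (eX P) ∨ D.v (eX P) < 0 := by
  rcases le_or_gt 0 (D.v (eX P)) with h | h
  · exact Or.inl (Or.inr h)
  · exact Or.inr h

@[simp] theorem iE_neg (P : EPt F) : D.iE (-P) = D.iE P := by
  unfold iE; rw [eX_neg]

theorem iE_sub_comm (P Q : EPt F) : D.iE (P - Q) = D.iE (Q - P) := by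
  rw [← D.iE_neg, neg_sub]

/-- `x ^ n` integral implies `x` integral. -/
theorem ge_of_pow {x : F} {n : ℕ} (hn : n ≠ 0) (h : D.ge 0 (x ^ n)) : D.ge 0 x := by
  by_cases hx : x = 0
  · exact Or.inl hx
  · right
    have := D.le_of_ge (pow_ne_zero n hx) h
    rw [D.pow hx] at this
    by_contra hc
    rw [not_le] at hc
    have h1 : (0 : ℤ) < n := by exact_mod_cast Nat.pos_of_ne_zero hn
    nlinarith

theorem ge_eY {P : EPt F} (h : D.ge 0 (eX P)) : D.ge 0 (eY P) := by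
  by_cases hP : P = 0
  · subst hP; exact Or.inl rfl
  · refine D.ge_of_pow (n := 2) (by norm_num) ?_
    rw [eY_sq hP]
    exact D.ge_add (D.ge_pow h 3) D.ge_one

end DV

end HB
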