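import Pool.Agent.HB.Curve

/-!
# HB-B-Bridge: the multiplicity `HB.iB R` of `HB/Geo.lean` and `D.iB`

Let `R` be a subring of `L` and `D : DV k L` with `D.v f = ordS R f` for `f ≠ 0` and
`f ∈ R ↔ D.ge 0 f`.  Then `HB.iB R (x,y) (x',y') = D.iB (aff x y) (aff x' y')` if the points are
different.  Plan: unfold everything; `¬ IsFin` and `x ∉ R` agree; `1/x = x⁻¹`; `min` in
`WithTop ℤ` of `ordT`s = `dmin` (cases whether the differences are `0`; they are not both `0`: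
in the second chart `x ≠ 0` since `0 ∈ R`, so `1/x = 1/x'` and `y/x³ = y'/x'³` give `x = x'`, `y = y'`).
-/

set_option autoImplicit false

namespace HB

variable {k L : Type} [Field k] [Field L] [Algebra k L]

theorem ordT_min_eq_dmin (R : Subring L) (D : DV k L) (hv : ∀ f : L, f ≠ 0 → D.v f = ordS R f)
    {a b : L} (h : ¬ (a = 0 ∧ b = 0)) :
    min (ordT R a) (ordT R b) = ((D.dmin a b : ℤ) : WithTop ℤ) := by
  by_cases ha : a = 0
  · have hb : b ≠ 0 := fun hb => h ⟨ha, hb⟩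
    unfold ordT DV.dmin
    rw [if_pos ha, if_neg hb, if_pos ha, ← hv b hb]
    exact min_eq_right le_top
  · by_cases hb : b = 0
    · unfold ordT DV.dmin
      rw [if_neg ha, if_pos hb, if_neg ha, if_pos hb, ← hv a ha]
      exact min_eq_left le_top
    · unfold ordT DV.dmin
      rw [if_neg ha, if_neg hb, if_neg ha, if_neg hb, ← hv a ha, ← hv b hb]
      exact (WithTop.coe_min _ _).symm

theorem iB_bridge (R : Subring L) (D : DV k L) (hv : ∀ f : L, f ≠ 0 → D.v f = ordS R f)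
    (hR : ∀ f : L, f ∈ R ↔ D.ge 0 f) {x y x' y' : L} (h : y ^ 2 = x ^ 6 + 1)
    (h' : y' ^ 2 = x' ^ 6 + 1) (hne : ¬ (x = x' ∧ y = y')) :
    iB R (x, y) (x', y') = ((D.iB (.aff x y h) (.aff x' y' h') : ℤ) : WithTop ℤ) := by
  unfold iB DV.iB
  have e1 : BPt.IsFin D (.aff x y h) ↔ x ∈ R := (hR x).symm
  have e2 : BPt.IsFin D (.aff x' y' h') ↔ x' ∈ R := (hR x').symm
  by_cases c1 : x ∈ R ∧ x' ∈ R
  · have d1 : BPt.IsFin D (.aff x y h) ∧ BPt.IsFin D (.aff x' y' h') := ⟨e1.2 c1.1, e2.2 c1.2⟩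
    rw [if_pos c1, if_pos d1]
    refine ordT_min_eq_dmin R D hv (fun hh => hne ⟨?_, ?_⟩)
    · exact sub_eq_zero.mp hh.1
    · exact sub_eq_zero.mp hh.2
  · have d1 : ¬ (BPt.IsFin D (.aff x y h) ∧ BPt.IsFin D (.aff x' y' h')) :=
      fun hh => c1 ⟨e1.1 hh.1, e2.1 hh.2⟩
    rw [if_neg c1, if_neg d1]
    by_cases c2 : x ∉ R ∧ x' ∉ R
    · have d2 : ¬ BPt.IsFin D (.aff x y h) ∧ ¬ BPt.IsFin D (.aff x' y' h') :=
        ⟨fun hh => c2.1 (e1.1 hh), fun hh => c2.2 (e2.1 hh)⟩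
      rw [if_pos c2, if_pos d2]
      have hx : x ≠ 0 := fun h0 => c2.1 (h0 ▸ R.zero_mem)
      simp only [one_div]
      refine ordT_min_eq_dmin R D hv (fun hh => ?_)
      have h1 : x⁻¹ = x'⁻¹ := sub_eq_zero.mp hh.1
      have h2 : y / x ^ 3 = y' / x' ^ 3 := sub_eq_zero.mp hh.2
      have h3 : x = x' := inv_injective h1
      subst h3
      refine hne ⟨rfl, ?_⟩
      exact (div_left_inj' (pow_ne_zero 3 hx)).mp h2
    · have d2 : ¬ (¬ BPt.IsFin D (.aff x y h) ∧ ¬ BPt.IsFin D (.aff x' y' h')) :=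
        fun hh => c2 ⟨fun h1 => hh.1 (e1.2 h1), fun h1 => hh.2 (e2.2 h1)⟩
      rw [if_neg c2, if_neg d2]
      rfl

end HB
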