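import Pool.Agent.HB.B.Triple

/-!
# HB-B-EIn: points of `E` over a relatively algebraically closed subfield `A` of `F`

`EIn A s`: `s = 0` or `eX s ∈ A` (then `eY s ∈ A`, since `Y² = X³ + 1`).
It is a subgroup, and `2 s ∈ E(A)` or `3 s ∈ E(A)` implies `s ∈ E(A)`.

Plan.  `eIn_Y`: `Y` is a root of `T² - (X³+1)`, integral over `A`.
`eIn_add`: `P = 0`, `Q = 0` clear; `X_P ≠ X_Q`: `addE`; `X_P = X_Q` (`eX_eq_iff`): `P = -Q` (sum `0`) or
`P = Q`: `Y = 0` gives `2P = 0`, otherwise `doubleE`.
`eIn_of_two`: `s = 0` or `eY s = 0` (`X³ = -1` integral) or `eX_two`: with `c = eX (2s) ∈ A`, `X` is a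
root of the monic polynomial `T⁴ - 8T - 4c(T³+1)`.
`eIn_of_three`: `3s = 0`: `3X⁴ + 12X = 0` (`three_eq_zero_iff`); otherwise `c = eX (3s) ∈ A` and `X` is a
root of `T⁹ - 96T⁶ + 48T³ + 64 - c (3T⁴+12T)²` (monic of degree 9).  To show integrality use
`IsIntegral` via an explicit monic polynomial over `A`, or `isAlgebraic` (`A` a field:
`IsAlgebraic ↔ IsIntegral`) with a nonzero polynomial.
-/

set_option autoImplicit false

namespace HB

variable {F : Type} [Field F] [CharZero F]

/-- Points with coordinates in the subfield `A`. -/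
def EIn (A : Subfield F) (s : EPt F) : Prop := s = 0 ∨ eX s ∈ A

variable {A : Subfield F} (hA : ∀ z : F, IsIntegral A z → z ∈ A)

include hA in
omit [CharZero F] in
private theorem mem_of_pow {z : F} {n : ℕ} (hn : 0 < n) (h : z ^ n ∈ A) : z ∈ A := by
  apply hA
  have h1 : IsIntegral A (z ^ n) := isIntegral_algebraMap (R := A) (A := F) (x := ⟨z ^ n, h⟩)
  exact IsIntegral.of_pow hn h1

include hA in
omit [CharZero F] in
private theorem mem_of_aeval {z : F} (q : Polynomial A) (hq : 0 < q.natDegree)
    (h : Polynomial.aeval z q = 0) : z ∈ A := by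
  apply hA
  rw [← isAlgebraic_iff_isIntegral]
  refine ⟨q, ?_, h⟩
  rintro rfl
  simp at hq

include hA in
theorem eIn_Y {s : EPt F} (h : EIn A s) : eY s ∈ A := by
  by_cases hs : s = 0
  · rw [hs, eY_zero]
    exact A.zero_mem
  · have hX := h.resolve_left hs
    refine mem_of_pow hA (n := 2) (by norm_num) ?_
    rw [eY_sq hs]
    exact A.add_mem (pow_mem hX 3) A.one_mem

theorem eIn_neg {s : EPt F} (h : EIn A s) : EIn A (-s) := by
  rcases h with h | h
  · left; rw [h, neg_zero]
  · right; rwa [eX_neg]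

include hA in
theorem eIn_add {s t : EPt F} (h : EIn A s) (h' : EIn A t) : EIn A (s + t) := by
  by_cases hs : s = 0
  · rw [hs, zero_add]
    exact h'
  by_cases ht : t = 0
  · rw [ht, add_zero]
    exact h
  have hX := h.resolve_left hs
  have hX' := h'.resolve_left ht
  have hY := eIn_Y hA h
  have hY' := eIn_Y hA h'
  by_cases hx : eX s = eX t
  · rcases (eX_eq_iff hs ht).1 hx with h1 | h1
    · rw [← h1]
      by_cases h0 : eY s = 0
      · left
        have h2 : s = -s := ptE_ext hs (neg_ne_zeroE hs) (by rw [eX_neg]) (by rw [eY_neg, h0, neg_zero])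
        calc s + s = s + -s := by rw [← h2]
          _ = 0 := add_neg_cancel s
      · right
        rw [(doubleE hs h0).2.1]
        have h2 : (2 : F) ∈ A := ofNat_mem A 2
        have h3 : (3 : F) ∈ A := ofNat_mem A 3
        exact A.sub_mem (pow_mem (A.div_mem (A.mul_mem h3 (pow_mem hX 2)) (A.mul_mem h2 hY)) 2)
          (A.mul_mem h2 hX)
    · left
      rw [h1, neg_add_cancel]
  · right
    rw [(addE hs ht hx).2.1]
    exact A.sub_mem (A.sub_mem (pow_mem (A.div_mem (A.sub_mem hY hY') (A.sub_mem hX hX')) 2) hX) hX'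

include hA in
theorem eIn_smul {s : EPt F} (h : EIn A s) (n : ℤ) : EIn A (n • s) := by
  induction n using Int.induction_on with
  | zero => left; rw [zero_smul]
  | succ n ih =>
    rw [add_smul, one_smul]
    exact eIn_add hA ih h
  | pred n ih =>
    rw [sub_smul, one_smul, sub_eq_add_neg]
    exact eIn_add hA ih (eIn_neg h)

include hA in
theorem eIn_of_two {s : EPt F} (h : EIn A ((2 : ℤ) • s)) : EIn A s := by
  by_cases hs : s = 0
  · exact Or.inl hs
  right
  by_cases hY : eY s = 0
  · refine mem_of_pow hA (n := 3) (by norm_num) ?_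
    have h1 := eY_sq hs
    rw [hY] at h1
    have h2 : eX s ^ 3 = -1 := by linear_combination -h1
    rw [h2]
    exact A.neg_mem A.one_mem
  · have h2 : (2 : ℤ) • s ≠ 0 := fun h0 => hY ((two_eq_zero_iff hs).1 h0)
    have hc := h.resolve_left h2
    have h3 := eX_two hs hY
    let c : A := ⟨eX ((2 : ℤ) • s), hc⟩
    have hcc : algebraMap A F c = eX ((2 : ℤ) • s) := rfl
    let q : Polynomial A := Polynomial.X ^ 4 - 8 * Polynomial.X -
      Polynomial.C c * (4 * (Polynomial.X ^ 3 + 1))
    have hq : q.natDegree = 4 := by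
      unfold q
      compute_degree!
    refine mem_of_aeval hA q (by omega) ?_
    simp only [q, map_sub, map_mul, map_pow, map_add, map_one, Polynomial.aeval_X,
      Polynomial.aeval_C, hcc, map_ofNat]
    linear_combination -h3

include hA in
theorem eIn_of_three {s : EPt F} (h : EIn A ((3 : ℤ) • s)) : EIn A s := by
  by_cases hs : s = 0
  · exact Or.inl hs
  right
  by_cases h0 : (3 : ℤ) • s = 0
  · have h1 := (three_eq_zero_iff hs).1 h0
    have h2 : eX s * (eX s ^ 3 + 4) = 0 := by linear_combination h1 / 3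
    rcases mul_eq_zero.1 h2 with h3 | h3
    · rw [h3]
      exact A.zero_mem
    · refine mem_of_pow hA (n := 3) (by norm_num) ?_
      rw [eq_neg_of_add_eq_zero_left h3]
      exact A.neg_mem (ofNat_mem A 4)
  · have hc := h.resolve_left h0
    have h3 := eX_three hs h0
    let c : A := ⟨eX ((3 : ℤ) • s), hc⟩
    have hcc : algebraMap A F c = eX ((3 : ℤ) • s) := rfl
    let q : Polynomial A := Polynomial.X ^ 9 - 96 * Polynomial.X ^ 6 + 48 * Polynomial.X ^ 3 + 64 -
      Polynomial.C c * (3 * Polynomial.X ^ 4 + 12 * Polynomial.X) ^ 2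
    have hq : q.natDegree = 9 := by
      unfold q
      compute_degree!
    refine mem_of_aeval hA q (by omega) ?_
    simp only [q, map_sub, map_mul, map_pow, map_add, Polynomial.aeval_X,
      Polynomial.aeval_C, hcc, map_ofNat]
    linear_combination -h3

end HB
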