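import Pool.Agent.HB.B.Basic

/-!
# HB-B-EInf (I1, both points near the origin): `i(P - Q) = v (t_P - t_Q)`, `t = X / Y`

Notation: `t = X/Y`, `w = 1/Y`, so `X = t/w`, `w = t³ + w³`; `r := w / t³` (`= Y²/X³`),
`r = 1 + w³/t³ = 1 + r³ t⁶`, `v r = 0`, `D.ge (6 m) (r - 1)` where `m = iE P` (`v t = m`, `v w = 3 m`);
put `n = iE Q`.  `X = 1 / (t² r)`, `Y = 1 / (t³ r)`.
`subE`/`addE`: `X(P∓Q) = N_∓ / (X_P - X_Q)²`, `N_∓ = 2 ± 2 Y_P Y_Q + X_P X_Q (X_P + X_Q)`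
(`N_-` belongs to `P - Q`, with `+ 2 Y_P Y_Q`).  Product formula:
`N_- N_+ = ((X_P X_Q)² - 4 (X_P + X_Q)) (X_P - X_Q)²`, so
(*) `X(P-Q) X(P+Q) = ((X_P X_Q)² - 4 (X_P + X_Q)) / (X_P - X_Q)²`.

Case `X_P = X_Q`, i.e. `Q = -P`: `P - Q = 2P`, `t_P - t_Q = 2 t_P`, `v = m`; `doubleE`:
`X(2P) = (X⁴ - 8 X)/(4 Y²)` has `v = -8m + 6m = -2m`, `iE = m`.

Case `m ≠ n`, say `m < n` (symmetric): `v (t_P - t_Q) = m`.  `v (X_P - X_Q) = -2n`,
`v N_- = -2m - 4n` (`X_P X_Q (X_P + X_Q)` dominates), so `v X(P-Q) = -2m`.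

Case `m = n`.
(a) `v (X_P - X_Q) = v (t_P - t_Q) + v (t_P + t_Q) - 4 m`:  `X_P - X_Q =
   (t_Q² r_Q - t_P² r_P)/(t_P² t_Q² r_P r_Q)`, and `t_Q² r_Q - t_P² r_P = (t_Q² - t_P²) r_Q +
   t_P² (r_Q - r_P)` with `D.ge (v (t_P² - t_Q²) + 4m) (r_P - r_Q)`:
   `(r_P - r_Q)(1 - t_P⁶ (r_P² + r_P r_Q + r_Q²)) = r_Q³ (t_P⁶ - t_Q⁶)`.
(b) `N_- = (t_P t_Q)⁻⁴ (r_P r_Q)⁻² * B_-`, `B_- = 2 t_P⁴ t_Q⁴ r_P² r_Q² + 2 t_P t_Q r_P r_Q
   + t_Q² r_Q + t_P² r_P`, `B_- = (t_P + t_Q)² + (valuation ≥ 8m)`.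
   If `v (t_P + t_Q) = m` then `v B_- = 2m` (as `m > 0`: `8m > 2m`), `v N_- = -6m`, and by (a)
   `v X(P-Q) = -6m - 2 (v(t_P - t_Q) + m - 4m) = -2 v (t_P - t_Q)`.
(c) If `v (t_P + t_Q) > m` then `v (t_P - t_Q) = m` (difference is `2 t_Q`), and (b) for `-Q`
   gives `v X(P+Q) = -2 v (t_P + t_Q)`; (*) and (a) (`v ((X_P X_Q)² - 4 (X_P+X_Q)) = -8m`) give
   `v X(P-Q) = -8m - 2 (v (t_P + t_Q) + m - 4m) + 2 v (t_P + t_Q) = -2m`.
In all cases `iE (P - Q) = max 0 (2 v (t_P - t_Q)) / 2 = v (t_P - t_Q)`.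
(`t_P = t_Q` is impossible for `P ≠ Q`: by (a)-type identity `w_P - w_Q = (t_P-t_Q) * ...` with
`1 - w_P² - w_P w_Q - w_Q²` a unit: `(w_P - w_Q)(1 - w_P² - w_P w_Q - w_Q²) = t_P³ - t_Q³`; same for
`t_P = - t_Q` iff `P = -Q`.)
-/

set_option autoImplicit false

namespace HB

variable {k F : Type} [Field k] [Field F] [Algebra k F] [CharZero k] (D : DV k F)

private theorem eT_neg (P : EPt F) : eT (-P) = -eT P := by
  unfold eT
  rw [eX_neg, eY_neg, div_neg]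

/-- The local parameter at the origin. -/
theorem DV.v_eT {P : EPt F} (hP : P ≠ 0) (h1 : D.v (eX P) < 0) :
    eT P ≠ 0 ∧ D.v (eT P) = D.iE P := by
  obtain ⟨hX, hY, -, h3, h4⟩ := D.v_pole hP h1
  refine ⟨div_ne_zero hX hY, ?_⟩
  rw [eT, D.div hX hY]; omega

/-- `1 - (X + X') / (X X')²` is a unit -/
private theorem fac_unit {P Q : EPt F} (hP : P ≠ 0) (hQ : Q ≠ 0)
    (h1 : D.v (eX P) < 0) (h2 : D.v (eX Q) < 0) :
    1 - (eX P + eX Q) / (eX P * eX Q) ^ 2 ≠ 0 ∧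
      D.v (1 - (eX P + eX Q) / (eX P * eX Q) ^ 2) = 0 := by
  obtain ⟨hX, hY, hm, h3, h4⟩ := D.v_pole hP h1
  obtain ⟨hX', hY', hn, h3', h4'⟩ := D.v_pole hQ h2
  have hXX : eX P * eX Q ≠ 0 := mul_ne_zero hX hX'
  have hg : D.ge (-2 * D.iE P - 2 * D.iE Q) (eX P + eX Q) := by
    apply D.ge_add
    · exact D.ge_of_le (by omega)
    · exact D.ge_of_le (by omega)
  have hg2 : D.ge (4 * D.iE P + 4 * D.iE Q) (((eX P * eX Q) ^ 2)⁻¹) := by
    apply D.ge_of_le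
    rw [D.inv (pow_ne_zero 2 hXX), D.pow hXX, D.mul hX hX', h3, h3']
    push_cast
    omega
  have hg3 := D.ge_neg (D.ge_mul hg hg2)
  have h5 := D.add_eq_left (x := 1) one_ne_zero (y := -((eX P + eX Q) * ((eX P * eX Q) ^ 2)⁻¹))
    (D.ge_mono (by rw [D.one]; omega) hg3)
  rw [D.one] at h5
  rw [sub_eq_add_neg, div_eq_mul_inv]
  exact h5

private theorem t_ident {P Q : EPt F} (hP : P ≠ 0) (hQ : Q ≠ 0) (hX : eX P ≠ 0) (hY : eY P ≠ 0)
    (hX' : eX Q ≠ 0) (hY' : eY Q ≠ 0) :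
    ((eT P)⁻¹) ^ 2 - ((eT Q)⁻¹) ^ 2
      = (eX P - eX Q) * (1 - (eX P + eX Q) / (eX P * eX Q) ^ 2) := by
  have h1 := eY_sq hP
  have h2 := eY_sq hQ
  have e1 : ((eT P)⁻¹) ^ 2 = (eX P ^ 3 + 1) / eX P ^ 2 := by
    rw [← h1]
    unfold eT
    rw [inv_div, div_pow]
  have e2 : ((eT Q)⁻¹) ^ 2 = (eX Q ^ 3 + 1) / eX Q ^ 2 := by
    rw [← h2]
    unfold eT
    rw [inv_div, div_pow]
  rw [e1, e2]
  field_simp
  ring

/-- `t_P ≠ t_Q` for different points near the origin. -/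
theorem DV.eT_ne {P Q : EPt F} (hP : P ≠ 0) (hQ : Q ≠ 0) (hPQ : P ≠ Q)
    (h1 : D.v (eX P) < 0) (h2 : D.v (eX Q) < 0) : eT P ≠ eT Q := by
  intro h
  obtain ⟨hX, hY, hm, h3, h4⟩ := D.v_pole hP h1
  obtain ⟨hX', hY', hn, h3', h4'⟩ := D.v_pole hQ h2
  have h5 := t_ident hP hQ hX hY hX' hY'
  rw [h, sub_self] at h5
  have h6 := (mul_eq_zero.1 h5.symm).resolve_right (fac_unit D hP hQ h1 h2).1
  rcases (eX_eq_iff hP hQ).1 (sub_eq_zero.1 h6) with h7 | h7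
  · exact hPQ h7
  · have h8 : eT P = -eT Q := by rw [h7, eT_neg]
    rw [h] at h8
    have h9 : (2 : F) * eT Q = 0 := by linear_combination h8
    have : CharZero F := charZero_of_injective_algebraMap (algebraMap k F).injective
    exact (D.v_eT hQ h2).1 ((mul_eq_zero.1 h9).resolve_left two_ne_zero)

/-- (a) of the plan, in a form valid for `m ≠ n` as well. -/
theorem DV.v_eX_sub_inf {P Q : EPt F} (hP : P ≠ 0) (hQ : Q ≠ 0) (hPQ : P ≠ Q) (hPQ' : P ≠ -Q)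
    (h1 : D.v (eX P) < 0) (h2 : D.v (eX Q) < 0) :
    D.v (eX P - eX Q) = D.v (eT P - eT Q) + D.v (eT P + eT Q) - 2 * D.iE P - 2 * D.iE Q := by
  obtain ⟨hX, hY, hm, h3, h4⟩ := D.v_pole hP h1
  obtain ⟨hX', hY', hn, h3', h4'⟩ := D.v_pole hQ h2
  obtain ⟨ht, hvt⟩ := D.v_eT hP h1
  obtain ⟨ht', hvt'⟩ := D.v_eT hQ h2
  have hne : eX P - eX Q ≠ 0 := by
    intro h
    rcases (eX_eq_iff hP hQ).1 (sub_eq_zero.1 h) with h7 | h7
    · exact hPQ h7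
    · exact hPQ' h7
  obtain ⟨hu, hvu⟩ := fac_unit D hP hQ h1 h2
  have hd : eT P - eT Q ≠ 0 := sub_ne_zero.2 (D.eT_ne hP hQ hPQ h1 h2)
  have hs : eT P + eT Q ≠ 0 := by
    have h5 := D.eT_ne hP (neg_ne_zeroE hQ) hPQ' h1 (by rw [eX_neg]; exact h2)
    rw [eT_neg] at h5
    intro h6
    exact h5 (eq_neg_of_add_eq_zero_left h6)
  have h5 := t_ident hP hQ hX hY hX' hY'
  have h6 : ((eT P)⁻¹) ^ 2 - ((eT Q)⁻¹) ^ 2
      = -((eT P - eT Q) * (eT P + eT Q)) / (eT P * eT Q) ^ 2 := by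
    field_simp
    ring
  rw [h6] at h5
  have h7 := congrArg D.v h5
  rw [D.mul hne hu, hvu, D.div (neg_ne_zero.2 (mul_ne_zero hd hs))
    (pow_ne_zero 2 (mul_ne_zero ht ht')), D.neg, D.mul hd hs, D.pow (mul_ne_zero ht ht'),
    D.mul ht ht', hvt, hvt'] at h7
  push_cast at h7
  omega

theorem DV.iE_sub_inf {P Q : EPt F} (hP : P ≠ 0) (hQ : Q ≠ 0) (hPQ : P ≠ Q)
    (h1 : D.v (eX P) < 0) (h2 : D.v (eX Q) < 0) :
    D.iE (P - Q) = D.v (eT P - eT Q) := by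
  have hchar : CharZero F := charZero_of_injective_algebraMap (algebraMap k F).injective
  obtain ⟨hX, hY, hm, h3, h4⟩ := D.v_pole hP h1
  obtain ⟨hX', hY', hn, h3', h4'⟩ := D.v_pole hQ h2
  obtain ⟨ht, hvt⟩ := D.v_eT hP h1
  obtain ⟨ht', hvt'⟩ := D.v_eT hQ h2
  have hd : eT P - eT Q ≠ 0 := sub_ne_zero.2 (D.eT_ne hP hQ hPQ h1 h2)
  have hdpos : 0 < D.v (eT P - eT Q) := by
    have h5 : D.ge 1 (eT P - eT Q) :=
      D.ge_sub (D.ge_of_le (by omega)) (D.ge_of_le (by omega))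
    have := D.le_of_ge hd h5
    omega
  have key : ∀ V : ℤ, V = -2 * D.v (eT P - eT Q) → max 0 (-V) / 2 = D.v (eT P - eT Q) := by
    intro V hV
    rw [hV, max_eq_right (by omega)]
    omega
  unfold DV.iE
  apply key
  have hYsq := eY_sq hP
  have hYsq' := eY_sq hQ
  by_cases hPQ' : P = -Q
  · have hQP : Q = -P := by rw [hPQ', neg_neg]
    rw [hQP, sub_neg_eq_add, eT_neg, sub_neg_eq_add, ← two_mul, D.mul two_ne_zero ht, D.ofNat, hvt,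
      zero_add]
    obtain ⟨-, h5, -⟩ := doubleE hP hY
    have h6 : eX (P + P) = (eX P ^ 4 + -(8 * eX P)) / (4 * eY P ^ 2) := by
      rw [h5]
      field_simp
      linear_combination (-32) * hYsq
    have h7 := D.add_eq_left (x := eX P ^ 4) (pow_ne_zero 4 hX) (y := -(8 * eX P)) (by
      apply D.ge_of_le
      rw [D.neg, D.mul (by norm_num) hX, D.ofNat, D.pow hX, h3]
      push_cast
      omega)
    rw [h6, D.div h7.1 (mul_ne_zero (by norm_num) (pow_ne_zero 2 hY)), h7.2,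
      D.mul (by norm_num) (pow_ne_zero 2 hY), D.ofNat, D.pow hX, D.pow hY, h3, h4]
    push_cast
    omega
  · have hne : eX P ≠ eX Q := by
      intro h
      rcases (eX_eq_iff hP hQ).1 h with h7 | h7
      · exact hPQ h7
      · exact hPQ' h7
    have hne' : eX P - eX Q ≠ 0 := sub_ne_zero.2 hne
    have hs : eT P + eT Q ≠ 0 := by
      have h5 := D.eT_ne hP (neg_ne_zeroE hQ) hPQ' h1 (by rw [eX_neg]; exact h2)
      rw [eT_neg] at h5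
      intro h6
      exact h5 (eq_neg_of_add_eq_zero_left h6)
    have hv := D.v_eX_sub_inf hP hQ hPQ hPQ' h1 h2
    obtain ⟨-, h5, -⟩ := subE hP hQ hne
    -- the exact formula
    set a : F := (eT P + eT Q) / (eT P * eT Q) with ha
    set b : F := (eX P - eX Q) / (eX P * eX Q) with hb
    have ha0 : a ≠ 0 := div_ne_zero hs (mul_ne_zero ht ht')
    have hb0 : b ≠ 0 := div_ne_zero hne' (mul_ne_zero hX hX')
    have hva : D.v a = D.v (eT P + eT Q) - D.iE P - D.iE Q := by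
      rw [ha, D.div hs (mul_ne_zero ht ht'), D.mul ht ht', hvt, hvt']
      omega
    have hvb : D.v b = D.v (eT P - eT Q) + D.v (eT P + eT Q) := by
      rw [hb, D.div hne' (mul_ne_zero hX hX'), D.mul hX hX', h3, h3', hv]
      omega
    have h6 : eX (P - Q) = eX P * eX Q * (a ^ 2 + -b ^ 2) / (eX P - eX Q) ^ 2 := by
      rw [h5]
      have e1 : a = (eY P * eX Q + eY Q * eX P) / (eX P * eX Q) := by
        rw [ha]
        unfold eT
        field_simp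
        ring
      rw [e1, hb]
      field_simp
      linear_combination (eX P * eX Q - eX Q ^ 2) * hYsq + (eX P * eX Q - eX P ^ 2) * hYsq'
    have h7 := D.add_eq_left (x := a ^ 2) (pow_ne_zero 2 ha0) (y := -b ^ 2) (by
      apply D.ge_of_le
      rw [D.neg, D.pow hb0, D.pow ha0, hva, hvb]
      push_cast
      omega)
    rw [h6, D.div (mul_ne_zero (mul_ne_zero hX hX') h7.1) (pow_ne_zero 2 hne'),
      D.mul (mul_ne_zero hX hX') h7.1, h7.2, D.pow ha0, D.pow hne', D.mul hX hX', h3, h3', hva, hv]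
    push_cast
    omega

end HB
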