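import Pool.Agent.HB.B.Basic

/-!
# HB-B-EInt (I1, integral points): `i(P - Q) = min (v (X_P - X_Q)) (v (Y_P - Y_Q))`

Plan.  Write `a = X_P - X_Q`, `b = Y_P + Y_Q`, `c = Y_P - Y_Q`, `d = X_P² + X_P X_Q + X_Q²`
(all integral: `D.ge 0`); `b c = a d` by `eY_sq`.

Case `a = 0` (`X_P = X_Q`).  By `eX_eq_iff` and `P ≠ Q`: `P = -Q`, so `P - Q = P + P`, `c = 2 Y_P`,
and `Y_P ≠ 0` (else `P = Q`).  `doubleE`: `X(2P) = (3 X² / (2 Y))² - 2 X`.
 - `v Y = 0`: `X(2P)` integral (`ge_*` lemmas), `iE = 0` (`iE_of_ge`), and `v c = v (2 Y) = 0`.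
 - `v Y > 0`: then `v X = 0` (from `Y² = X³ + 1`: if `v X > 0` then `v (X³ + 1) = 0`), so
   `v ((3X²/(2Y))²) = -2 v Y < 0`, `v (X(2P)) = -2 v Y` by `add_eq_left`, `iE = v Y = v c`.
 `dmin_zero_left`.

Case `a ≠ 0`.  `subE`: `X(P-Q) = (b / a)² - X_P - X_Q`.
 - `b = 0`: `X(P-Q) = - X_P - X_Q` integral, `iE = 0`.  Here `Y_P = -Y_Q`; `b c = a d` gives `d = 0`.
   Claim `dmin a c = 0`, i.e. not both `v a > 0` and (`c = 0` or `v c > 0`):
   if `v a > 0` then `d = 0` gives `3 X_P² ≡ 0`, so `v X_P > 0`, `v X_Q > 0`, hence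
   `Y_P² = X_P³ + 1` has `v Y_P = 0`, `c = 2 Y_P`, `v c = 0`.
 - `b ≠ 0`, `v b < v a`: `v ((b/a)²) = 2 (v b - v a) < 0`, `iE = v a - v b`.
   If `v b = 0`: `c = a d / b`, so `D.ge (v a) c`, `dmin = v a`.
   If `v b > 0`: `v a > 0`; if `v X_P > 0` then also `v X_Q > 0`, `v Y_P = v Y_Q = 0`,
   (`Y² = X³ + 1`), more precisely the residues: work with `Y_P² - 1 = X_P³` etc.  Best way: `v d = 0`:
   indeed `2 Y_P = b + c`; if `c = 0` or `v c > 0` then `v (Y_P) > 0` so `v X_P = 0`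
   and `d = 3 X_P² - 3 X_P a + a²` has `v d = 0`, so `v c = v a - v b < v a`, `dmin = v a - v b`.
   If `v c = 0` then `v (b c) = v b < v a ≤ v (a d)`, contradiction.
 - `b ≠ 0`, `v b ≥ v a`: `X(P-Q)` integral, `iE = 0`; claim `dmin a c = 0`.  If `v a = 0` clear.
   If `v a > 0`: then `v b > 0`; if (`c = 0` or `v c > 0`) then `v Y_P > 0`, `v d = 0` as above,
   `v b + v c = v a`, so `v c ≤ 0`, contradiction (`c = 0` would give `a d = 0`).  So `v c = 0`.
Only elementary valuation arithmetic (`DV.mul`, `DV.add_eq_left`, `DV.div`, `omega`).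
-/

set_option autoImplicit false

namespace HB

variable {k F : Type} [Field k] [Field F] [Algebra k F] [CharZero k] (D : DV k F)

omit [CharZero k] in
private theorem dmin_eq_of {a c : F} (ha : a ≠ 0 ∨ c ≠ 0) (n : ℤ) (h1 : D.ge n a)
    (h2 : D.ge n c) (h3 : ¬ (D.ge (n + 1) a ∧ D.ge (n + 1) c)) : D.dmin a c = n := by
  have h5 := (D.le_dmin ha n).2 ⟨h1, h2⟩
  have h4 : ¬ (n + 1 ≤ D.dmin a c) := fun h => h3 ((D.le_dmin ha (n + 1)).1 h)
  omega

omit [CharZero k] in
private theorem v_neg_one : D.v (-1 : F) = 0 := by rw [D.neg, D.one]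

omit [CharZero k] in
private theorem X_unit {P : EPt F} (hP : P ≠ 0) (hY : D.ge 1 (eY P)) :
    eX P ≠ 0 ∧ D.v (eX P) = 0 := by
  have hY2 : D.ge (D.v (-1 : F) + 1) (eY P ^ 2) := by
    rw [v_neg_one D, sq]
    exact D.ge_mono (by norm_num) (D.ge_mul hY hY)
  have h := D.add_eq_left (x := (-1 : F)) (by simp) hY2
  have h3 : -1 + eY P ^ 2 = eX P ^ 3 := by rw [eY_sq hP]; ring
  rw [h3, v_neg_one D] at h
  have hX : eX P ≠ 0 := fun h0 => h.1 (by rw [h0]; ring)
  refine ⟨hX, ?_⟩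
  have h4 := h.2
  rw [D.pow hX] at h4
  have h5 : ((3 : ℕ) : ℤ) * D.v (eX P) = 0 := h4
  push_cast at h5
  omega

private theorem d_unit {P Q : EPt F} (hP : P ≠ 0)
    (ha : D.ge 1 (eX P - eX Q)) (hb : D.ge 1 (eY P + eY Q)) (hc : D.ge 1 (eY P - eY Q)) :
    eX P ^ 2 + eX P * eX Q + eX Q ^ 2 ≠ 0 ∧ D.v (eX P ^ 2 + eX P * eX Q + eX Q ^ 2) = 0 := by
  have hF : CharZero F := charZero_of_injective_algebraMap (algebraMap k F).injective
  have h20 : (2 : F) ≠ 0 := by norm_num
  have h30 : (3 : F) ≠ 0 := by norm_num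
  have h2 : D.v (2 : F) = 0 := D.ofNat
  have h3 : D.v (3 : F) = 0 := D.ofNat
  have hY : D.ge 1 (eY P) := by
    have h1 : eY P = (2 : F)⁻¹ * ((eY P + eY Q) + (eY P - eY Q)) := by
      field_simp
      ring
    rw [h1]
    have h4 : D.ge 0 ((2 : F)⁻¹) := Or.inr (by rw [D.inv h20, h2]; norm_num)
    have h5 := D.ge_mul h4 (D.ge_add hb hc)
    simpa using h5
  obtain ⟨hX, hvX⟩ := X_unit D hP hY
  have h6 : eX P ^ 2 + eX P * eX Q + eX Q ^ 2 =
      3 * eX P ^ 2 + (eX P - eX Q) * ((eX P - eX Q) - 3 * eX P) := by ring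
  have h7 : D.v (3 * eX P ^ 2) = 0 := by
    rw [D.mul h30 (pow_ne_zero 2 hX), h3, D.pow hX, hvX]
    norm_num
  have h8 : D.ge 0 ((eX P - eX Q) - 3 * eX P) := by
    refine D.ge_sub (D.ge_mono (by norm_num) ha) ?_
    have h9 := D.ge_mul (D.ge_of_le h3.ge) (D.ge_of_le hvX.ge)
    simpa using h9
  have h10 : D.ge (D.v (3 * eX P ^ 2) + 1) ((eX P - eX Q) * ((eX P - eX Q) - 3 * eX P)) := by
    rw [h7]
    have h11 := D.ge_mul ha h8
    simpa using h11
  have h12 := D.add_eq_left (mul_ne_zero h30 (pow_ne_zero 2 hX)) h10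
  rw [h6]
  exact ⟨h12.1, h12.2.trans h7⟩

theorem DV.iE_sub_int {P Q : EPt F} (hP : P ≠ 0) (hQ : Q ≠ 0) (hPQ : P ≠ Q)
    (h1 : D.ge 0 (eX P)) (h2 : D.ge 0 (eX Q)) :
    D.iE (P - Q) = D.dmin (eX P - eX Q) (eY P - eY Q) := by
  have hF : CharZero F := charZero_of_injective_algebraMap (algebraMap k F).injective
  have h20 : (2 : F) ≠ 0 := by norm_num
  have h30 : (3 : F) ≠ 0 := by norm_num
  have h2v : D.v (2 : F) = 0 := D.ofNat
  have h3v : D.v (3 : F) = 0 := D.ofNat
  have hYP := D.ge_eY h1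
  have hYQ := D.ge_eY h2
  have hsP := eY_sq hP
  have hsQ := eY_sq hQ
  have hdge : D.ge 0 (eX P ^ 2 + eX P * eX Q + eX Q ^ 2) := by
    refine D.ge_add (D.ge_add (D.ge_pow h1 2) ?_) (D.ge_pow h2 2)
    simpa using D.ge_mul h1 h2
  have hrel : (eY P + eY Q) * (eY P - eY Q) =
      (eX P - eX Q) * (eX P ^ 2 + eX P * eX Q + eX Q ^ 2) := by
    linear_combination hsP - hsQ
  have hdu := fun ha hb hc => d_unit D (Q := Q) hP ha hb hc
  have hage : D.ge 0 (eX P - eX Q) := D.ge_sub h1 h2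
  have hcge : D.ge 0 (eY P - eY Q) := D.ge_sub hYP hYQ
  have hbge : D.ge 0 (eY P + eY Q) := D.ge_add hYP hYQ
  by_cases hX : eX P = eX Q
  · -- opposite points
    have hPQ' : P = -Q := ((eX_eq_iff hP hQ).1 hX).resolve_left hPQ
    have hY : eY Q = - eY P := by rw [hPQ', eY_neg, neg_neg]
    have hYne : eY P ≠ 0 := by
      intro h0
      refine hPQ (ptE_ext hP hQ hX ?_)
      rw [hY, h0, neg_zero]
    have hsub : P - Q = P + P := by
      rw [sub_eq_add_neg]
      congr 1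
      rw [hPQ']
    have hdb := (doubleE hP hYne).2.1
    rw [hsub, sub_eq_zero.2 hX, D.dmin_zero_left]
    have hc : eY P - eY Q = 2 * eY P := by rw [hY]; ring
    have hv2Y : D.v (2 * eY P) = D.v (eY P) := by rw [D.mul h20 hYne, h2v, zero_add]
    rw [hc, hv2Y]
    have hvY : 0 ≤ D.v (eY P) := D.le_of_ge hYne hYP
    rcases hvY.eq_or_lt with h0 | h0
    · have hge : D.ge 0 (eX (P + P)) := by
        rw [hdb]
        refine D.ge_sub (D.ge_pow ?_ 2) ?_
        · rw [div_eq_mul_inv]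
          have h5 : D.ge 0 (3 * eX P ^ 2) := by
            have := D.ge_mul (D.ge_of_le h3v.ge) (D.ge_pow h1 2)
            simpa using this
          have h6 : D.ge 0 ((2 * eY P)⁻¹) := by
            refine Or.inr ?_
            rw [D.inv (mul_ne_zero h20 hYne), hv2Y]
            omega
          simpa using D.ge_mul h5 h6
        · have := D.ge_mul (D.ge_of_le h2v.ge) h1
          simpa using this
      rw [D.iE_of_ge hge, h0]
    · obtain ⟨hXne, hvX⟩ := X_unit D hP (Or.inr h0)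
      have hq0 : 3 * eX P ^ 2 / (2 * eY P) ≠ 0 :=
        div_ne_zero (mul_ne_zero h30 (pow_ne_zero 2 hXne)) (mul_ne_zero h20 hYne)
      have hvq : D.v (3 * eX P ^ 2 / (2 * eY P)) = - D.v (eY P) := by
        rw [D.div (mul_ne_zero h30 (pow_ne_zero 2 hXne)) (mul_ne_zero h20 hYne), hv2Y,
          D.mul h30 (pow_ne_zero 2 hXne), h3v, D.pow hXne, hvX]
        ring
      have hvq2 : D.v ((3 * eX P ^ 2 / (2 * eY P)) ^ 2) = - 2 * D.v (eY P) := by
        rw [D.pow hq0, hvq]
        push_cast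
        ring
      have h7 : D.ge (D.v ((3 * eX P ^ 2 / (2 * eY P)) ^ 2) + 1) (-(2 * eX P)) := by
        rw [hvq2]
        refine D.ge_neg (Or.inr ?_)
        rw [D.mul h20 hXne, h2v, hvX]
        omega
      have h8 := (D.add_eq_left (pow_ne_zero 2 hq0) h7).2
      rw [← sub_eq_add_neg, ← hdb, hvq2] at h8
      unfold DV.iE
      rw [h8]
      omega
  · have ha0 : eX P - eX Q ≠ 0 := sub_ne_zero.2 hX
    have hva : 0 ≤ D.v (eX P - eX Q) := D.le_of_ge ha0 hage
    have hsb := (subE hP hQ hX).2.1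
    by_cases hb0 : eY P + eY Q = 0
    · have hge : D.ge 0 (eX (P - Q)) := by
        rw [hsb, hb0, zero_div]
        refine D.ge_sub (D.ge_sub ?_ h1) h2
        exact Or.inl (by norm_num)
      rw [D.iE_of_ge hge]
      symm
      refine dmin_eq_of D (Or.inl ha0) 0 hage hcge ?_
      rintro ⟨h5, h6⟩
      rw [zero_add] at h5 h6
      have h7 := (hdu h5 (Or.inl hb0) h6).1
      rw [hb0, MulZeroClass.zero_mul] at hrel
      exact mul_ne_zero ha0 h7 hrel.symm
    · have hvb : 0 ≤ D.v (eY P + eY Q) := D.le_of_ge hb0 hbge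
      have hq0 : (eY P + eY Q) / (eX P - eX Q) ≠ 0 := div_ne_zero hb0 ha0
      have hvq : D.v ((eY P + eY Q) / (eX P - eX Q)) =
          D.v (eY P + eY Q) - D.v (eX P - eX Q) := D.div hb0 ha0
      have hvq2 : D.v (((eY P + eY Q) / (eX P - eX Q)) ^ 2) =
          2 * (D.v (eY P + eY Q) - D.v (eX P - eX Q)) := by
        rw [D.pow hq0, hvq]
        push_cast
        ring
      -- the relation of the orders
      have hord : eX P ^ 2 + eX P * eX Q + eX Q ^ 2 ≠ 0 → eY P - eY Q ≠ 0 ∧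
          D.v (eY P + eY Q) + D.v (eY P - eY Q) = D.v (eX P - eX Q) +
            D.v (eX P ^ 2 + eX P * eX Q + eX Q ^ 2) := by
        intro hd
        have h5 : (eY P + eY Q) * (eY P - eY Q) ≠ 0 := by
          rw [hrel]
          exact mul_ne_zero ha0 hd
        have hc0 := (mul_ne_zero_iff.1 h5).2
        refine ⟨hc0, ?_⟩
        rw [← D.mul hb0 hc0, hrel, D.mul ha0 hd]
      rcases lt_or_ge (D.v (eY P + eY Q)) (D.v (eX P - eX Q)) with hlt | hle
      · have h7 : D.ge (D.v (((eY P + eY Q) / (eX P - eX Q)) ^ 2) + 1) (-(eX P + eX Q)) := by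
          rw [hvq2]
          exact D.ge_neg (D.ge_mono (by omega) (D.ge_add h1 h2))
        have h8 := (D.add_eq_left (pow_ne_zero 2 hq0) h7).2
        have h9 : ((eY P + eY Q) / (eX P - eX Q)) ^ 2 + -(eX P + eX Q) = eX (P - Q) := by
          rw [hsb]; ring
        rw [h9, hvq2] at h8
        have h10 : D.iE (P - Q) = D.v (eX P - eX Q) - D.v (eY P + eY Q) := by
          unfold DV.iE
          rw [h8]
          omega
        rw [h10]
        symm
        refine dmin_eq_of D (Or.inl ha0) _ (Or.inr (by omega)) ?_ ?_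
        · by_cases hc0 : eY P - eY Q = 0
          · exact Or.inl hc0
          · have hd : eX P ^ 2 + eX P * eX Q + eX Q ^ 2 ≠ 0 := by
              intro hd
              rw [hd, MulZeroClass.mul_zero] at hrel
              exact mul_ne_zero hb0 hc0 hrel
            have h11 := (hord hd).2
            have h12 := D.le_of_ge hd hdge
            exact Or.inr (by omega)
        · rintro ⟨h5, h6⟩
          have h5' := D.le_of_ge ha0 h5
          have hd := hdu (Or.inr (by omega)) (Or.inr (by omega)) (D.ge_mono (by omega) h6)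
          have h11 := hord hd.1
          have h12 := D.le_of_ge h11.1 h6
          omega
      · have hge : D.ge 0 (eX (P - Q)) := by
          rw [hsb]
          refine D.ge_sub (D.ge_sub (D.ge_pow (Or.inr ?_) 2) h1) h2
          rw [hvq]
          omega
        rw [D.iE_of_ge hge]
        symm
        refine dmin_eq_of D (Or.inl ha0) 0 hage hcge ?_
        rintro ⟨h5, h6⟩
        rw [zero_add] at h5 h6
        have h5' := D.le_of_ge ha0 h5
        have hd := hdu h5 (Or.inr (by omega)) h6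
        have h11 := hord hd.1
        have h12 := D.le_of_ge h11.1 h6
        omega

end HB
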