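import Pool.Agent.HB.B.Basic

/-!
# HB-B-EMix (I1, mixed case): if `P` is near the origin and `Q` is not then `i(P ± Q) = 0`

Plan.  `v (X_P) = -2 m`, `v (Y_P) = -3 m`, `m > 0` (`DV.v_pole`), `X_Q`, `Y_Q` integral.  `X_P ≠ X_Q`.
`subE`: `X(P-Q) = ((Y_P + Y_Q)/(X_P - X_Q))² - X_P - X_Q = N / (X_P - X_Q)²` with (use `eY_sq`,
`field_simp`, `ring`) `N = 2 + 2 Y_P Y_Q + X_P X_Q (X_P + X_Q)`.  `v ((X_P - X_Q)²) = -4 m`
(`add_eq_left`) and `D.ge (-4 m) N`, so `X(P-Q)` is integral and `iE_of_ge`.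
The second statement is the first one for `-Q`; the remaining two by symmetry (`iE_sub_comm`).
-/

set_option autoImplicit false

namespace HB

variable {k F : Type} [Field k] [Field F] [Algebra k F] [CharZero k] (D : DV k F)

theorem DV.iE_sub_mix1 {P Q : EPt F} (hP : P ≠ 0) (hQ : Q ≠ 0)
    (h1 : D.v (eX P) < 0) (h2 : D.ge 0 (eX Q)) : D.iE (P - Q) = 0 := by
  obtain ⟨hX, hY, hm, hvX, hvY⟩ := D.v_pole hP h1
  have hYQ := D.ge_eY h2
  have hPs := eY_sq hP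
  have hQs := eY_sq hQ
  have hd := D.add_eq_left (x := eX P) (y := -eX Q) hX
    (D.ge_mono (by omega) (D.ge_neg h2))
  rw [← sub_eq_add_neg] at hd
  obtain ⟨hd0, hdv⟩ := hd
  have hne : eX P ≠ eX Q := sub_ne_zero.mp hd0
  obtain ⟨-, hx, -⟩ := subE hP hQ hne
  have hN : eX (P - Q) = (2 + 2 * eY P * eY Q + eX P * eX Q * (eX P + eX Q)) /
      (eX P - eX Q) ^ 2 := by
    rw [hx]
    field_simp
    linear_combination hPs + hQs
  apply D.iE_of_ge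
  have g2 : D.ge 0 (2 : F) := Or.inr (D.ofNat (n := 2)).ge
  have gX : D.ge (-2 * D.iE P) (eX P) := Or.inr hvX.ge
  have gY : D.ge (-3 * D.iE P) (eY P) := Or.inr hvY.ge
  have t1 : D.ge (-4 * D.iE P) (2 : F) := D.ge_mono (by omega) g2
  have t2 : D.ge (-4 * D.iE P) (2 * eY P * eY Q) :=
    D.ge_mono (by omega) (D.ge_mul (D.ge_mul g2 gY) hYQ)
  have t3 : D.ge (-4 * D.iE P) (eX P * eX Q * (eX P + eX Q)) :=
    D.ge_mono (by omega) (D.ge_mul (D.ge_mul gX h2)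
      (D.ge_add gX (D.ge_mono (n := 0) (by omega) h2)))
  have t4 := D.ge_add (D.ge_add t1 t2) t3
  rw [hN]
  by_cases h0 : 2 + 2 * eY P * eY Q + eX P * eX Q * (eX P + eX Q) = 0
  · left
    rw [h0, zero_div]
  · right
    rw [D.div h0 (pow_ne_zero 2 hd0), D.pow hd0, hdv, hvX]
    have := D.le_of_ge h0 t4
    push_cast
    omega

theorem DV.iE_sub_mix {P Q : EPt F} (hP : P ≠ 0) (hQ : Q ≠ 0)
    (h1 : D.v (eX P) < 0) (h2 : D.ge 0 (eX Q)) : D.iE (P - Q) = 0 ∧ D.iE (P + Q) = 0 := by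
  refine ⟨D.iE_sub_mix1 hP hQ h1 h2, ?_⟩
  have := D.iE_sub_mix1 hP (neg_ne_zeroE hQ) h1 (by rwa [eX_neg])
  rwa [sub_neg_eq_add] at this

end HB
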