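import Pool.Agent.HB.B.Triple

/-!
# HB-B-EThree: `Y(3s) - e` is a cube, `e = ± 1`

`Y(3s) - e = h_e(s)³`, `h_e(s) = (Y (X³ - 8) - 9 e X³) / (3 X (X³ + 4))`, `e² = 1`
(`3 = φ' φ` with `φ` the 3-isogeny with kernel `{O, (0,±1)}`; on `y² = x³ - 27` one has
`(y(x³+216) - 27x³)/(27x³) = ((y-9)/(3x))³`).

Plan.  Let `X, Y` be the coordinates of `s`; `3s ≠ 0` gives `3X⁴+12X ≠ 0` (`three_eq_zero_iff`),
so `X ≠ 0`, `X³ + 4 ≠ 0`.
* `eY s = 0`: `3 s = s`, `X³ = -1`: `h = (-9 e (-1))/(3 X 3) = e / X`, `h³ = e³/X³ = -e`. OK.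
* `eY s ≠ 0`: `2 s ≠ 0`; coordinates of `2s` by `doubleE`, `3s = 2s + s` with
  `X(2s) - X = -(3X⁴+12X)/(4Y²) ≠ 0`, `addE`: explicit formula for `eY (3s)`; multiply out and use
  `Y² = X³ + 1` (`field_simp`, `linear_combination`).  A convenient intermediate form:
  `Y(3s) = Y (X¹² + 220 X⁹ - 528 X⁶ - 1760 X³ + ... )/(27 X³ (X³+4)³)`: let the computer find it:
  it is the expansion of `e + h_e³` and does not depend on `e`.
(Check: `s = (2,3)`: `3s = (-1,0)`, `h_1 = -72/72 = -1`.)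
-/

set_option autoImplicit false

namespace HB

variable {F : Type} [Field F] [CharZero F]

/-- The cube root of `Y(3s) - e`. -/
noncomputable def eH (e : F) (s : EPt F) : F :=
  (eY s * (eX s ^ 3 - 8) - 9 * e * eX s ^ 3) / (3 * eX s * (eX s ^ 3 + 4))

omit [CharZero F] in
private theorem et_three_eq (s : EPt F) : (3 : ℤ) • s = (2 : ℤ) • s + s := by
  have h : (3 : ℤ) = 2 + 1 := by norm_num
  rw [h, add_zsmul, one_zsmul]

theorem eY_three (e : F) (he : e ^ 2 = 1) {s : EPt F} (hs : s ≠ 0) (h3 : (3 : ℤ) • s ≠ 0) :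
    eY ((3 : ℤ) • s) - e = eH e s ^ 3 := by
  have hZ : 3 * eX s ^ 4 + 12 * eX s ≠ 0 := fun h => h3 ((three_eq_zero_iff hs).2 h)
  have hZ' : 3 * eX s * (eX s ^ 3 + 4) = 3 * eX s ^ 4 + 12 * eX s := by ring
  have q3 : e ^ 3 = e := by
    rw [pow_succ, he, one_mul]
  have hsq := eY_sq hs
  unfold eH
  rw [hZ', div_pow, eq_div_iff (pow_ne_zero 3 hZ)]
  by_cases hY : eY s = 0
  · have h3' : eX s ^ 3 = -1 := by
      rw [hY] at hsq
      linear_combination -hsq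
    rw [et_three_eq, (two_eq_zero_iff hs).2 hY, zero_add, hY]
    have e1 : (0 * (eX s ^ 3 - 8) - 9 * e * eX s ^ 3) ^ 3 = 729 * e := by
      rw [h3']
      linear_combination 729 * q3
    have e2 : (3 * eX s ^ 4 + 12 * eX s) ^ 3 = -729 := by
      have e3 : (3 * eX s ^ 4 + 12 * eX s) = 9 * eX s := by linear_combination 3 * eX s * h3'
      rw [e3]
      linear_combination 729 * h3'
    rw [e1, e2]
    ring
  · have h2 : (2 : ℤ) • s ≠ 0 := fun h => hY ((two_eq_zero_iff hs).1 h)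
    have hX : eX ((2 : ℤ) • s) ≠ eX s := by
      intro h
      apply hZ
      have hE := eX_two hs hY
      rw [h] at hE
      linear_combination hE
    have hd := doubleE hs hY
    rw [← two_zsmul] at hd
    obtain ⟨_, hX2, hY2⟩ := hd
    obtain ⟨_, hX3, hY3⟩ := addE h2 hs hX
    rw [← et_three_eq] at hX3 hY3
    have hE := eX_two hs hY
    set X := eX s with hXdef
    set Y := eY s with hYdef
    set X2 := eX ((2 : ℤ) • s) with hX2def
    set Y2 := eY ((2 : ℤ) • s) with hY2def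
    set X3 := eX ((3 : ℤ) • s) with hX3def
    set Y3 := eY ((3 : ℤ) • s) with hY3def
    set t := 3 * X ^ 2 / (2 * Y) with ht
    set lam := (Y2 - Y) / (X2 - X) with hlam
    have h1 : 2 * Y * t = 3 * X ^ 2 := by
      rw [ht]; field_simp
    have hl : lam * (X2 - X) = Y2 - Y := by
      rw [hlam, div_mul_cancel₀ _ (sub_ne_zero.mpr hX)]
    have hXD : (X2 - X) * (4 * Y ^ 2) = -(3 * X ^ 4 + 12 * X) := by
      linear_combination hE + 4 * (X2 - X) * hsq
    have h4 : (lam + t) * (X2 - X) = -(2 * Y) := by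
      rw [add_mul, hl, hY2]; ring
    have h5 : (lam + t) * (3 * X ^ 4 + 12 * X) = 8 * Y ^ 3 := by
      linear_combination (-(4 * Y ^ 2)) * h4 + (lam + t) * hXD
    have e1 : X3 = lam ^ 2 - t ^ 2 + X := by
      rw [hX3, hX2]; ring
    set Z := 3 * X ^ 4 + 12 * X with hZdef
    have a1 : lam * Z = 8 * Y ^ 3 - t * Z := by linear_combination h5
    have a2 : (X3 - X) * Z ^ 2 = (8 * Y ^ 3 - 2 * t * Z) * (8 * Y ^ 3) := by
      have b1 : (X3 - X) * Z ^ 2 = (lam * Z) ^ 2 - (t * Z) ^ 2 := by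
        rw [e1]
        ring
      rw [b1, a1]
      ring
    have a3 : Y3 = -(lam * (X3 - X) + Y) := by
      rw [hY3]
      linear_combination hl
    have a4 : Y3 * Z ^ 3 = -((8 * Y ^ 3 - t * Z) * ((8 * Y ^ 3 - 2 * t * Z) * (8 * Y ^ 3)) +
        Y * Z ^ 3) := by
      rw [← a1, ← a2, a3]
      ring
    have a5 : Y3 * Z ^ 3 = -(512 * Y ^ 9 - 288 * X ^ 2 * Y ^ 5 * Z + 36 * X ^ 4 * Y * Z ^ 2 +
        Y * Z ^ 3) := by
      rw [a4]
      have c1 : Y ^ 6 * t * 2 = 3 * X ^ 2 * Y ^ 5 := by linear_combination Y ^ 5 * h1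
      have c2 : Y ^ 3 * t ^ 2 * 4 = 9 * X ^ 4 * Y := by
        linear_combination (Y * (2 * Y * t + 3 * X ^ 2)) * h1
      linear_combination (96 * Z) * c1 - (4 * Z ^ 2) * c2
    have p9 : Y ^ 9 = Y * (X ^ 3 + 1) ^ 4 := by
      rw [← hsq]
      ring
    have p5 : Y ^ 5 = Y * (X ^ 3 + 1) ^ 2 := by
      rw [← hsq]
      ring
    have p3 : Y ^ 3 = Y * (X ^ 3 + 1) := by
      rw [← hsq]
      ring
    rw [hZdef] at a5 ⊢
    linear_combination a5 - 512 * p9 + 288 * X ^ 2 * (3 * X ^ 4 + 12 * X) * p5 -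
      (X ^ 3 - 8) ^ 3 * p3 + 27 * e * X ^ 3 * (X ^ 3 - 8) ^ 2 * hsq -
      243 * X ^ 6 * Y * (X ^ 3 - 8) * he + 729 * X ^ 9 * q3

end HB
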