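import Pool.Agent.HB.B.I6
import Pool.Agent.HB.B.EIn

/-!
# HB-B-HFun: the function whose divisor is the collision divisor modulo `3`

Plan.  `p = aff x y h`, `q = aff x' y' h'`, `f = Ψ² ψ₃(s1')² ψ₃(s2)`, `Ψ = ePsi p q s2 s2'`.
`v_ePsi`: `v Ψ ≡ 2 i(p,q) + 2 iZero p + iInf q  (mod 3)`.  `iZero p = i(π' p) = i(3 s1') =
9 i(s1') + v(ψ₃ s1')` (`iE_pi'`, `iE_three`), `iInf q = i(π q) = 9 i(s2) + v(ψ₃ s2)`.  Hence
`2 v Ψ + 2 v ψ₃(s1') + v ψ₃(s2) ≡ 4 i(p,q) + 4 iZero p + 2 iInf q + 2 iZero p + iInf q ≡ i(p,q)`.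
Nondegeneracy: let `A` = the elements of `K` algebraic over `k(x)` (subfield, relatively
algebraically closed: `algebraicClosure` of `IntermediateField.adjoin k {x}` in `K`).  `x' ∉ A` by
`hind`.  `x ∈ A`, `y ∈ A`, so `π p, π' p ∈ E(A)` (`EIn`).  `π q, π' q ∉ E(A)` (`x'^2 ∈ A → x' ∈ A`).
`π p = s2` would give `π q = 3 s2 ∈ E(A)`; `π p = 2 s2` gives `s2 ∈ E(A)` (`eIn_of_two`), same for `'`.
`π p ≠ π q`, `x ≠ -x'`, `x, x' ≠ 0` (transcendental), `s2 ≠ 0`, `3 s2 = π q ≠ 0`, `eY s2 ≠ 0` (else `X³ = -1`,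
`s2 ∈ E(A)`), same for `s2'`; for `s1'`: `3 s1' = π' p ≠ 0`, and `eY s1' = 0` would give
`X(s1')³ = -1`, `2 s1' = 0`, `π' p = s1'`, so `x⁻²` algebraic over `k`: contradiction.
-/

set_option autoImplicit false

namespace HB

variable {k K : Type} [Field k] [Field K] [Algebra k K] [CharZero k] [CharZero K]

open scoped IntermediateField.algebraAdjoinAdjoin in
omit [CharZero k] [CharZero K] in
private theorem hf_transc {x x' : K} (hind : AlgebraicIndependent k ![x, x']) :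
    Transcendental (IntermediateField.adjoin k ({x} : Set K)) x' := by
  have h1 := hind.transcendental_adjoin (s := {0}) (i := 1) (by simp)
  have h2 : (![x, x'] '' ({0} : Set (Fin 2))) = {x} := by simp
  rw [h2] at h1
  have h3 : Transcendental (Algebra.adjoin k ({x} : Set K)) x' := h1
  intro h4
  exact h3 ((IsFractionRing.isAlgebraic_iff (Algebra.adjoin k ({x} : Set K))
    (IntermediateField.adjoin k ({x} : Set K)) K).2 h4)

omit [CharZero k] [CharZero K] in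
private theorem hf_relclosed {x x' : K} (hind : AlgebraicIndependent k ![x, x']) :
    ∃ A : Subfield K, (∀ z : K, IsIntegral A z → z ∈ A) ∧ x ∈ A ∧ x' ∉ A := by
  refine ⟨(algebraicClosure (IntermediateField.adjoin k ({x} : Set K)) K).toSubfield, ?_, ?_, ?_⟩
  · intro z hz
    have h1 : IsIntegral (algebraicClosure (IntermediateField.adjoin k ({x} : Set K)) K) z := hz
    have h2 := mem_algebraicClosure_iff'.2 h1
    rw [algebraicClosure.algebraicClosure_eq_bot, IntermediateField.mem_bot] at h2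
    obtain ⟨w, hw⟩ := h2
    rw [← hw]
    exact w.2
  · change x ∈ algebraicClosure (IntermediateField.adjoin k ({x} : Set K)) K
    rw [mem_algebraicClosure_iff]
    exact isAlgebraic_algebraMap (⟨x, IntermediateField.mem_adjoin_simple_self k x⟩ :
      IntermediateField.adjoin k ({x} : Set K))
  · intro h1
    have h2 : x' ∈ algebraicClosure (IntermediateField.adjoin k ({x} : Set K)) K := h1
    rw [mem_algebraicClosure_iff] at h2
    exact hf_transc hind h2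

private theorem hf_pi' {x y : K} (h : y ^ 2 = x ^ 6 + 1) (hx : x ≠ 0) :
    BPt.pi' (.aff x y h) ≠ 0 ∧ eX (BPt.pi' (.aff x y h)) = x⁻¹ ^ 2 := by
  have e : BPt.swap (.aff x y h) = .aff x⁻¹ (y / x ^ 3) (by field_simp; rw [h]; ring) := by
    simp only [BPt.swap, dif_neg hx]
  unfold BPt.pi'
  rw [e]
  exact ⟨mkE_ne_zero (x⁻¹ ^ 2) (y / x ^ 3) (by field_simp; rw [h]; ring), rfl⟩

theorem exists_hfun_dv {x y x' y' : K} (h : y ^ 2 = x ^ 6 + 1) (h' : y' ^ 2 = x' ^ 6 + 1)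
    (hind : AlgebraicIndependent k ![x, x']) {s1' s2 s2' : EPt K}
    (hs1' : (3 : ℤ) • s1' = BPt.pi' (.aff x y h)) (hs2 : (3 : ℤ) • s2 = BPt.pi (.aff x' y' h'))
    (hs2' : (3 : ℤ) • s2' = BPt.pi' (.aff x' y' h')) :
    ∃ f : K, f ≠ 0 ∧ ∀ D : DV k K, ∃ n : ℤ,
      D.iB (.aff x y h) (.aff x' y' h') = D.v f + 3 * n := by
  obtain ⟨A, hA, hxA, hxA'⟩ := hf_relclosed hind
  have htx : Transcendental k x := hind.transcendental 0
  have hx0 : x ≠ 0 := by
    rintro rfl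
    exact htx isAlgebraic_zero
  have hx0' : x' ≠ 0 := by
    rintro rfl
    exact hxA' A.zero_mem
  have hxx : x ≠ -x' := by
    intro h1
    apply hxA'
    have h2 : x' = -x := by rw [h1, neg_neg]
    rw [h2]
    exact A.neg_mem hxA
  have hsq' : ∀ z : K, z ^ 2 ∈ A → z ∈ A := by
    intro z hz
    apply hA
    refine ⟨Polynomial.X ^ 2 - Polynomial.C (⟨z ^ 2, hz⟩ : A),
      Polynomial.monic_X_pow_sub_C _ two_ne_zero, ?_⟩
    rw [Polynomial.eval₂_sub, Polynomial.eval₂_X_pow, Polynomial.eval₂_C]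
    exact sub_self _
  have hcube : ∀ z : K, z ^ 3 = -1 → z ∈ A := by
    intro z hz
    apply hA
    refine ⟨Polynomial.X ^ 3 - Polynomial.C (-1 : A),
      Polynomial.monic_X_pow_sub_C _ three_ne_zero, ?_⟩
    rw [Polynomial.eval₂_sub, Polynomial.eval₂_X_pow, Polynomial.eval₂_C, hz, map_neg, map_one]
    ring
  -- the points
  have ep : BPt.pi (.aff x y h) ≠ 0 := mkE_ne_zero (x ^ 2) y (by rw [h]; ring)
  have eq : BPt.pi (.aff x' y' h') ≠ 0 := mkE_ne_zero (x' ^ 2) y' (by rw [h']; ring)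
  obtain ⟨ep', exp'⟩ := hf_pi' h hx0
  obtain ⟨eq', exq'⟩ := hf_pi' h' hx0'
  have inp : EIn A (BPt.pi (.aff x y h)) := Or.inr (A.pow_mem hxA 2)
  have inp' : EIn A (BPt.pi' (.aff x y h)) := Or.inr (by
    rw [exp']
    exact A.pow_mem (A.inv_mem hxA) 2)
  have outq : ¬ EIn A (BPt.pi (.aff x' y' h')) := by
    rintro (h1 | h1)
    · exact eq h1
    · exact hxA' (hsq' _ h1)
  have outq' : ¬ EIn A (BPt.pi' (.aff x' y' h')) := by
    rintro (h1 | h1)
    · exact eq' h1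
    · rw [exq'] at h1
      apply hxA'
      have h2 := A.inv_mem (hsq' _ h1)
      rwa [inv_inv] at h2
  have outs : ¬ EIn A s2 := fun h1 => outq (hs2 ▸ eIn_smul hA h1 3)
  have outs' : ¬ EIn A s2' := fun h1 => outq' (hs2' ▸ eIn_smul hA h1 3)
  have s20 : s2 ≠ 0 := fun h1 => outs (Or.inl h1)
  have s20' : s2' ≠ 0 := fun h1 => outs' (Or.inl h1)
  have s23 : (3 : ℤ) • s2 ≠ 0 := by rw [hs2]; exact eq
  have s2Y : eY s2 ≠ 0 := by
    intro h1
    apply outs
    right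
    apply hcube
    have h2 := eY_sq s20
    rw [h1] at h2
    linear_combination -h2
  have s13 : (3 : ℤ) • s1' ≠ 0 := by rw [hs1']; exact ep'
  have s10 : s1' ≠ 0 := by
    rintro rfl
    exact s13 (smul_zero _)
  have s1Y : eY s1' ≠ 0 := by
    intro h1
    have h2 := (two_eq_zero_iff s10).2 h1
    have h3 : s1' = BPt.pi' (.aff x y h) := by
      rw [← hs1']
      have h4 : (3 : ℤ) • s1' = (2 : ℤ) • s1' + s1' := by
        rw [show (3 : ℤ) = 2 + 1 by norm_num, add_zsmul, one_zsmul]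
      rw [h4, h2, zero_add]
    have h5 := eY_sq s10
    rw [h1, h3, exp'] at h5
    have h6 : x ^ 6 = -1 := by
      have h7 : x⁻¹ ^ 6 = -1 := by linear_combination -h5
      have h8 : x ^ 6 = (x⁻¹ ^ 6)⁻¹ := by rw [inv_pow, inv_inv]
      rw [h8, h7]
      norm_num
    apply htx
    refine ⟨Polynomial.X ^ 6 + 1, ?_, ?_⟩
    · exact (Polynomial.monic_X_pow_add_C (1 : k) (by norm_num : (6 : ℕ) ≠ 0)).ne_zero
    · rw [map_add, map_pow, Polynomial.aeval_X, map_one, h6]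
      ring
  have n1 : BPt.pi (.aff x y h) ≠ s2 := fun h1 => outs (h1 ▸ inp)
  have n2 : BPt.pi (.aff x y h) ≠ (2 : ℤ) • s2 := fun h1 => outs (eIn_of_two hA (h1 ▸ inp))
  have n3 : BPt.pi (.aff x y h) ≠ BPt.pi (.aff x' y' h') := fun h1 => outq (h1 ▸ inp)
  have n1' : BPt.pi' (.aff x y h) ≠ s2' := fun h1 => outs' (h1 ▸ inp')
  have n2' : BPt.pi' (.aff x y h) ≠ (2 : ℤ) • s2' := fun h1 => outs' (eIn_of_two hA (h1 ▸ inp'))
  have n3' : BPt.pi' (.aff x y h) ≠ BPt.pi' (.aff x' y' h') := fun h1 => outq' (h1 ▸ inp')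
  have key := fun D : DV k K => D.v_ePsi h h' hx0 hx0' hxx hs2 hs2' s20 s20' n1 n2 n3 n1' n2' n3'
  have k1 := fun D : DV k K => D.iE_three s10 s1Y s13
  have k2 := fun D : DV k K => D.iE_three s20 s2Y s23
  by_cases hD : Nonempty (DV k K)
  · obtain ⟨D0⟩ := hD
    have f1 := (key D0).1
    have f2 := (k1 D0).1
    have f3 := (k2 D0).1
    refine ⟨ePsi (.aff x y h) (.aff x' y' h') s2 s2' ^ 2 * psi3 s1' ^ 2 * psi3 s2,
      mul_ne_zero (mul_ne_zero (pow_ne_zero 2 f1) (pow_ne_zero 2 f2)) f3, fun D => ?_⟩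
    have v1 := (key D).2
    have v2 := (k1 D).2
    have v3 := (k2 D).2
    rw [hs1', D.iE_pi' h hx0] at v2
    rw [hs2, D.iE_pi h'] at v3
    rw [D.mul (mul_ne_zero (pow_ne_zero 2 f1) (pow_ne_zero 2 f2)) f3,
      D.mul (pow_ne_zero 2 f1) (pow_ne_zero 2 f2), D.pow f1, D.pow f2, v1]
    refine ⟨-(D.iB (.aff x y h) (.aff x' y' h') + 2 * D.iInf (.aff x y h) +
      2 * D.iZero (.aff x y h) - 2 * (D.iE (BPt.pi (.aff x y h) - s2) +
        D.iE (BPt.pi' (.aff x y h) - s2')) - 4 * (D.iE s2 + D.iE s2') +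
      D.iInf (.aff x' y' h') - 6 * D.iE s1' - 3 * D.iE s2), ?_⟩
    push_cast
    linarith
  · exact ⟨1, one_ne_zero, fun D => absurd ⟨D⟩ hD⟩

end HB
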