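import Pool.Agent.HB.B.EInt
import Pool.Agent.HB.B.EMix
import Pool.Agent.HB.B.EInf

/-!
# HB-B-I2: `v (X_P - X_Q) = i(P - Q) + i(P + Q) - 2 i(P) - 2 i(Q)`, and the ultrametric inequality

Plan for `v_eX_sub`.  Four cases (`ge_or_pole`).
* both integral: `iE P = iE Q = 0`, `a = X_P - X_Q ≠ 0` (`eX_eq_iff`), `iE (P - Q) = dmin a c`,
  `iE (P + Q) = iE (P - (-Q)) = dmin a b` with `c = Y_P - Y_Q`, `b = Y_P + Y_Q` (`iE_sub_int`).
  `b c = a d`, `d = X_P² + X_P X_Q + X_Q²` integral.  If `v a = 0` both are `0` (`b, c` integral).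
  If `v a > 0`: if `c` (or `b`) has `v = 0` then the other one is `a d / c`, `D.ge (v a)`, so
  `dmin = v a` resp. `0`.  If neither is a unit then `2 Y_P = b + c` is not a unit, so `v X_P = 0`
  (`Y² = X³ + 1`), `v d = v (3 X_P² - 3 X_P a + a²) = 0`, so `b, c ≠ 0`, `v b + v c = v a`,
  and `dmin a c + dmin a b = v c + v b = v a`.
* both near the origin: `v_eX_sub_inf`, `iE_sub_inf` for `Q` and `-Q` (`eT (-Q) = - eT Q`).
* mixed: `iE_sub_mix`; `v (X_P - X_Q) = v (X_P) = -2 iE P` resp. `-2 iE Q`.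

`iE_add_le` (ultrametric): if one of `iE P`, `iE Q` is `0` trivial (`iE_nonneg`); otherwise
`P + Q = P - (-Q)`, `iE_sub_inf` and `v (t_P + t_Q) ≥ min`.
-/

set_option autoImplicit false

namespace HB

variable {k F : Type} [Field k] [Field F] [Algebra k F] [CharZero k] (D : DV k F)

omit [CharZero k] in
private theorem I2_aux {a b c d : F} (ha : a ≠ 0) (ga : D.ge 0 a) (gb : D.ge 0 b) (gc : D.ge 0 c)
    (gd : D.ge 0 d) (hbc : b * c = a * d)
    (hd : D.ge 1 a → D.ge 1 b → D.ge 1 c → d ≠ 0 ∧ D.v d = 0) :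
    D.v a = D.dmin a c + D.dmin a b := by
  have hva : 0 ≤ D.v a := D.le_of_ge ha ga
  rcases eq_or_ne b 0 with hb | hb
  · have hd0 : d = 0 := by
      rw [hb, zero_mul] at hbc
      rcases mul_eq_zero.mp hbc.symm with h | h
      · exact absurd h ha
      · exact h
    rcases eq_or_ne c 0 with hc | hc
    · rcases hva.lt_or_eq with h | h
      · exact absurd hd0 (hd (Or.inr h) (Or.inl hb) (Or.inl hc)).1
      · rw [hb, hc, D.dmin_zero_right]; omega
    · have hvc := D.le_of_ge hc gc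
      rw [hb, D.dmin_zero_right]
      have h1 : D.dmin a c = min (D.v a) (D.v c) := by simp [DV.dmin, ha, hc]
      rw [h1]
      rcases hva.lt_or_eq with h | h
      · have h2 : ¬ 1 ≤ D.v c := fun h3 => absurd hd0 (hd (Or.inr h) (Or.inl hb) (Or.inr h3)).1
        omega
      · omega
  · have hvb := D.le_of_ge hb gb
    have h1b : D.dmin a b = min (D.v a) (D.v b) := by simp [DV.dmin, ha, hb]
    rw [h1b]
    rcases eq_or_ne c 0 with hc | hc
    · have hd0 : d = 0 := by
        rw [hc, mul_zero] at hbc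
        rcases mul_eq_zero.mp hbc.symm with h | h
        · exact absurd h ha
        · exact h
      rw [hc, D.dmin_zero_right]
      rcases hva.lt_or_eq with h | h
      · have h2 : ¬ 1 ≤ D.v b := fun h3 => absurd hd0 (hd (Or.inr h) (Or.inr h3) (Or.inl hc)).1
        omega
      · omega
    · have hvc := D.le_of_ge hc gc
      have h1c : D.dmin a c = min (D.v a) (D.v c) := by simp [DV.dmin, ha, hc]
      rw [h1c]
      have hd0 : d ≠ 0 := by
        intro h
        rw [h, mul_zero] at hbc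
        exact (mul_ne_zero hb hc) hbc
      have hvd := D.le_of_ge hd0 gd
      have hm : D.v b + D.v c = D.v a + D.v d := by
        rw [← D.mul hb hc, ← D.mul ha hd0, hbc]
      rcases hva.lt_or_eq with h | h
      · rcases hvb.lt_or_eq with h3 | h3
        · rcases hvc.lt_or_eq with h4 | h4
          · have h5 := (hd (Or.inr h) (Or.inr h3) (Or.inr h4)).2
            omega
          · omega
        · omega
      · omega

omit [CharZero k] in
private theorem I2_eT_neg (Q : EPt F) : eT (-Q) = - eT Q := by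
  rw [eT, eT, eX_neg, eY_neg, div_neg]

private theorem I2_int {P Q : EPt F} (hP : P ≠ 0) (hQ : Q ≠ 0) (hPQ : P ≠ Q) (hPQ' : P ≠ -Q)
    (h1 : D.ge 0 (eX P)) (h2 : D.ge 0 (eX Q)) :
    D.v (eX P - eX Q) = D.iE (P - Q) + D.iE (P + Q) - 2 * D.iE P - 2 * D.iE Q := by
  have hQ' : -Q ≠ 0 := neg_ne_zeroE hQ
  have ha : eX P - eX Q ≠ 0 := by
    intro h
    rcases (eX_eq_iff hP hQ).mp (sub_eq_zero.mp h) with h3 | h3
    · exact hPQ h3
    · exact hPQ' h3
  have e1 := D.iE_sub_int hP hQ hPQ h1 h2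
  have e2 := D.iE_sub_int hP hQ' hPQ' h1 (by rwa [eX_neg])
  rw [sub_neg_eq_add, eX_neg, eY_neg, sub_neg_eq_add] at e2
  rw [D.iE_of_ge h1, D.iE_of_ge h2, e1, e2]
  have gYP := D.ge_eY h1
  have gYQ := D.ge_eY h2
  have hPs := eY_sq hP
  have hQs := eY_sq hQ
  have key := I2_aux D (a := eX P - eX Q) (b := eY P + eY Q) (c := eY P - eY Q)
    (d := eX P ^ 2 + eX P * eX Q + eX Q ^ 2) ha (D.ge_sub h1 h2) (D.ge_add gYP gYQ)
    (D.ge_sub gYP gYQ)
    (D.ge_add (D.ge_add (D.ge_pow h1 2) (by simpa using D.ge_mul h1 h2)) (D.ge_pow h2 2))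
    (by linear_combination hPs - hQs) ?_
  · rw [key]; ring
  · intro ga gb gc
    have h2Y : D.ge 1 (2 * eY P) := by
      have := D.ge_add gb gc
      have h3 : eY P + eY Q + (eY P - eY Q) = 2 * eY P := by ring
      rwa [h3] at this
    haveI : CharZero F := charZero_of_injective_algebraMap (algebraMap k F).injective
    have h20 : (2 : F) ≠ 0 := two_ne_zero
    have v2 : D.v (2 : F) = 0 := D.ofNat
    have hY : D.ge 1 (eY P) := by
      rcases h2Y with h | h
      · left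
        rcases mul_eq_zero.mp h with h | h
        · exact absurd h h20
        · exact h
      · by_cases h0 : eY P = 0
        · exact Or.inl h0
        · right
          rwa [D.mul h20 h0, v2, zero_add] at h
    have hX3 : -(eX P ^ 3) = 1 + -(eY P ^ 2) := by linear_combination hPs
    have h3 : (1 : F) + -(eY P ^ 2) ≠ 0 ∧ D.v (1 + -(eY P ^ 2)) = D.v (1 : F) := by
      refine D.add_eq_left one_ne_zero (D.ge_neg ?_)
      rw [D.one, pow_two]
      exact D.ge_mono (by norm_num) (D.ge_mul hY hY)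
    rw [← hX3, D.one, D.neg] at h3
    have hX0 : eX P ≠ 0 := by
      intro h; apply h3.1; rw [h]; ring
    have hvX : D.v (eX P) = 0 := by
      have := h3.2
      rw [D.pow hX0] at this
      push_cast at this
      omega
    have h30 : (3 : F) ≠ 0 := three_ne_zero
    have v3 : D.v (3 : F) = 0 := D.ofNat
    have h4 : D.v (3 * eX P ^ 2) = 0 := by
      rw [D.mul h30 (pow_ne_zero _ hX0), D.pow hX0, v3, hvX]; norm_num
    have h5 : eX P ^ 2 + eX P * eX Q + eX Q ^ 2 =
        3 * eX P ^ 2 + (eX P - eX Q) * (-(3 * eX P) + (eX P - eX Q)) := by ring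
    have h6 := D.add_eq_left (x := 3 * eX P ^ 2)
      (y := (eX P - eX Q) * (-(3 * eX P) + (eX P - eX Q)))
      (mul_ne_zero h30 (pow_ne_zero _ hX0)) (by
        rw [h4]
        have g3 : D.ge 0 (3 * eX P) := by
          have := D.ge_mul (Or.inr v3.ge : D.ge 0 (3 : F)) h1
          simpa using this
        have := D.ge_mul ga (D.ge_add (D.ge_neg g3) (D.ge_sub h1 h2))
        simpa using this)
    rw [← h5, h4] at h6
    exact h6

private theorem I2_mix {P Q : EPt F} (hP : P ≠ 0) (hQ : Q ≠ 0)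
    (h1 : D.v (eX P) < 0) (h2 : D.ge 0 (eX Q)) :
    D.v (eX P - eX Q) = D.iE (P - Q) + D.iE (P + Q) - 2 * D.iE P - 2 * D.iE Q := by
  obtain ⟨e1, e2⟩ := D.iE_sub_mix hP hQ h1 h2
  obtain ⟨hX, -, -, h3, -⟩ := D.v_pole hP h1
  have h4 := (D.add_eq_left hX (y := -eX Q) (D.ge_mono (by omega) (D.ge_neg h2))).2
  rw [← sub_eq_add_neg] at h4
  rw [h4, e1, e2, D.iE_of_ge h2, h3]; ring

theorem DV.v_eX_sub {P Q : EPt F} (hP : P ≠ 0) (hQ : Q ≠ 0) (hPQ : P ≠ Q) (hPQ' : P ≠ -Q) :
    D.v (eX P - eX Q) = D.iE (P - Q) + D.iE (P + Q) - 2 * D.iE P - 2 * D.iE Q := by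
  rcases D.ge_or_pole (P := P) with h1 | h1
  · rcases D.ge_or_pole (P := Q) with h2 | h2
    · exact I2_int D hP hQ hPQ hPQ' h1 h2
    · have h3 := I2_mix D hQ hP h2 h1
      rw [D.iE_sub_comm Q P, add_comm Q P] at h3
      have h4 : eX P - eX Q = -(eX Q - eX P) := by ring
      rw [h4, D.neg, h3]; ring
  · rcases D.ge_or_pole (P := Q) with h2 | h2
    · exact I2_mix D hP hQ h1 h2
    · have hQ' : -Q ≠ 0 := neg_ne_zeroE hQ
      have e1 := D.iE_sub_inf hP hQ hPQ h1 h2
      have e2 := D.iE_sub_inf hP hQ' hPQ' h1 (by rwa [eX_neg])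
      rw [sub_neg_eq_add, I2_eT_neg, sub_neg_eq_add] at e2
      rw [D.v_eX_sub_inf hP hQ hPQ hPQ' h1 h2, e1, e2]

theorem DV.iE_add_le {P Q : EPt F} (hP : P ≠ 0) (hQ : Q ≠ 0) (hPQ : P + Q ≠ 0) :
    min (D.iE P) (D.iE Q) ≤ D.iE (P + Q) := by
  rcases D.ge_or_pole (P := P) with h1 | h1
  · rw [D.iE_of_ge h1]
    exact le_trans (min_le_left _ _) (D.iE_nonneg _)
  · rcases D.ge_or_pole (P := Q) with h2 | h2
    · rw [D.iE_of_ge h2]
      exact le_trans (min_le_right _ _) (D.iE_nonneg _)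
    · have hQ' : -Q ≠ 0 := neg_ne_zeroE hQ
      have hPQ' : P ≠ -Q := fun h => hPQ (by rw [h]; simp)
      have h2' : D.v (eX (-Q)) < 0 := by rwa [eX_neg]
      have e2 := D.iE_sub_inf hP hQ' hPQ' h1 h2'
      have e3 := D.eT_ne hP hQ' hPQ' h1 h2'
      rw [sub_neg_eq_add, I2_eT_neg, sub_neg_eq_add] at e2
      rw [I2_eT_neg] at e3
      rw [e2]
      obtain ⟨hp0, hp⟩ := D.v_eT hP h1
      obtain ⟨hq0, hq⟩ := D.v_eT hQ h2
      have := D.add hp0 hq0 (fun h => e3 (by linear_combination h))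
      rwa [hp, hq] at this

end HB
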