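import Pool.Agent.HB.B.I2

/-!
# HB-B-I34: the function `G(e,s)`, doubling and tripling

* (I3) `G(e,s) = (X(e - 2s) - X(s)) (X(e - s) - X(s))²`,
  `v G = i(e - 3s) + 2 i(e) - 3 i(e - s) - 6 i(s)`.  Proof: `v_eX_sub` for `(e - 2s, s)` and for
  `(e - s, s)`: `[i(e-3s) + i(e-s) - 2 i(e-2s) - 2 i(s)] + 2 [i(e-2s) + i(e) - 2 i(e-s) - 2 i(s)]`.
* (I4) `i(2s) = 4 i(s) + v (Y s)`: `doubleE`: `X(2s) = (X⁴ - 8X)/(4Y²)` (`field_simp`, `eY_sq`).
  `X` integral: if `v Y > 0` then `v X = 0`, `X³ - 8 = Y² - 9`, `v (X⁴ - 8X) = 0`, `v X(2s) = -2 v Y`;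
  if `v Y = 0` then `X(2s)` is integral.  `v X = -2m`: `v (X⁴ - 8X) = -8m`, `v (4Y²) = -6m`.
* `v (psi3 s) `: `psi3 s = 3 X⁴ + 12 X`;  `X(2s) - X(s) = - psi3 s / (4 Y²)` and (I2) for `(2s, s)`:
  `i(3s) = v (psi3) - 2 v Y + 2 i(2s) + i(s) = 9 i(s) + v (psi3 s)`.
-/

set_option autoImplicit false

namespace HB

variable {k F : Type} [Field k] [Field F] [Algebra k F] [CharZero k] (D : DV k F)

/-- `G(e,s) = (X(e - 2s) - X(s)) (X(e - s) - X(s))²`. -/
noncomputable def eG (e s : EPt F) : F := (eX (e - (2 : ℤ) • s) - eX s) * (eX (e - s) - eX s) ^ 2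

/-- The 3-division polynomial `3 X⁴ + 12 X`. -/
def psi3 (s : EPt F) : F := 3 * eX s ^ 4 + 12 * eX s

theorem DV.v_eG {e s : EPt F} (he : e ≠ 0) (hs : s ≠ 0) (h1 : e ≠ s) (h2 : e ≠ (2 : ℤ) • s)
    (h3 : e ≠ (3 : ℤ) • s) :
    eG e s ≠ 0 ∧
      D.v (eG e s) = D.iE (e - (3 : ℤ) • s) + 2 * D.iE e - 3 * D.iE (e - s) - 6 * D.iE s := by
  have hA0 : e - (2 : ℤ) • s ≠ 0 := sub_ne_zero.mpr h2
  have hB0 : e - s ≠ 0 := sub_ne_zero.mpr h1
  have hA1 : e - (2 : ℤ) • s ≠ s := by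
    intro h
    apply h3
    calc e = (e - (2 : ℤ) • s) + (2 : ℤ) • s := by abel
      _ = s + (2 : ℤ) • s := by rw [h]
      _ = (3 : ℤ) • s := by abel
  have hA2 : e - (2 : ℤ) • s ≠ -s := by
    intro h
    apply h1
    calc e = (e - (2 : ℤ) • s) + (2 : ℤ) • s := by abel
      _ = -s + (2 : ℤ) • s := by rw [h]
      _ = s := by abel
  have hB1 : e - s ≠ s := by
    intro h
    apply h2
    calc e = (e - s) + s := by abel
      _ = s + s := by rw [h]
      _ = (2 : ℤ) • s := by abel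
  have hB2 : e - s ≠ -s := by
    intro h
    apply he
    calc e = (e - s) + s := by abel
      _ = -s + s := by rw [h]
      _ = 0 := by abel
  have vA := D.v_eX_sub hA0 hs hA1 hA2
  have vB := D.v_eX_sub hB0 hs hB1 hB2
  have nA : eX (e - (2 : ℤ) • s) - eX s ≠ 0 := by
    rw [sub_ne_zero, Ne, eX_eq_iff hA0 hs]
    tauto
  have nB : eX (e - s) - eX s ≠ 0 := by
    rw [sub_ne_zero, Ne, eX_eq_iff hB0 hs]
    tauto
  have e1 : e - (2 : ℤ) • s - s = e - (3 : ℤ) • s := by abel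
  have e2 : e - (2 : ℤ) • s + s = e - s := by abel
  have e3 : e - s - s = e - (2 : ℤ) • s := by abel
  have e4 : e - s + s = e := by abel
  rw [e1, e2] at vA
  rw [e3, e4] at vB
  refine ⟨mul_ne_zero nA (pow_ne_zero 2 nB), ?_⟩
  unfold eG
  rw [D.mul nA (pow_ne_zero 2 nB), D.pow nB, vA, vB]
  push_cast
  ring

private theorem i34_eX_two [CharZero F] {s : EPt F} (hs : s ≠ 0) (hY : eY s ≠ 0) :
    (2 : ℤ) • s ≠ 0 ∧ eX ((2 : ℤ) • s) = (eX s ^ 4 - 8 * eX s) / (4 * eY s ^ 2) := by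
  obtain ⟨h0, hx, _⟩ := doubleE hs hY
  rw [two_zsmul]
  refine ⟨h0, ?_⟩
  rw [hx]
  have hsq := eY_sq hs
  have h4 : (4 : F) * eY s ^ 2 ≠ 0 := mul_ne_zero (by norm_num) (pow_ne_zero 2 hY)
  rw [eq_div_iff h4]
  have : (3 * eX s ^ 2 / (2 * eY s)) ^ 2 * (4 * eY s ^ 2) = 9 * eX s ^ 4 := by
    field_simp; ring
  rw [sub_mul, this]
  linear_combination (-8 * eX s) * hsq

theorem DV.iE_two {s : EPt F} (hs : s ≠ 0) (hY : eY s ≠ 0) :
    D.iE ((2 : ℤ) • s) = 4 * D.iE s + D.v (eY s) := by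
  have : CharZero F := charZero_of_injective_algebraMap (algebraMap k F).injective
  obtain ⟨h0, hx⟩ := i34_eX_two hs hY
  have hsq := eY_sq hs
  have v4 : D.v (4 : F) = 0 := D.ofNat
  have v8 : D.v (8 : F) = 0 := D.ofNat
  have v9 : D.v (9 : F) = 0 := D.ofNat
  have hd : (4 : F) * eY s ^ 2 ≠ 0 := mul_ne_zero (by norm_num) (pow_ne_zero 2 hY)
  have vd : D.v ((4 : F) * eY s ^ 2) = 2 * D.v (eY s) := by
    rw [D.mul (by norm_num) (pow_ne_zero 2 hY), D.pow hY, v4]; push_cast; ring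
  rcases D.ge_or_pole (P := s) with hge | hlt
  · rw [D.iE_of_ge hge]
    have hgY := D.ge_eY hge
    have hY0 : 0 ≤ D.v (eY s) := D.le_of_ge hY hgY
    rcases eq_or_lt_of_le hY0 with hv | hv
    · -- `Y` a unit: `X(2s)` is integral
      rw [← hv]
      have : D.ge 0 (eX ((2 : ℤ) • s)) := by
        rw [hx, div_eq_mul_inv]
        have h1 : D.ge 0 (eX s ^ 4 - 8 * eX s) := by
          refine D.ge_sub (D.ge_pow hge 4) ?_
          simpa using D.ge_mul (D.ge_of_le (le_of_eq v8.symm)) hge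
        have h2 : D.ge 0 ((4 * eY s ^ 2)⁻¹) := by
          refine D.ge_of_le ?_
          rw [D.inv hd, vd, ← hv]; norm_num
        simpa using D.ge_mul h1 h2
      rw [D.iE_of_ge this]; norm_num
    · -- `v Y > 0`
      have hX : eX s ≠ 0 := by
        intro h
        rw [h] at hsq
        have : D.v (eY s ^ 2) = 0 := by rw [hsq]; simpa using D.one
        rw [D.pow hY] at this
        push_cast at this
        omega
      have vY2 : D.v (eY s ^ 2) = 2 * D.v (eY s) := by rw [D.pow hY]; push_cast; ring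
      have hX3 : D.v (eX s ^ 3) = 0 := by
        have h1 := D.add_eq_left (x := (-1 : F)) (y := eY s ^ 2) (by norm_num)
          (Or.inr (by rw [D.neg, D.one, vY2]; omega))
        have h2 : eX s ^ 3 = -1 + eY s ^ 2 := by rw [hsq]; ring
        rw [h2, h1.2, D.neg, D.one]
      have vX : D.v (eX s) = 0 := by
        rw [D.pow hX] at hX3; push_cast at hX3; omega
      have h9 := D.add_eq_left (x := (-9 : F)) (y := eY s ^ 2) (by norm_num)
          (Or.inr (by rw [D.neg, v9, vY2]; omega))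
      rw [D.neg, v9] at h9
      have hn : eX s ^ 4 - 8 * eX s = eX s * (-9 + eY s ^ 2) := by rw [hsq]; ring
      have hn0 : eX s ^ 4 - 8 * eX s ≠ 0 := by rw [hn]; exact mul_ne_zero hX h9.1
      have vn : D.v (eX s ^ 4 - 8 * eX s) = 0 := by
        rw [hn, D.mul hX h9.1, vX, h9.2]; norm_num
      have vv : D.v (eX ((2 : ℤ) • s)) = -2 * D.v (eY s) := by
        rw [hx, D.div hn0 hd, vn, vd]; ring
      have hp := D.v_pole h0 (by rw [vv]; omega)
      have := hp.2.2.2.1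
      rw [vv] at this
      omega
  · obtain ⟨hX, _, hpos, vX, vY⟩ := D.v_pole hs hlt
    have v84 : D.v (eX s ^ 4) = 4 * D.v (eX s) := by rw [D.pow hX]; push_cast; ring
    have h1 := D.add_eq_left (x := eX s ^ 4) (y := -(8 * eX s)) (pow_ne_zero 4 hX)
      (Or.inr (by rw [D.neg, D.mul (by norm_num) hX, v8, v84]; omega))
    rw [← sub_eq_add_neg] at h1
    have vv : D.v (eX ((2 : ℤ) • s)) = -2 * D.iE s := by
      rw [hx, D.div h1.1 hd, h1.2, vd, v84, vX, vY]; ring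
    have hp := D.v_pole h0 (by rw [vv]; omega)
    have := hp.2.2.2.1
    rw [vv] at this
    rw [vY]
    omega

theorem DV.iE_three {s : EPt F} (hs : s ≠ 0) (hY : eY s ≠ 0) (h3 : (3 : ℤ) • s ≠ 0) :
    psi3 s ≠ 0 ∧ D.iE ((3 : ℤ) • s) = 9 * D.iE s + D.v (psi3 s) := by
  have : CharZero F := charZero_of_injective_algebraMap (algebraMap k F).injective
  obtain ⟨h0, hx⟩ := i34_eX_two hs hY
  have hsq := eY_sq hs
  have v4 : D.v (4 : F) = 0 := D.ofNat
  have hd : (4 : F) * eY s ^ 2 ≠ 0 := mul_ne_zero (by norm_num) (pow_ne_zero 2 hY)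
  have vd : D.v ((4 : F) * eY s ^ 2) = 2 * D.v (eY s) := by
    rw [D.mul (by norm_num) (pow_ne_zero 2 hY), D.pow hY, v4]; push_cast; ring
  have n1 : (2 : ℤ) • s ≠ s := by
    intro h
    apply hs
    have h' : s + s = s + 0 := by rw [add_zero, ← two_zsmul, h]
    exact add_left_cancel h'
  have n2 : (2 : ℤ) • s ≠ -s := by
    intro h
    apply h3
    have : (3 : ℤ) • s = (2 : ℤ) • s + s := by abel
    rw [this, h]; abel
  have vI := D.v_eX_sub h0 hs n1 n2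
  have nI : eX ((2 : ℤ) • s) - eX s ≠ 0 := by
    rw [sub_ne_zero, Ne, eX_eq_iff h0 hs]
    tauto
  have e1 : (2 : ℤ) • s - s = s := by abel
  have e2 : (2 : ℤ) • s + s = (3 : ℤ) • s := by abel
  rw [e1, e2, D.iE_two hs hY] at vI
  have hp : psi3 s = -((eX ((2 : ℤ) • s) - eX s) * (4 * eY s ^ 2)) := by
    rw [hx, sub_mul, div_mul_cancel₀ _ hd]
    unfold psi3
    linear_combination (-4 * eX s) * hsq
  have hm := mul_ne_zero nI hd
  refine ⟨by rw [hp]; exact neg_ne_zero.mpr hm, ?_⟩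
  rw [hp, D.neg, D.mul nI hd, vI, vd]
  ring

end HB
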