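import Pool.Agent.HB.B.BB
import Pool.Agent.HB.B.EInt
import Pool.Agent.HB.B.EMix
import Pool.Agent.HB.B.EInf

/-!
# HB-B-Pi (I5, second half): `i(π p - π q) = i(p,q) + i(p,σ q)`, `i(π' p - π' q) = i(p,q) + i(p,σ' q)`

Plan.  `π (x,y) = (x²,y)`, `σ (x,y) = (-x,y)`.
`iE_pi_sub`:
* both `IsFin`: `π p, π q ≠ 0`, `iE_sub_int`: `iE = dmin (x² - x'²) (y - y')`.  Claim
  `dmin (a a') c = dmin a c + dmin a' c`, `a = x - x'`, `a' = x + x'`, `c = y - y'`, `b = y + y'`,
  `b c = a a' d`, `d = x⁴ + x² x'² + x'⁴` (note `p ≠ q`, `p ≠ σ q` because `π p ≠ π q`).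
  If `v a = 0` or `v a' = 0` or `v c = 0`: clear (nonneg valuations; distinguish `c = 0` etc.).  Otherwise
  `x = (a + a')/2` is not a unit, so `v y = v y' = 0`, `v b = 0` (`b = 2y - c`) and
  `c = a a' d / b`, `D.ge (v a + v a') c`, so `dmin (a a') c = v a + v a'`, `dmin a c = v a`,
  `dmin a' c = v a'` (with `a = 0` or `a' = 0`: then `c = 0` too, `p = q` or `p = σ q`: excluded).
* none `IsFin`: if both are affine: `v (x²) < 0`, `iE_sub_inf`: `iE = v (eT (π p) - eT (π q))`,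
  `eT (π p) = x²/y = xh/yh`.  `yh, yh' ≡ ± 1` (`BPt.yh_near`).  Same sign: `yh + yh'` is a unit, so
  `iB p σq = dmin (xh + xh') (yh + yh') = 0`; `D.ge (v (xh - xh')) (yh - yh')` because
  `(yh - yh')(yh + yh') = xh⁶ - xh'⁶`, so `iB p q = v (xh - xh')`; and
  `xh/yh - xh'/yh' = ((xh - xh') yh' + xh' (yh' - yh))/(yh yh')` has valuation `v (xh - xh')`
  because `D.ge (v (xh - xh') + 1) (xh' (yh' - yh))`.  Opposite signs: replace `q` by `σ q`
  (`σ (xh,yh) = (-xh,-yh)`).
  If `p = inf e`: `π p = 0`, `iE (π p - π q) = iE (π q) = max 0 (-v (x'²))/2 = -v x' = v xh'`, and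
  `iB (inf e) q = dmin xh' (e - yh')`, `iB (inf e) (σ q) = dmin xh' (e + yh')`: one of `e - yh'`,
  `e + yh'` is a unit and the other one has `D.ge (6 v xh')`.  Same for `q = inf e`.
  (`p, q` both `inf`: `π p = π q`, excluded.)
* mixed: `iE_sub_mix` (or `iE` of an integral point if one is `inf`), and both `iB` are `0`.
`iE_pi'_sub`: apply it to `p.swap`, `q.swap`: `σ (swap q) = swap (σ' q)` (cases) and `iB_swap`
(`p ≠ q` and `p ≠ σ' q` because `π' p ≠ π' q`).
`iE_pi`: `iE (π p) = iInf p` for `p = aff x y`; `iE (π' p) = iZero p` for `p.x ≠ 0`.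
-/

set_option autoImplicit false

namespace HB

variable {k F : Type} [Field k] [Field F] [Algebra k F] [CharZero k] [CharZero F] (D : DV k F)

omit [Algebra k F] [CharZero k] [CharZero F] in
private theorem aff_congr {x y x' y' : F} {h : y ^ 2 = x ^ 6 + 1} {h' : y' ^ 2 = x' ^ 6 + 1}
    (hx : x = x') (hy : y = y') : BPt.aff x y h = BPt.aff x' y' h' := by
  subst hx; subst hy; rfl

omit [Algebra k F] [CharZero k] [CharZero F] in
private theorem inf_congr {e e' : F} {h : e ^ 2 = 1} {h' : e' ^ 2 = 1}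
    (he : e = e') : BPt.inf e h = BPt.inf e' h' := by
  subst he; rfl

omit [CharZero F] in
theorem BPt.sig_swap (q : BPt F) : q.swap.sig = q.sig'.swap := by
  match q with
  | .aff x y h =>
    by_cases hx : x = 0
    · subst hx
      have h1 : (BPt.aff (0 : F) y h).swap = BPt.inf y (by rw [h]; ring) := by
        simp [BPt.swap]
      have h2 : (BPt.aff (0 : F) y h).sig'.swap = BPt.inf (-y) (by rw [neg_sq, h]; ring) := by
        simp [BPt.sig', BPt.iot, BPt.sig, BPt.swap]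
      rw [h1, h2]
      rfl
    · have h1 : (BPt.aff x y h).swap
          = BPt.aff x⁻¹ (y / x ^ 3) (by field_simp; rw [h]; ring) := by
        simp [BPt.swap, hx]
      have h2 : (BPt.aff x y h).sig'.swap
          = BPt.aff (-x)⁻¹ (-y / (-x) ^ 3) (by field_simp; rw [h]; ring) := by
        simp [BPt.sig', BPt.iot, BPt.sig, BPt.swap, hx]
      rw [h1, h2]
      change BPt.aff (-x⁻¹) (y / x ^ 3) _ = _
      refine aff_congr ?_ ?_
      · rw [inv_neg]
      · field_simp
  | .inf e h =>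
    have h1 : (BPt.inf e h).swap = BPt.aff 0 e (by rw [h]; ring) := rfl
    have h2 : (BPt.inf e h).sig'.swap = BPt.aff 0 (- -e) (by rw [neg_neg, h]; ring) := rfl
    rw [h1, h2]
    change BPt.aff (-0) e _ = _
    refine aff_congr ?_ ?_
    · rw [neg_zero]
    · rw [neg_neg]

private theorem mkE_congr {x y x' y' : F} {h : y ^ 2 = x ^ 3 + 1} {h' : y' ^ 2 = x' ^ 3 + 1}
    (hx : x = x') (hy : y = y') : mkE x y h = mkE x' y' h' := by
  subst hx; subst hy; rfl

private theorem pi_aff_ne (x y : F) (h : y ^ 2 = x ^ 6 + 1) : BPt.pi (.aff x y h) ≠ 0 :=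
  mkE_ne_zero (x ^ 2) y (by rw [h]; ring)

private theorem pi_sig (q : BPt F) : q.sig.pi = q.pi := by
  match q with
  | .aff x y h =>
    exact mkE_congr (h := by rw [h]; ring) (h' := by rw [h]; ring) (neg_sq x) rfl
  | .inf e h => rfl

omit [Algebra k F] [CharZero k] [CharZero F] in
private theorem xh_sig (q : BPt F) : q.sig.xh = -q.xh := by
  match q with
  | .aff x y h =>
    change (-x)⁻¹ = -x⁻¹
    rw [inv_neg]
  | .inf e h =>
    change (0 : F) = -0
    rw [neg_zero]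

omit [Algebra k F] [CharZero k] [CharZero F] in
private theorem yh_sig (q : BPt F) : q.sig.yh = -q.yh := by
  match q with
  | .aff x y h =>
    change y / (-x) ^ 3 = -(y / x ^ 3)
    by_cases hx : x = 0
    · subst hx; simp
    · field_simp
  | .inf e h => rfl

omit [CharZero k] [CharZero F] in
private theorem fin_sig (q : BPt F) : q.sig.IsFin D ↔ q.IsFin D := by
  match q with
  | .aff x y h =>
    change D.ge 0 (-x) ↔ D.ge 0 x
    constructor
    · intro h'
      have := D.ge_neg h'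
      rwa [neg_neg] at this
    · exact D.ge_neg
  | .inf e h => exact Iff.rfl

omit [CharZero k] [CharZero F] in
private theorem dmin_unit_right {a c : F} (ha : D.ge 0 a) (hc : c ≠ 0) (h : D.v c = 0) :
    D.dmin a c = 0 := by
  unfold DV.dmin
  by_cases h0 : a = 0
  · rw [if_pos h0, h]
  · rw [if_neg h0, if_neg hc, h]
    exact min_eq_right (D.le_of_ge h0 ha)

omit [CharZero k] [CharZero F] in
private theorem dmin_left {a c : F} (ha : a ≠ 0) (h : D.ge (D.v a) c) :
    D.dmin a c = D.v a := by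
  unfold DV.dmin
  rw [if_neg ha]
  by_cases h0 : c = 0
  · rw [if_pos h0]
  · rw [if_neg h0]
    exact min_eq_left (D.le_of_ge h0 h)

omit [CharZero k] in
private theorem unit_of_sq {x y : F} (h : y ^ 2 = x ^ 6 + 1) (hx : D.ge 1 x) :
    y ≠ 0 ∧ D.v y = 0 := by
  have h1 : D.ge 1 (x ^ 6) := by
    have h2 : x ^ 6 = x * x ^ 5 := by ring
    rw [h2]
    have := D.ge_mul hx (D.ge_pow (D.ge_mono (by norm_num : (0 : ℤ) ≤ 1) hx) 5)
    simpa using this
  have h3 : (1 : F) + x ^ 6 ≠ 0 ∧ D.v (1 + x ^ 6) = D.v 1 := by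
    refine D.add_eq_left one_ne_zero ?_
    rw [D.one]
    simpa using h1
  rw [D.one, add_comm, ← h] at h3
  have hy : y ≠ 0 := by
    rintro rfl
    exact h3.1 (by ring)
  refine ⟨hy, ?_⟩
  have h4 := h3.2
  rw [D.pow hy] at h4
  push_cast at h4
  omega

/-- the finite case -/
private theorem core_fin {x y x' y' : F} (h : y ^ 2 = x ^ 6 + 1) (h' : y' ^ 2 = x' ^ 6 + 1)
    (hx : D.ge 0 x) (hx' : D.ge 0 x') (hy : D.ge 0 y) (hy' : D.ge 0 y')
    (hne : ¬ (x ^ 2 = x' ^ 2 ∧ y = y')) :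
    D.dmin (x ^ 2 - x' ^ 2) (y - y') = D.dmin (x - x') (y - y') + D.dmin (x + x') (y - y') := by
  have ha : D.ge 0 (x - x') := D.ge_sub hx hx'
  have ha' : D.ge 0 (x + x') := D.ge_add hx hx'
  have hc : D.ge 0 (y - y') := D.ge_sub hy hy'
  have e1 : x ^ 2 - x' ^ 2 = (x - x') * (x + x') := by ring
  rw [e1]
  by_cases hc0 : y - y' = 0
  · rw [hc0, D.dmin_zero_right, D.dmin_zero_right, D.dmin_zero_right]
    have h1 : (x - x') * (x + x') ≠ 0 := by
      intro h2
      apply hne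
      exact ⟨by linear_combination h2, sub_eq_zero.1 hc0⟩
    exact D.mul (left_ne_zero_of_mul h1) (right_ne_zero_of_mul h1)
  have hc1 := D.le_of_ge hc0 hc
  rcases hc1.eq_or_lt with hc2 | hc2
  · rw [dmin_unit_right D (by simpa using D.ge_mul ha ha') hc0 hc2.symm,
      dmin_unit_right D ha hc0 hc2.symm, dmin_unit_right D ha' hc0 hc2.symm]
    rfl
  by_cases hu : x - x' ≠ 0 ∧ D.v (x - x') = 0
  · obtain ⟨hu1, hu2⟩ := hu
    have h1 : D.dmin (x - x') (y - y') = 0 := by
      rw [dmin_left D hu1 (by rw [hu2]; exact hc), hu2]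
    rw [h1, zero_add]
    unfold DV.dmin
    by_cases h0 : x + x' = 0
    · simp [h0]
    · rw [if_neg (mul_ne_zero hu1 h0), if_neg h0, if_neg hc0, if_neg hc0, D.mul hu1 h0, hu2,
        zero_add]
  by_cases hu' : x + x' ≠ 0 ∧ D.v (x + x') = 0
  · obtain ⟨hu1, hu2⟩ := hu'
    have h1 : D.dmin (x + x') (y - y') = 0 := by
      rw [dmin_left D hu1 (by rw [hu2]; exact hc), hu2]
    rw [h1, add_zero]
    unfold DV.dmin
    by_cases h0 : x - x' = 0
    · simp [h0]
    · rw [if_neg (mul_ne_zero h0 hu1), if_neg h0, if_neg hc0, if_neg hc0, D.mul h0 hu1, hu2,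
        add_zero]
  have g1 : D.ge 1 (x - x') := by
    by_cases h0 : x - x' = 0
    · exact Or.inl h0
    · right
      have h1 := D.le_of_ge h0 ha
      have h2 : D.v (x - x') ≠ 0 := fun h3 => hu ⟨h0, h3⟩
      omega
  have g1' : D.ge 1 (x + x') := by
    by_cases h0 : x + x' = 0
    · exact Or.inl h0
    · right
      have h1 := D.le_of_ge h0 ha'
      have h2 : D.v (x + x') ≠ 0 := fun h3 => hu' ⟨h0, h3⟩
      omega
  have hhalf : D.ge 0 ((2 : F)⁻¹) := by
    right
    rw [D.inv two_ne_zero, D.ofNat]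
    norm_num
  have gx : D.ge 1 x := by
    have h1 := D.ge_mul (D.ge_add g1 g1') hhalf
    have h2 : (x - x' + (x + x')) * (2 : F)⁻¹ = x := by field_simp; ring
    rw [h2, add_zero] at h1
    exact h1
  have gx' : D.ge 1 x' := by
    have h1 := D.ge_sub gx g1
    have h2 : x - (x - x') = x' := by ring
    rwa [h2] at h1
  obtain ⟨y0, vy⟩ := unit_of_sq D h gx
  have hb : y + y' ≠ 0 ∧ D.v (y + y') = 0 := by
    have h1 : D.v (2 * y) = 0 := by rw [D.mul two_ne_zero y0, D.ofNat, vy]; rfl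
    have h2 : 2 * y + -(y - y') ≠ 0 ∧ D.v (2 * y + -(y - y')) = D.v (2 * y) := by
      refine D.add_eq_left (mul_ne_zero two_ne_zero y0) ?_
      rw [h1]
      exact D.ge_neg (Or.inr (by omega))
    have h3 : 2 * y + -(y - y') = y + y' := by ring
    rw [h3, h1] at h2
    exact h2
  have hid : (y + y') * (y - y') = (x - x') * (x + x') * (x ^ 4 + x ^ 2 * x' ^ 2 + x' ^ 4) := by
    linear_combination h - h'
  have hne0 : (x - x') * (x + x') * (x ^ 4 + x ^ 2 * x' ^ 2 + x' ^ 4) ≠ 0 := by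
    rw [← hid]; exact mul_ne_zero hb.1 hc0
  have hd0 := right_ne_zero_of_mul hne0
  have haa := left_ne_zero_of_mul hne0
  have ha0 := left_ne_zero_of_mul haa
  have ha0' := right_ne_zero_of_mul haa
  have hd : D.ge 0 (x ^ 4 + x ^ 2 * x' ^ 2 + x' ^ 4) := by
    refine D.ge_add (D.ge_add (D.ge_pow hx 4) ?_) (D.ge_pow hx' 4)
    simpa using D.ge_mul (D.ge_pow hx 2) (D.ge_pow hx' 2)
  have hv := congrArg D.v hid
  rw [D.mul hb.1 hc0, D.mul haa hd0, D.mul ha0 ha0', hb.2, zero_add] at hv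
  have hd1 := D.le_of_ge hd0 hd
  have v1 := D.le_of_ge ha0 g1
  have v1' := D.le_of_ge ha0' g1'
  rw [dmin_left D haa (Or.inr (by rw [D.mul ha0 ha0']; omega)), dmin_left D ha0 (Or.inr (by omega)),
    dmin_left D ha0' (Or.inr (by omega)), D.mul ha0 ha0']

/-- the case of two points near infinity, same sign -/
private theorem core_inf {u w u' w' : F} (h : w ^ 2 = u ^ 6 + 1) (h' : w' ^ 2 = u' ^ 6 + 1)
    (hu : D.ge 1 u) (hu' : D.ge 1 u') (hs : w + w' ≠ 0) (hsv : D.v (w + w') = 0)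
    (hne : u - u' ≠ 0 ∨ w - w' ≠ 0) :
    D.dmin (u - u') (w - w') = D.v (u / w - u' / w') ∧ D.dmin (u + u') (w + w') = 0 := by
  obtain ⟨w0, vw⟩ := unit_of_sq D h hu
  obtain ⟨w0', vw'⟩ := unit_of_sq D h' hu'
  have hid : (w + w') * (w - w') = (u - u') *
      (u ^ 5 + u ^ 4 * u' + u ^ 3 * u' ^ 2 + u ^ 2 * u' ^ 3 + u * u' ^ 4 + u' ^ 5) := by
    linear_combination h - h'
  have g0 : D.ge 0 u := D.ge_mono (by norm_num) hu
  have g0' : D.ge 0 u' := D.ge_mono (by norm_num) hu'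
  have hd : D.ge 1 (u ^ 5 + u ^ 4 * u' + u ^ 3 * u' ^ 2 + u ^ 2 * u' ^ 3 + u * u' ^ 4
      + u' ^ 5) := by
    have m1 : ∀ (i j : ℕ), D.ge 1 (u * (u ^ i * u' ^ j)) := fun i j => by
      simpa using D.ge_mul hu (D.ge_mul (D.ge_pow g0 i) (D.ge_pow g0' j))
    have m2 : ∀ (i j : ℕ), D.ge 1 (u' * (u ^ i * u' ^ j)) := fun i j => by
      simpa using D.ge_mul hu' (D.ge_mul (D.ge_pow g0 i) (D.ge_pow g0' j))
    have e : u ^ 5 + u ^ 4 * u' + u ^ 3 * u' ^ 2 + u ^ 2 * u' ^ 3 + u * u' ^ 4 + u' ^ 5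
        = u * (u ^ 4 * u' ^ 0) + u * (u ^ 3 * u' ^ 1) + u * (u ^ 2 * u' ^ 2)
          + u * (u ^ 1 * u' ^ 3) + u * (u ^ 0 * u' ^ 4) + u' * (u ^ 0 * u' ^ 4) := by ring
    rw [e]
    exact D.ge_add (D.ge_add (D.ge_add (D.ge_add (D.ge_add (m1 _ _) (m1 _ _)) (m1 _ _))
      (m1 _ _)) (m1 _ _)) (m2 _ _)
  have huu : u - u' ≠ 0 := by
    intro h0
    rw [h0, zero_mul] at hid
    rcases mul_eq_zero.1 hid with h1 | h1
    · exact hs h1
    · rcases hne with h2 | h2
      · exact h2 h0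
      · exact h2 h1
  have hww : D.ge (D.v (u - u') + 1) (w - w') := by
    by_cases h0 : w - w' = 0
    · exact Or.inl h0
    · right
      have hne0 : (u - u') *
        (u ^ 5 + u ^ 4 * u' + u ^ 3 * u' ^ 2 + u ^ 2 * u' ^ 3 + u * u' ^ 4 + u' ^ 5) ≠ 0 := by
        rw [← hid]; exact mul_ne_zero hs h0
      have hd0 := right_ne_zero_of_mul hne0
      have hv := congrArg D.v hid
      rw [D.mul hs h0, D.mul huu hd0, hsv, zero_add] at hv
      have := D.le_of_ge hd0 hd
      omega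
  refine ⟨?_, dmin_unit_right D (D.ge_add g0 g0') hs hsv⟩
  rw [dmin_left D huu (D.ge_mono (by omega) hww)]
  have e : u / w - u' / w' = ((u - u') * w' + u' * (w' - w)) / (w * w') := by
    field_simp
    ring
  have h1 : (u - u') * w' ≠ 0 := mul_ne_zero huu w0'
  have v1 : D.v ((u - u') * w') = D.v (u - u') := by rw [D.mul huu w0', vw', add_zero]
  have h2 : (u - u') * w' + u' * (w' - w) ≠ 0 ∧
      D.v ((u - u') * w' + u' * (w' - w)) = D.v ((u - u') * w') := by
    refine D.add_eq_left h1 ?_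
    rw [v1]
    have h3 := D.ge_mul g0' (D.ge_neg hww)
    rw [zero_add, neg_sub] at h3
    exact h3
  rw [e, D.div h2.1 (mul_ne_zero w0 w0'), h2.2, v1, D.mul w0 w0', vw, vw']
  ring

omit [CharZero k] [CharZero F] in
private theorem nf_v {p : BPt F} {x y : F} {h : y ^ 2 = x ^ 6 + 1} (hp : p = .aff x y h)
    (hn : ¬ p.IsFin D) : x ≠ 0 ∧ D.v x < 0 := by
  subst hp
  have h1 : ¬ D.ge 0 x := hn
  unfold DV.ge at h1
  push Not at h1
  exact h1

omit [CharZero k] [CharZero F] in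
private theorem v_xsq {x : F} : D.v (x ^ 2) = 2 * D.v x := by
  by_cases hx : x = 0
  · subst hx
    rw [zero_pow two_ne_zero, D.zero, mul_zero]
  · rw [D.pow hx]; norm_num

private theorem iE_nf {p q : BPt F} (h : p.pi ≠ q.pi) (hp : ¬ p.IsFin D) (hq : ¬ q.IsFin D) :
    D.iE (p.pi - q.pi) = D.v (p.xh / p.yh - q.xh / q.yh) := by
  have key : ∀ (x y : F) (hh : y ^ 2 = x ^ 6 + 1), ¬ (BPt.aff x y hh).IsFin D →
      D.iE (BPt.pi (.aff x y hh)) = D.v (x⁻¹ / (y / x ^ 3)) := by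
    intro x y hh hn
    obtain ⟨hx, vx⟩ := nf_v D rfl hn
    have hy := (BPt.yh_of_not_fin D _ hn)
    have hy1 : y / x ^ 3 ≠ 0 := hy.1
    have hy2 : D.v (y / x ^ 3) = 0 := hy.2
    rw [D.div (inv_ne_zero hx) hy1, hy2, D.inv hx]
    change max 0 (-(D.v (x ^ 2))) / 2 = _
    rw [v_xsq, max_eq_right (by omega)]
    omega
  match p, q, h, hp, hq with
  | .aff x y h1, .aff x' y' h2, h, hp, hq =>
    obtain ⟨hx, vx⟩ := nf_v D rfl hp
    obtain ⟨hx', vx'⟩ := nf_v D rfl hq
    have hy1 : y / x ^ 3 ≠ 0 := (BPt.yh_of_not_fin D _ hp).1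
    have hy1' : y' / x' ^ 3 ≠ 0 := (BPt.yh_of_not_fin D _ hq).1
    have hy : y ≠ 0 := by
      rintro rfl
      exact hy1 (zero_div _)
    have hy' : y' ≠ 0 := by
      rintro rfl
      exact hy1' (zero_div _)
    have e := D.iE_sub_inf (P := BPt.pi (.aff x y h1)) (Q := BPt.pi (.aff x' y' h2))
      (pi_aff_ne _ _ _) (pi_aff_ne _ _ _) h
      (by change D.v (x ^ 2) < 0; rw [v_xsq]; omega)
      (by change D.v (x' ^ 2) < 0; rw [v_xsq]; omega)
    rw [e]
    change D.v (x ^ 2 / y - x' ^ 2 / y') = D.v (x⁻¹ / (y / x ^ 3) - x'⁻¹ / (y' / x' ^ 3))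
    congr 1
    have e1 : x⁻¹ / (y / x ^ 3) = x ^ 2 / y := by field_simp
    have e2 : x'⁻¹ / (y' / x' ^ 3) = x' ^ 2 / y' := by field_simp
    rw [e1, e2]
  | .aff x y h1, .inf e h2, h, hp, hq =>
    change D.iE (BPt.pi (.aff x y h1) - 0) = D.v (x⁻¹ / (y / x ^ 3) - 0 / e)
    rw [sub_zero, zero_div, sub_zero]
    exact key x y h1 hp
  | .inf e h2, .aff x y h1, h, hp, hq =>
    change D.iE (0 - BPt.pi (.aff x y h1)) = D.v (0 / e - x⁻¹ / (y / x ^ 3))
    rw [zero_sub, zero_div, zero_sub, D.neg, D.iE_neg]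
    exact key x y h1 hq
  | .inf e h1, .inf e' h2, h, hp, hq => exact absurd rfl h

theorem DV.iE_pi_sub {p q : BPt F} (h : p.pi ≠ q.pi) :
    D.iE (p.pi - q.pi) = D.iB p q + D.iB p q.sig := by
  have hpq : p ≠ q := fun h' => h (by rw [h'])
  have hpq' : p ≠ q.sig := fun h' => h (by rw [h', pi_sig])
  by_cases hp : p.IsFin D
  · by_cases hq : q.IsFin D
    · -- both finite
      have hq' := (fin_sig D q).2 hq
      unfold DV.iB
      rw [if_pos ⟨hp, hq⟩, if_pos ⟨hp, hq'⟩]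
      match p, q, h, hp, hq, hq' with
      | .aff x y h1, .aff x' y' h2, h, hp, hq, hq' =>
        have e := D.iE_sub_int (P := BPt.pi (.aff x y h1)) (Q := BPt.pi (.aff x' y' h2))
          (pi_aff_ne _ _ _) (pi_aff_ne _ _ _) h (D.ge_pow hp 2) (D.ge_pow hq 2)
        rw [e]
        change D.dmin (x ^ 2 - x' ^ 2) (y - y')
          = D.dmin (x - x') (y - y') + D.dmin (x - -x') (y - y')
        rw [sub_neg_eq_add]
        refine core_fin D h1 h2 hp hq (BPt.ge_y D _ hp) (BPt.ge_y D _ hq) ?_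
        rintro ⟨e1, e2⟩
        apply h
        exact mkE_congr (h := by rw [h1]; ring) (h' := by rw [h2]; ring) e1 e2
      | .inf e h1, _, h, hp, hq, hq' => exact absurd hp id
      | .aff _ _ _, .inf e h1, h, hp, hq, hq' => exact absurd hq id
    · -- p finite, q not
      have hq' : ¬ q.sig.IsFin D := fun h' => hq ((fin_sig D q).1 h')
      have e1 : D.iB p q = 0 := by
        unfold DV.iB
        rw [if_neg (fun h' => hq h'.2), if_neg (fun h' => h'.1 hp)]
      have e2 : D.iB p q.sig = 0 := by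
        unfold DV.iB
        rw [if_neg (fun h' => hq' h'.2), if_neg (fun h' => h'.1 hp)]
      rw [e1, e2]
      match p, q, h, hp, hq with
      | .aff x y h1, .aff x' y' h2, h, hp, hq =>
        obtain ⟨hx', vx'⟩ := nf_v D rfl hq
        rw [D.iE_sub_comm]
        exact (D.iE_sub_mix (P := BPt.pi (.aff x' y' h2)) (Q := BPt.pi (.aff x y h1))
          (pi_aff_ne _ _ _) (pi_aff_ne _ _ _)
          (by change D.v (x' ^ 2) < 0; rw [v_xsq]; omega) (D.ge_pow hp 2)).1
      | .aff x y h1, .inf e h2, h, hp, hq =>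
        change D.iE (BPt.pi (.aff x y h1) - 0) = 0 + 0
        rw [sub_zero]
        exact D.iE_of_ge (D.ge_pow hp 2)
      | .inf e h1, _, h, hp, hq => exact absurd hp id
  · by_cases hq : q.IsFin D
    · have hq' := (fin_sig D q).2 hq
      have e1 : D.iB p q = 0 := by
        unfold DV.iB
        rw [if_neg (fun h' => hp h'.1), if_neg (fun h' => h'.2 hq)]
      have e2 : D.iB p q.sig = 0 := by
        unfold DV.iB
        rw [if_neg (fun h' => hp h'.1), if_neg (fun h' => h'.2 hq')]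
      rw [e1, e2]
      match p, q, h, hp, hq with
      | .aff x y h1, .aff x' y' h2, h, hp, hq =>
        obtain ⟨hx, vx⟩ := nf_v D rfl hp
        exact (D.iE_sub_mix (P := BPt.pi (.aff x y h1)) (Q := BPt.pi (.aff x' y' h2))
          (pi_aff_ne _ _ _) (pi_aff_ne _ _ _)
          (by change D.v (x ^ 2) < 0; rw [v_xsq]; omega) (D.ge_pow hq 2)).1
      | .inf e h2, .aff x y h1, h, hp, hq =>
        change D.iE (0 - BPt.pi (.aff x y h1)) = 0 + 0
        rw [zero_sub, D.iE_neg]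
        exact D.iE_of_ge (D.ge_pow hq 2)
      | .aff _ _ _, .inf e h1, h, hp, hq => exact absurd hq id
      | .inf _ _, .inf e h1, h, hp, hq => exact absurd hq id
    · -- both near infinity
      have hq' : ¬ q.sig.IsFin D := fun h' => hq ((fin_sig D q).1 h')
      rw [iE_nf D h hp hq]
      unfold DV.iB
      rw [if_neg (fun h' => hp h'.1), if_pos ⟨hp, hq⟩, if_neg (fun h' => hp h'.1),
        if_pos ⟨hp, hq'⟩, xh_sig, yh_sig, sub_neg_eq_add, sub_neg_eq_add]
      have w2 := BPt.yh_sq D p hp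
      have w2' := BPt.yh_sq D q hq
      have gu := BPt.xh_of_not_fin D p hp
      have gu' := BPt.xh_of_not_fin D q hq
      have hne := BPt.coord_ne_inf D hpq hp hq
      have hne' := BPt.coord_ne_inf D hpq' hp hq'
      rw [xh_sig, yh_sig, sub_neg_eq_add, sub_neg_eq_add] at hne'
      set u := p.xh
      set w := p.yh
      set u' := q.xh
      set w' := q.yh
      have two : D.v (2 : F) = 0 := D.ofNat
      have same : (w + w' ≠ 0 ∧ D.v (w + w') = 0) →
          D.v (u / w - u' / w') = D.dmin (u - u') (w - w') + D.dmin (u + u') (w + w') := by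
        rintro ⟨h1, h2⟩
        obtain ⟨h3, h4⟩ := core_inf D w2 w2' gu gu' h1 h2 hne
        rw [h3, h4, add_zero]
      have opp : (w - w' ≠ 0 ∧ D.v (w - w') = 0) →
          D.v (u / w - u' / w') = D.dmin (u - u') (w - w') + D.dmin (u + u') (w + w') := by
        rintro ⟨h1, h2⟩
        have w2'' : (-w') ^ 2 = (-u') ^ 6 + 1 := by rw [neg_sq, w2']; ring
        obtain ⟨h3, h4⟩ := core_inf D w2 w2'' gu (D.ge_neg gu')
          (by rwa [← sub_eq_add_neg]) (by rwa [← sub_eq_add_neg])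
          (by rwa [sub_neg_eq_add, sub_neg_eq_add])
        rw [sub_neg_eq_add, sub_neg_eq_add, neg_div_neg_eq] at h3
        rw [← sub_eq_add_neg, ← sub_eq_add_neg] at h4
        rw [h3, h4, zero_add]
      have shift : ∀ (c a : F), c ≠ 0 → D.v c = 0 → D.ge 6 a → c + a ≠ 0 ∧ D.v (c + a) = 0 := by
        intro c a hc vc ha
        have := D.add_eq_left hc (y := a) (by rw [vc]; exact D.ge_mono (by norm_num) ha)
        rw [vc] at this
        exact this
      have two' : D.v (-2 : F) = 0 := by rw [D.neg]; exact two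
      rcases BPt.yh_near D p hp with ⟨a1, -, -⟩ | ⟨a1, -, -⟩ <;>
        rcases BPt.yh_near D q hq with ⟨b1, -, -⟩ | ⟨b1, -, -⟩
      · apply same
        have e : w + w' = 2 + ((w - 1) + (w' - 1)) := by ring
        rw [e]
        exact shift 2 _ two_ne_zero two (D.ge_add a1 b1)
      · apply opp
        have e : w - w' = 2 + ((w - 1) - (w' + 1)) := by ring
        rw [e]
        exact shift 2 _ two_ne_zero two (D.ge_sub a1 b1)
      · apply opp
        have e : w - w' = -2 + ((w + 1) - (w' - 1)) := by ring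
        rw [e]
        exact shift (-2) _ (neg_ne_zero.2 two_ne_zero) two' (D.ge_sub a1 b1)
      · apply same
        have e : w + w' = -2 + ((w + 1) + (w' + 1)) := by ring
        rw [e]
        exact shift (-2) _ (neg_ne_zero.2 two_ne_zero) two' (D.ge_add a1 b1)

theorem DV.iE_pi'_sub {p q : BPt F} (h : p.pi' ≠ q.pi') :
    D.iE (p.pi' - q.pi') = D.iB p q + D.iB p q.sig' := by
  have hpq : p ≠ q := fun h' => h (by rw [h'])
  have hpq' : p ≠ q.sig' := by
    intro h'
    apply h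
    rw [h']
    change q.sig'.swap.pi = q.swap.pi
    rw [← BPt.sig_swap, pi_sig]
  have e := D.iE_pi_sub (p := p.swap) (q := q.swap) h
  rw [BPt.sig_swap, D.iB_swap hpq, D.iB_swap hpq'] at e
  exact e

theorem DV.iE_pi {x y : F} (h : y ^ 2 = x ^ 6 + 1) :
    D.iE (BPt.pi (.aff x y h)) = D.iInf (.aff x y h) := by
  change max 0 (-(D.v (x ^ 2))) / 2 = max 0 (-(D.v x))
  rw [v_xsq]
  omega

theorem DV.iE_pi' {x y : F} (h : y ^ 2 = x ^ 6 + 1) (hx : x ≠ 0) :
    D.iE (BPt.pi' (.aff x y h)) = D.iZero (.aff x y h) := by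
  have h1 : (BPt.aff x y h).swap = BPt.aff x⁻¹ (y / x ^ 3) (by field_simp; rw [h]; ring) := by
    simp [BPt.swap, hx]
  unfold BPt.pi'
  rw [h1]
  change max 0 (-(D.v (x⁻¹ ^ 2))) / 2 = max 0 (D.v x)
  rw [v_xsq, D.inv hx]
  omega

end HB
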