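import Pool.Agent.HB.B.B5
import Pool.Agent.HB.B.Pi
import Pool.Agent.HB.B.I34

/-!
# HB-B-I6: the function `Ψ_q(p) = G(π p, s) G(π' p, s') / (x_p + x_q)`, `3 s = π q`, `3 s' = π' q`

`v Ψ = 2 i(p,q) + 3 i(p,∞) + 2 i(p,{x=0}) - 3 [i(π p - s) + i(π' p - s')] - 6 [i(s) + i(s')] + i(q,∞)`.

Plan: `v_eG` for `(π p, s)` and `(π' p, s')`; `e - 3 s = π p - π q`; `iE_pi_sub`, `iE_pi'_sub`,
`iE_pi`, `iE_pi'`; `x_p + x_q = x_p - x(σ q)`, `v_x_sub` for `p` and `σ q`: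
`v (x_p + x_q) = i(p,σ q) + i(p,ι σ q) - i(p,∞) - i(q,∞)`, `ι σ = σ'` (`aff (-x) (-y)`).
The hypotheses of `v_eG` (`π p ≠ s, 2s, 3s`, nonzero) are assumed.
-/

set_option autoImplicit false

namespace HB

variable {k F : Type} [Field k] [Field F] [Algebra k F] [CharZero k] [CharZero F] (D : DV k F)

/-- The function `Ψ_q(p)`. -/
noncomputable def ePsi (p q : BPt F) (s s' : EPt F) : F :=
  eG p.pi s * eG p.pi' s' / (p.x + q.x)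

theorem DV.v_ePsi {x y x' y' : F} (h : y ^ 2 = x ^ 6 + 1) (h' : y' ^ 2 = x' ^ 6 + 1)
    (hx0 : x ≠ 0) (hx0' : x' ≠ 0) (hxx : x ≠ -x') {s s' : EPt F}
    (hs : (3 : ℤ) • s = BPt.pi (.aff x' y' h')) (hs' : (3 : ℤ) • s' = BPt.pi' (.aff x' y' h'))
    (h0 : s ≠ 0) (h0' : s' ≠ 0)
    (h1 : BPt.pi (.aff x y h) ≠ s) (h2 : BPt.pi (.aff x y h) ≠ (2 : ℤ) • s)
    (h3 : BPt.pi (.aff x y h) ≠ BPt.pi (.aff x' y' h'))
    (h1' : BPt.pi' (.aff x y h) ≠ s') (h2' : BPt.pi' (.aff x y h) ≠ (2 : ℤ) • s')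
    (h3' : BPt.pi' (.aff x y h) ≠ BPt.pi' (.aff x' y' h')) :
    ePsi (.aff x y h) (.aff x' y' h') s s' ≠ 0 ∧
      D.v (ePsi (.aff x y h) (.aff x' y' h') s s') =
        2 * D.iB (.aff x y h) (.aff x' y' h') + 3 * D.iInf (.aff x y h) + 2 * D.iZero (.aff x y h)
        - 3 * (D.iE (BPt.pi (.aff x y h) - s) + D.iE (BPt.pi' (.aff x y h) - s'))
        - 6 * (D.iE s + D.iE s') + D.iInf (.aff x' y' h') := by
  have hp0 : BPt.pi (.aff x y h) ≠ 0 := mkE_ne_zero (x ^ 2) y (by rw [h]; ring)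
  have hp0' : BPt.pi' (.aff x y h) ≠ 0 := by
    have e : BPt.swap (.aff x y h) = .aff x⁻¹ (y / x ^ 3) (by field_simp; rw [h]; ring) := by
      simp only [BPt.swap, dif_neg hx0]
    unfold BPt.pi'
    rw [e]
    exact mkE_ne_zero (x⁻¹ ^ 2) (y / x ^ 3) (by field_simp; rw [h]; ring)
  obtain ⟨g1, v1⟩ := D.v_eG hp0 h0 h1 h2 (by rwa [hs])
  obtain ⟨g2, v2⟩ := D.v_eG hp0' h0' h1' h2' (by rwa [hs'])
  rw [hs, D.iE_pi_sub h3, D.iE_pi h] at v1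
  rw [hs', D.iE_pi'_sub h3', D.iE_pi' h hx0] at v2
  have hm : y' ^ 2 = (-x') ^ 6 + 1 := by rw [h']; ring
  have v3 := D.v_x_sub h hm hxx
  have e1 : (BPt.aff (-x') y' hm) = BPt.sig (.aff x' y' h') := rfl
  have e2 : BPt.iot (BPt.aff (-x') y' hm) = BPt.sig' (.aff x' y' h') := rfl
  have e3 : D.iInf (BPt.aff (-x') y' hm) = D.iInf (.aff x' y' h') := by
    unfold DV.iInf
    change max 0 (-(D.v (-x'))) = max 0 (-(D.v x'))
    rw [D.neg]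
  rw [e2, e3, e1, sub_neg_eq_add] at v3
  have hne : x + x' ≠ 0 := fun h4 => hxx (eq_neg_of_add_eq_zero_left h4)
  have hm1 := mul_ne_zero g1 g2
  refine ⟨div_ne_zero hm1 hne, ?_⟩
  change D.v (eG (BPt.pi (.aff x y h)) s * eG (BPt.pi' (.aff x y h)) s' / (x + x')) = _
  rw [D.div hm1 hne, D.mul g1 g2, v1, v2, v3]
  ring

end HB
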