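import Pool.Agent.HB.B.Triple

/-!
# HB-B-NdSelf: `3 Q ≠ Q'`, `3 Q ≠ 2 Q'` if `X(Q') = c X(Q)`, `c³ = 1`, for non-constant `Q`

Plan.  `k` algebraically closed; `X := eX Q` transcendental over `k`; `Q, Q' ≠ 0` (`eX Q' = c X ≠ 0`).
`3 Q ≠ 0`: otherwise `3X⁴ + 12X = 0`.
(a) `3 Q = Q'`: `eX_three`: `c X (3X⁴+12X)² = X⁹ - 96X⁶ + 48X³ + 64`, i.e. `p(X) = 0` with
`p = (1 - 9c) T⁹ + ...`, `1 - 9c ≠ 0` because `c³ = 1` (`729 c³ = 729 ≠ 1`).  So `X` is algebraic.
(b) `3 Q = 2 Q'`: `eY Q' ≠ 0` (else `c³X³ = X³ = -1`), `eX_two` for `Q'`: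
`eX(2Q') 4 (X³ + 1) = c⁴X⁴ - 8cX = c (X⁴ - 8X)`; with `eX_three`:
`4 (X³+1)(X⁹ - 96X⁶ + 48X³ + 64) = c (X⁴ - 8X)(3X⁴+12X)²`, leading coefficient `4 - 9c ≠ 0`
(`c³ = 1`, `64 ≠ 729`).
Use `transcendental_iff` : no nonzero polynomial over `k` kills `X`; look at the coefficient of
degree 9 resp. 12 (`Polynomial.coeff`, `compute_degree`).
-/

set_option autoImplicit false

namespace HB

variable {k F : Type} [Field k] [Field F] [Algebra k F] [CharZero k] [CharZero F]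

omit [CharZero k] [CharZero F] in
private theorem nd_false {x : F} (hx : Transcendental k x) (p : Polynomial k)
    (hp : Polynomial.aeval x p = 0) (h0 : p.eval 0 ≠ 0) : False := by
  have h1 := transcendental_iff.1 hx p hp
  rw [h1, Polynomial.eval_zero] at h0
  exact h0 rfl

theorem three_ne_self {Q Q' : EPt F} (c : k) (hc : c ^ 3 = 1) (hQ : Transcendental k (eX Q))
    (h : eX Q' = algebraMap k F c * eX Q) : (3 : ℤ) • Q ≠ Q' ∧ (3 : ℤ) • Q ≠ (2 : ℤ) • Q' := by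
  have hX0 : eX Q ≠ 0 := by
    intro h0
    rw [h0] at hQ
    exact hQ isAlgebraic_zero
  have hc0 : algebraMap k F c ≠ 0 := by
    intro h0
    rw [map_eq_zero] at h0
    rw [h0] at hc
    norm_num at hc
  have hcF : algebraMap k F c ^ 3 = 1 := by
    rw [← map_pow, hc, map_one]
  have hQ0 : Q ≠ 0 := by
    rintro rfl
    exact hX0 rfl
  have hQ'0 : Q' ≠ 0 := by
    rintro rfl
    rw [eX_zero] at h
    exact mul_ne_zero hc0 hX0 h.symm
  have h3 : (3 : ℤ) • Q ≠ 0 := by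
    intro h3
    rw [three_eq_zero_iff hQ0] at h3
    have h4 : 3 * eX Q ^ 3 + 12 = 0 := by
      have h5 : eX Q * (3 * eX Q ^ 3 + 12) = 0 := by linear_combination h3
      exact (mul_eq_zero.1 h5).resolve_left hX0
    refine nd_false hQ (3 * Polynomial.X ^ 3 + 12) ?_ ?_
    · simp only [map_add, map_mul, map_pow, Polynomial.aeval_X, map_ofNat]
      exact h4
    · simp
  have h4 := eX_three hQ0 h3
  refine ⟨fun h5 => ?_, fun h5 => ?_⟩
  · rw [h5, h] at h4
    refine nd_false hQ (Polynomial.C c * Polynomial.X * (3 * Polynomial.X ^ 4 +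
      12 * Polynomial.X) ^ 2 - (Polynomial.X ^ 9 - 96 * Polynomial.X ^ 6 +
      48 * Polynomial.X ^ 3 + 64)) ?_ ?_
    · simp only [map_sub, map_add, map_mul, map_pow, Polynomial.aeval_C, Polynomial.aeval_X,
        map_ofNat]
      linear_combination h4
    · simp
  · have hY : eY Q' ≠ 0 := by
      intro h6
      have h7 := eY_sq hQ'0
      rw [h6, h] at h7
      refine nd_false hQ (Polynomial.X ^ 3 + 1) ?_ ?_
      · simp only [map_add, map_pow, Polynomial.aeval_X, map_one]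
        linear_combination -h7 - eX Q ^ 3 * hcF
      · simp
    have h6 := eX_two hQ'0 hY
    rw [← h5, h] at h6
    refine nd_false hQ (Polynomial.C c * (Polynomial.X ^ 4 - 8 * Polynomial.X) *
      (3 * Polynomial.X ^ 4 + 12 * Polynomial.X) ^ 2 - 4 * (Polynomial.X ^ 3 + 1) *
      (Polynomial.X ^ 9 - 96 * Polynomial.X ^ 6 + 48 * Polynomial.X ^ 3 + 64)) ?_ ?_
    · simp only [map_sub, map_add, map_mul, map_pow, Polynomial.aeval_C, Polynomial.aeval_X,
        map_ofNat, map_one]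
      have h8 : eX ((3 : ℤ) • Q) * (4 * (eX Q ^ 3 + 1)) =
          algebraMap k F c * (eX Q ^ 4 - 8 * eX Q) := by
        linear_combination h6 + (algebraMap k F c * eX Q ^ 4 - 4 * eX ((3 : ℤ) • Q) * eX Q ^ 3) * hcF
      linear_combination -(3 * eX Q ^ 4 + 12 * eX Q) ^ 2 * h8 + 4 * (eX Q ^ 3 + 1) * h4
    · simp

end HB
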