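import Pool.Agent.HB.B.Basic

/-!
# HB-B-Tors: the function `Y - e` has divisor `3 (T) - 3 (O)`, `T = (0,e)`, `e² = 1`

Plan.  Let `X, Y` be the coordinates of `s`.  `(Y - e)(Y + e) = X³`.
* `X = 0`: `Y = ± e`, `s = ± T`, so `s = -T` (`ptE_ext`, `s ≠ T`), `Y = -e`, `v (Y - e) = v (-2e) = 0`
  (`v e = 0` as `e² = 1`).  `s - T = -(T + T)`, `doubleE` for `T`: `X(T+T) = 0`; `iE = 0`.  `iE s = 0`.
* `X ≠ 0`: `subE`: `X(s - T) = ((Y + e)/X)² - X = 2 e (Y + e)/X²` (`field_simp`, use `Y² = X³ + 1`,
  `e² = 1`).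
  - `v X = -2m < 0`: `v (Y ± e) = -3m`, `v X(s-T) = m ≥ 0`, `iE (s - T) = 0`, `iE s = m`.
  - `v X > 0`: exactly one of `Y - e`, `Y + e` is a unit (sum of valuations `3 v X > 0`, difference
    `2e` is a unit).  If `Y + e` is a unit: `v (Y - e) = 3 v X`, `v X(s-T) = -2 v X`, `iE = v X`.
    Otherwise `v (Y - e) = 0`, `v (Y + e) = 3 v X`, `v X(s-T) = v X`, `iE = 0`.
  - `v X = 0`: `v (Y ± e) = 0` both, `iE (s - T) = 0`, `iE s = 0`.
-/

set_option autoImplicit false

namespace HB

variable {k F : Type} [Field k] [Field F] [Algebra k F] [CharZero k] [CharZero F] (D : DV k F)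

theorem DV.v_eY_sub {s : EPt F} {e : F} (he : e ^ 2 = 1) (hs : s ≠ 0)
    (hT : s ≠ mkE 0 e (by rw [he]; ring)) :
    eY s - e ≠ 0 ∧
      D.v (eY s - e) = 3 * D.iE (s - mkE 0 e (by rw [he]; ring)) - 3 * D.iE s := by
  have heT : e ^ 2 = (0 : F) ^ 3 + 1 := by rw [he]; ring
  have hT0 := mkE_ne_zero 0 e heT
  have hsq := eY_sq hs
  have he0 : e ≠ 0 := by
    rintro rfl
    rw [zero_pow two_ne_zero] at he
    exact zero_ne_one he
  have hve : D.v e = 0 := by
    have h1 := D.pow he0 2
    rw [he, D.one] at h1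
    push_cast at h1
    omega
  have h20 : (2 : F) ≠ 0 := two_ne_zero
  have hv2 : D.v (2 : F) = 0 := D.ofNat
  have hv2e : D.v (2 * e) = 0 := by rw [D.mul h20 he0, hv2, hve, add_zero]
  by_cases hX : eX s = 0
  · have hYe : eY s = -e := by
      rw [hX] at hsq
      have h1 : (eY s - e) * (eY s + e) = 0 := by linear_combination hsq - he
      rcases mul_eq_zero.mp h1 with h2 | h2
      · exact absurd (ptE_ext hs hT0 hX (sub_eq_zero.mp h2)) hT
      · exact eq_neg_of_add_eq_zero_left h2
    have h1 : eY s - e = -(2 * e) := by rw [hYe]; ring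
    have hsT : s = -mkE 0 e heT := ptE_ext hs (neg_ne_zeroE hT0) (by rw [hX, eX_neg, eX_mkE])
      (by rw [hYe, eY_neg, eY_mkE])
    have h2 : s - mkE 0 e heT = -(mkE 0 e heT + mkE 0 e heT) := by
      rw [hsT]
      abel
    have h3 : D.iE (s - mkE 0 e heT) = 0 := by
      rw [h2, D.iE_neg]
      apply D.iE_of_ge
      have h4 := (doubleE hT0 (by rw [eY_mkE]; exact he0)).2.1
      rw [h4, eX_mkE]
      left
      ring
    have h5 : D.iE s = 0 := D.iE_of_ge (Or.inl hX)
    refine ⟨?_, ?_⟩
    · rw [h1]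
      exact neg_ne_zero.mpr (mul_ne_zero h20 he0)
    · rw [h1, D.neg, hv2e, h3, h5]
      norm_num
  · have hne1 : eY s - e ≠ 0 := by
      intro h
      apply hX
      have h1 : eX s ^ 3 = 0 := by
        rw [sub_eq_zero.mp h, he] at hsq
        linear_combination -hsq
      exact pow_eq_zero_iff (by norm_num) |>.mp h1
    have hne2 : eY s + e ≠ 0 := by
      intro h
      apply hX
      have h1 : eX s ^ 3 = 0 := by
        rw [eq_neg_of_add_eq_zero_left h, neg_sq, he] at hsq
        linear_combination -hsq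
      exact pow_eq_zero_iff (by norm_num) |>.mp h1
    have hprod : D.v (eY s - e) + D.v (eY s + e) = 3 * D.v (eX s) := by
      rw [← D.mul hne1 hne2]
      have h1 : (eY s - e) * (eY s + e) = eX s ^ 3 := by linear_combination hsq - he
      rw [h1, D.pow hX]
      norm_num
    have hXT : D.v (eX (s - mkE 0 e heT)) = D.v (eY s + e) - 2 * D.v (eX s) := by
      have h1 := (subE hs hT0 (by rw [eX_mkE]; exact hX)).2.1
      rw [eX_mkE, eY_mkE] at h1
      have h2 : eX (s - mkE 0 e heT) = (2 * e) * (eY s + e) / eX s ^ 2 := by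
        rw [h1, sub_zero, sub_zero]
        field_simp
        linear_combination hsq - he
      rw [h2, D.div (mul_ne_zero (mul_ne_zero h20 he0) hne2) (pow_ne_zero 2 hX),
        D.mul (mul_ne_zero h20 he0) hne2, hv2e, D.pow hX]
      push_cast
      ring
    refine ⟨hne1, ?_⟩
    rcases lt_or_ge (D.v (eX s)) 0 with hx | hx
    · obtain ⟨_, hY0, hm, hvX, hvY⟩ := D.v_pole hs hx
      have h1 := (D.add_eq_left hY0 (y := -e) (Or.inr (by rw [D.neg, hve]; omega))).2
      rw [← sub_eq_add_neg] at h1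
      have h2 := (D.add_eq_left hY0 (y := e) (Or.inr (by rw [hve]; omega))).2
      have h3 : D.iE (s - mkE 0 e heT) = 0 := by
        apply D.iE_of_ge
        right
        rw [hXT, h2, hvX, hvY]
        omega
      rw [h3, h1, hvY]
      ring
    · have hgY : D.ge 0 (eY s) := D.ge_eY (Or.inr hx)
      have hge : D.ge 0 e := Or.inr hve.ge
      have ha := D.le_of_ge hne1 (D.ge_sub hgY hge)
      have hb := D.le_of_ge hne2 (D.ge_add hgY hge)
      have hmin : D.v (eY s - e) = 0 ∨ D.v (eY s + e) = 0 := by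
        by_contra hcon
        rw [not_or] at hcon
        have h1 : D.ge 1 (2 * e) := by
          have h2 := D.ge_sub (D.ge_of_le (n := 1) (x := eY s + e) (by omega))
            (D.ge_of_le (n := 1) (x := eY s - e) (by omega))
          have h3 : eY s + e - (eY s - e) = 2 * e := by ring
          rwa [h3] at h2
        have h4 := D.le_of_ge (mul_ne_zero h20 he0) h1
        omega
      unfold DV.iE
      rw [hXT]
      rcases hmin with h1 | h1
      · omega
      · omega

end HB
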