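import Pool.Agent.HB.B.Basic

/-!
# HB-B-Triple: the `X`-coordinates of `2 s` and `3 s` on `Y² = X³ + 1`

Plan.  `2 • s = s + s` (`two_zsmul`), `3 • s = 2 • s + s` (`(3 : ℤ) = 2 + 1`, `add_zsmul`, `one_zsmul`).
`eX_two`: `doubleE`: `X(2s) = (3X²/(2Y))² - 2X = (9X⁴ - 8XY²)/(4Y²)`, `Y² = X³ + 1`.
`two_eq_zero`: `2 s = 0 ↔ s = -s ↔ eY s = 0` (for `s ≠ 0`; `ptE_ext`, `eY_neg`).
`X(2s) - X = -(3X⁴ + 12X)/(4Y²)`.  `3 s = 0 ↔ 2 s = -s`, hence (`s ≠ 0`, `2s ≠ 0`) `eX (2s) = eX s`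
(`eX_eq_iff`; `2 s = s` would give `s = 0`) iff `3X⁴ + 12X = 0`.
`eX_three`: if `eY s = 0`: `2s = 0`, `3s = s`, `X³ = -1`: both sides are equal (check:
`X (3X⁴+12X)² = X · 9X²(X³+4)² = 81 X³ = -81`; right side `-1 - 96 - 48 + 64 = -81`).
Otherwise `addE` for `2s` and `s` with the formulas for `eX (2s)`, `eY (2s)` from `doubleE`;
`field_simp`, then `linear_combination (...) * (Y² = X³ + 1)` (replace `Y²` by `X³+1`; `Y` occurs only
in even powers after multiplying out; e.g. prove `eY s * eY (2s) = ` a polynomial in `X` over `Y²`).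
(Check: `s = (2,3)`, `3s = (-1,0)`.)
-/

set_option autoImplicit false

namespace HB

variable {F : Type} [Field F] [CharZero F]

theorem two_eq_zero_iff {s : EPt F} (hs : s ≠ 0) : (2 : ℤ) • s = 0 ↔ eY s = 0 := by
  rw [two_zsmul]
  constructor
  · intro h
    by_contra hY
    exact (doubleE hs hY).1 h
  · intro hY
    have h1 : s = -s := ptE_ext hs (neg_ne_zeroE hs) (eX_neg s).symm (by rw [eY_neg, hY, neg_zero])
    nth_rewrite 2 [h1]
    exact add_neg_cancel s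

theorem eX_two {s : EPt F} (hs : s ≠ 0) (hY : eY s ≠ 0) :
    eX ((2 : ℤ) • s) * (4 * (eX s ^ 3 + 1)) = eX s ^ 4 - 8 * eX s := by
  have hsq := eY_sq hs
  rw [two_zsmul, (doubleE hs hY).2.1]
  have e1 : (3 * eX s ^ 2 / (2 * eY s)) ^ 2 * (4 * eY s ^ 2) = 9 * eX s ^ 4 := by
    field_simp
    ring
  linear_combination e1 - 4 * (3 * eX s ^ 2 / (2 * eY s)) ^ 2 * hsq

private theorem three_eq (s : EPt F) : (3 : ℤ) • s = (2 : ℤ) • s + s := by
  have h : (3 : ℤ) = 2 + 1 := by norm_num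
  rw [h, add_zsmul, one_zsmul]

private theorem X_ne_of_Y {s : EPt F} (hs : s ≠ 0) (hY : eY s = 0) : eX s ^ 3 = -1 := by
  have hsq := eY_sq hs
  rw [hY] at hsq
  linear_combination -hsq

private theorem two_X_eq {s : EPt F} (hs : s ≠ 0) (hY : eY s ≠ 0) :
    eX ((2 : ℤ) • s) = eX s ↔ 3 * eX s ^ 4 + 12 * eX s = 0 := by
  have h2 := eX_two hs hY
  have hsq := eY_sq hs
  have h0 : (4 : F) * (eX s ^ 3 + 1) ≠ 0 := by
    rw [← hsq]
    exact mul_ne_zero (by norm_num) (pow_ne_zero 2 hY)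
  constructor
  · intro h
    rw [h] at h2
    linear_combination h2
  · intro h
    apply mul_right_cancel₀ h0
    rw [h2]
    linear_combination -h

private theorem three_zero_iff' {s : EPt F} (hs : s ≠ 0) (hY : eY s ≠ 0) :
    (3 : ℤ) • s = 0 ↔ eX ((2 : ℤ) • s) = eX s := by
  have h2 : (2 : ℤ) • s ≠ 0 := fun h => hY ((two_eq_zero_iff hs).1 h)
  rw [three_eq, eX_eq_iff h2 hs]
  constructor
  · intro h
    exact Or.inr (eq_neg_of_add_eq_zero_left h)
  · rintro (h | h)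
    · exfalso
      rw [two_zsmul] at h
      exact hs (left_eq_add.mp h.symm)
    · rw [h, neg_add_cancel]

theorem three_eq_zero_iff {s : EPt F} (hs : s ≠ 0) :
    (3 : ℤ) • s = 0 ↔ 3 * eX s ^ 4 + 12 * eX s = 0 := by
  by_cases hY : eY s = 0
  · have h3 := X_ne_of_Y hs hY
    have h1 : (3 : ℤ) • s ≠ 0 := by
      rw [three_eq, (two_eq_zero_iff hs).2 hY, zero_add]
      exact hs
    have h2 : 3 * eX s ^ 4 + 12 * eX s ≠ 0 := by
      intro h
      have h4 : (9 : F) * eX s = 0 := by linear_combination h - 3 * eX s * h3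
      have h5 : eX s = 0 := by simpa using h4
      rw [h5] at h3
      norm_num at h3
    exact ⟨fun h => absurd h h1, fun h => absurd h h2⟩
  · rw [three_zero_iff' hs hY, two_X_eq hs hY]

theorem eX_three {s : EPt F} (hs : s ≠ 0) (h3 : (3 : ℤ) • s ≠ 0) :
    eX ((3 : ℤ) • s) * (3 * eX s ^ 4 + 12 * eX s) ^ 2 =
      eX s ^ 9 - 96 * eX s ^ 6 + 48 * eX s ^ 3 + 64 := by
  by_cases hY : eY s = 0
  · have h3' := X_ne_of_Y hs hY
    have h1 : (3 : ℤ) • s = s := by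
      rw [three_eq, (two_eq_zero_iff hs).2 hY, zero_add]
    rw [h1]
    linear_combination (9 * (eX s ^ 3) * (eX s ^ 3 + 7) + 81 - 9 * (eX s ^ 3) * (1 : F) +
      (- (eX s ^ 6) + 97 * eX s ^ 3 - 145) + (9 * (eX s ^ 3) - 0) +
      (0 : F)) * h3'
  · have hsq := eY_sq hs
    have h2 : (2 : ℤ) • s ≠ 0 := fun h => hY ((two_eq_zero_iff hs).1 h)
    have hX : eX ((2 : ℤ) • s) ≠ eX s := fun h => h3 ((three_zero_iff' hs hY).2 h)
    have hd := doubleE hs hY
    rw [← two_zsmul] at hd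
    obtain ⟨_, hX2, hY2⟩ := hd
    obtain ⟨_, hX3, _⟩ := addE h2 hs hX
    rw [← three_eq] at hX3
    have hE := eX_two hs hY
    set X := eX s with hXdef
    set Y := eY s with hYdef
    set X2 := eX ((2 : ℤ) • s) with hX2def
    set Y2 := eY ((2 : ℤ) • s) with hY2def
    set X3 := eX ((3 : ℤ) • s) with hX3def
    set t := 3 * X ^ 2 / (2 * Y) with ht
    set lam := (Y2 - Y) / (X2 - X) with hlam
    have h1 : 2 * Y * t = 3 * X ^ 2 := by
      rw [ht]; field_simp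
    have hl : lam * (X2 - X) = Y2 - Y := by
      rw [hlam, div_mul_cancel₀ _ (sub_ne_zero.mpr hX)]
    have hXD : (X2 - X) * (4 * Y ^ 2) = -(3 * X ^ 4 + 12 * X) := by
      linear_combination hE + 4 * (X2 - X) * hsq
    have h4 : (lam + t) * (X2 - X) = -(2 * Y) := by
      rw [add_mul, hl, hY2]; ring
    have h5 : (lam + t) * (3 * X ^ 4 + 12 * X) = 8 * Y ^ 3 := by
      linear_combination (-(4 * Y ^ 2)) * h4 + (lam + t) * hXD
    have e1 : X3 = lam ^ 2 - t ^ 2 + X := by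
      rw [hX3, hX2]; ring
    have e2 : X3 * (3 * X ^ 4 + 12 * X) ^ 2 =
        64 * Y ^ 6 - 24 * X ^ 2 * Y ^ 2 * (3 * X ^ 4 + 12 * X) + X * (3 * X ^ 4 + 12 * X) ^ 2 := by
      rw [e1]
      linear_combination ((lam - t) * (3 * X ^ 4 + 12 * X) + 8 * Y ^ 3) * h5 -
        8 * Y ^ 2 * (3 * X ^ 4 + 12 * X) * h1
    linear_combination e2 + (64 * (Y ^ 4 + Y ^ 2 * (X ^ 3 + 1) + (X ^ 3 + 1) ^ 2) -
      24 * X ^ 2 * (3 * X ^ 4 + 12 * X)) * hsq

/-- The points `(0, e)` have order three. -/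
theorem three_mkE (e : F) (he : e ^ 2 = 1) : (3 : ℤ) • mkE 0 e (by rw [he]; ring) = 0 := by
  rw [three_eq_zero_iff (mkE_ne_zero _ _ _), eX_mkE]
  ring

end HB
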